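import Mathlib
import Pool.Agent.H332R2.CastLem

set_option autoImplicit false

namespace Pool.Agent.T9h59.SR

open Finset

/-- the `b` with `0 < b < e / 2` prime to `e` -/
def B (e : ℕ) : Finset ℕ := (Finset.Ico 1 ((e + 1) / 2)).filter (fun b => Nat.Coprime b e)

/-- `(z + 1) / (z - 1)`; for `z = exp (2 i x)` this is `- i cot x` -/
def ct {F : Type*} [Field F] (z : F) : F := (z + 1) / (z - 1)

theorem mem_B {e b : ℕ} : b ∈ B e ↔ (1 ≤ b ∧ b < (e + 1) / 2) ∧ Nat.Coprime b e := by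
  unfold B
  rw [mem_filter, mem_Ico]

/-- the coefficient of `x ^ (2 s)` in `F(e x) F(b x)`, `F(x) = ∑ B_{2 i} x^{2 i} / (2 i)!`, modulo
`p` -/
noncomputable def M (p : ℕ) [Fact p.Prime] (s : ℕ) (e b : ℕ) : ZMod p :=
  ∑ i ∈ range (s + 1), (Pool.Agent.H332R2.cc p (2 * i) * (e : ZMod p) ^ (2 * i)) *
    (Pool.Agent.H332R2.cc p (2 * (s - i)) * (b : ZMod p) ^ (2 * (s - i)))

end Pool.Agent.T9h59.SR
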