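import Mathlib
import Pool.Agent.T9h59.SR.Defs
import Pool.Agent.H582R5.RP.Ser

set_option autoImplicit false

namespace Pool.Agent.T9h59.SR

open Finset Polynomial Pool.Agent.H332R2 Pool.Agent.H582R5.RP

variable {p : ℕ} [hp : Fact p.Prime]

/-- the even series `∑ B_{2 i} (a x)^{2 i} / (2 i)!` modulo `p` -/
noncomputable def YY (p : ℕ) [Fact p.Prime] (a : ZMod p) : PowerSeries (ZMod p) :=
  PowerSeries.mk (fun n => if Even n then cc p n * a ^ n else 0)

theorem cc_one (h3 : 3 ≤ p) : cc p 1 = -(2⁻¹ : ZMod p) := by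
  unfold cc
  rw [_root_.bernoulli_one]
  have h2 : ((2 : ℕ) : ZMod p) ≠ 0 := nat_ne_zero (by norm_num) (by omega)
  simp only [Nat.factorial_one, Nat.cast_one, inv_one, mul_one]
  rw [Rat.cast_def]
  norm_num
  rw [neg_div, one_div]

theorem cc_odd {n : ℕ} (hn : ¬ Even n) (h1 : n ≠ 1) : cc p n = 0 := by
  unfold cc
  rw [bernoulli_eq_zero_of_odd (Nat.not_even_iff_odd.1 hn) (by
    rcases Nat.not_even_iff_odd.1 hn with ⟨k, hk⟩
    omega)]
  simp

theorem YY_rel (h3 : 3 ≤ p) (N : ℕ) (hN : N ≤ p) (a : ZMod p) :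
    (qm (ZMod p) N (ee a) - 1) * qm (ZMod p) N (YY p a) =
      qm (ZMod p) N (PowerSeries.C (a / 2) * PowerSeries.X) * (qm (ZMod p) N (ee a) + 1) := by
  have h2 : (2 : ZMod p) ≠ 0 := by
    have := nat_ne_zero (p := p) (k := 2) (by norm_num) (by omega)
    exact_mod_cast this
  have h := bb_rec' (K := ZMod p) p N hN a
  have e1 : qm (ZMod p) N (YY p a) = qm (ZMod p) N (PowerSeries.rescale a (bb p)) +
      qm (ZMod p) N (PowerSeries.C (a / 2) * PowerSeries.X) := by
    rw [← map_add, qm_eq_iff]
    intro n hn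
    rw [map_add, PowerSeries.coeff_rescale, PowerSeries.coeff_C_mul, PowerSeries.coeff_X]
    unfold YY bb
    rw [PowerSeries.coeff_mk, PowerSeries.coeff_mk]
    simp only [Algebra.algebraMap_self, RingHom.id_apply]
    split_ifs with h1 h2 h2
    · subst h2
      exact absurd h1 (by decide)
    · ring
    · subst h2
      rw [cc_one h3]
      ring
    · rw [cc_odd h1 h2]
      ring
  rw [e1, mul_add, h]
  have e2 : qm (ZMod p) N (PowerSeries.C a * PowerSeries.X) =
      2 * qm (ZMod p) N (PowerSeries.C (a / 2) * PowerSeries.X) := by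
    rw [← map_ofNat (qm (ZMod p) N) 2, ← map_mul]
    congr 1
    rw [← mul_assoc]
    congr 1
    rw [← map_ofNat (PowerSeries.C (R := ZMod p)) 2, ← map_mul]
    congr 1
    field_simp
  rw [e2]
  ring

theorem qm_ee_nat (N : ℕ) (hN : N ≤ p) (a : ℕ) :
    qm (ZMod p) N (ee (a : ZMod p)) = qm (ZMod p) N (ee 1) ^ a := by
  induction a with
  | zero => rw [Nat.cast_zero, ee_zero, map_one, pow_zero]
  | succ a ih => rw [Nat.cast_succ, qm_ee_add p N hN, ih, pow_succ]

theorem coeff_YY_mul (e b n : ℕ) :
    PowerSeries.coeff n (YY p (e : ZMod p) * YY p (b : ZMod p)) =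
      if Even n then M p (n / 2) e b else 0 := by
  rw [PowerSeries.coeff_mul, Finset.Nat.sum_antidiagonal_eq_sum_range_succ_mk]
  unfold YY
  simp only [PowerSeries.coeff_mk]
  split_ifs with hn
  · obtain ⟨s, rfl⟩ := hn
    have e0 : (s + s) / 2 = s := by omega
    rw [e0]
    unfold M
    have e1 : ∀ i ∈ range (s + 1), (cc p (2 * i) * (e : ZMod p) ^ (2 * i)) *
        (cc p (2 * (s - i)) * (b : ZMod p) ^ (2 * (s - i))) =
        (fun k => (if Even k then cc p k * (e : ZMod p) ^ k else 0) *
          (if Even (s + s - k) then cc p (s + s - k) * (b : ZMod p) ^ (s + s - k) else 0)) (2 * i) := by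
      intro i hi
      rw [mem_range] at hi
      have e2 : s + s - 2 * i = 2 * (s - i) := by omega
      simp only [e2, even_two_mul, if_true]
    rw [Finset.sum_congr rfl e1]
    symm
    rw [← Finset.sum_image (f := fun k => (if Even k then cc p k * (e : ZMod p) ^ k else 0) *
          (if Even (s + s - k) then cc p (s + s - k) * (b : ZMod p) ^ (s + s - k) else 0))
          (s := range (s + 1)) (g := fun i => 2 * i) (by
            intro x _ y _ hxy
            simp only at hxy
            omega)]
    refine Finset.sum_subset ?_ ?_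
    · intro k hk
      rw [mem_image] at hk
      obtain ⟨i, hi, rfl⟩ := hk
      rw [mem_range] at hi ⊢
      omega
    · intro k hk hk2
      rw [if_neg, zero_mul]
      rintro ⟨i, rfl⟩
      apply hk2
      rw [mem_image]
      rw [mem_range] at hk
      exact ⟨i, by rw [mem_range]; omega, by omega⟩
  · apply Finset.sum_eq_zero
    intro k hk
    rw [mem_range] at hk
    by_cases h1 : Even k
    · rw [if_neg (c := Even (n - k)), mul_zero]
      intro h2
      apply hn
      have := h1.add h2
      rwa [Nat.add_sub_cancel' (by omega)] at this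
    · rw [if_neg h1, zero_mul]

end Pool.Agent.T9h59.SR
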