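import Mathlib
import Pool.Agent.T9h59.SR.Defs

set_option autoImplicit false

namespace Pool.Agent.T9h59.SR

open Finset Polynomial

/-- the common denominator `(t - 1)^2 ∏_{2 ≤ f ≤ C} Φ_f` -/
noncomputable def DD (R : Type*) [CommRing R] (C : ℕ) : R[X] :=
  (X - 1) ^ 2 * ∏ f ∈ Icc 2 C, cyclotomic f R

/-- `D / ((t^e - 1) (t^b - 1))` -/
noncomputable def QQ (R : Type*) [CommRing R] (C e b : ℕ) : R[X] :=
  ∏ f ∈ (Icc 2 C).filter (fun f => ¬ f ∣ e ∧ ¬ f ∣ b), cyclotomic f R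

/-- `t^e - 1` divided by `t - 1` -/
theorem geom_cyc (R : Type*) [CommRing R] (e C : ℕ) (he : 1 ≤ e) (heC : e ≤ C) :
    (X - 1) * ∏ f ∈ (Icc 2 C).filter (fun f => f ∣ e), cyclotomic f R = X ^ e - 1 := by
  rw [← prod_cyclotomic_eq_X_pow_sub_one (by omega : 0 < e) R]
  have h1 : Nat.divisors e = insert 1 ((Icc 2 C).filter (fun f => f ∣ e)) := by
    ext f
    rw [Nat.mem_divisors, mem_insert, mem_filter, mem_Icc]
    constructor
    · rintro ⟨h1, h2⟩
      have h3 := Nat.le_of_dvd (by omega) h1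
      have h4 := Nat.pos_of_dvd_of_pos h1 (by omega)
      rcases Nat.lt_or_ge f 2 with h5 | h5
      · left; omega
      · right; exact ⟨⟨h5, by omega⟩, h1⟩
    · rintro (h1 | h1)
      · subst h1; exact ⟨one_dvd _, by omega⟩
      · exact ⟨h1.2, by omega⟩
  rw [h1, prod_insert (by
    rw [mem_filter, mem_Icc]
    omega), cyclotomic_one]

theorem QQ_mul (R : Type*) [CommRing R] (C e b : ℕ) (he : 1 ≤ e) (heC : e ≤ C) (hb : 1 ≤ b)
    (hbC : b ≤ C) (hc : Nat.Coprime b e) :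
    QQ R C e b * ((X ^ e - 1) * (X ^ b - 1)) = DD R C := by
  classical
  rw [← geom_cyc R e C he heC, ← geom_cyc R b C hb hbC]
  unfold QQ DD
  have h1 : ∏ f ∈ Icc 2 C, cyclotomic f R =
      (∏ f ∈ (Icc 2 C).filter (fun f => f ∣ e), cyclotomic f R) *
      ((∏ f ∈ (Icc 2 C).filter (fun f => f ∣ b), cyclotomic f R) *
      ∏ f ∈ (Icc 2 C).filter (fun f => ¬ f ∣ e ∧ ¬ f ∣ b), cyclotomic f R) := by
    rw [← prod_filter_mul_prod_filter_not (Icc 2 C) (fun f => f ∣ e)]
    congr 1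
    rw [← prod_filter_mul_prod_filter_not ((Icc 2 C).filter (fun f => ¬ f ∣ e)) (fun f => f ∣ b),
      filter_filter, filter_filter]
    congr 1
    refine prod_congr ?_ (fun _ _ => rfl)
    ext f
    rw [mem_filter, mem_filter, mem_Icc]
    constructor
    · rintro ⟨h1, h2, h3⟩
      exact ⟨h1, h3⟩
    · rintro ⟨h1, h3⟩
      refine ⟨h1, ?_, h3⟩
      intro h4
      have h5 := Nat.dvd_gcd h3 h4
      rw [hc] at h5
      have := Nat.le_of_dvd one_pos h5
      omega
  rw [h1]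
  ring

theorem degree_QQ (R : Type*) [CommRing R] [Nontrivial R] (C e b : ℕ) (he : 1 ≤ e) (heC : e ≤ C)
    (hb : 1 ≤ b) (hbC : b ≤ C) (hc : Nat.Coprime b e) :
    (QQ R C e b * ((X ^ e + 1) * (X ^ b + 1))).natDegree ≤ ∑ f ∈ Icc 1 C, Nat.totient f + 1 := by
  have hm : (QQ R C e b).Monic := by
    unfold QQ
    exact monic_prod_of_monic _ _ (fun f _ => cyclotomic.monic f R)
  have hm2 : ((X ^ e - 1) * (X ^ b - 1) : R[X]).Monic :=
    (monic_X_pow_sub_C (1 : R) (by omega)).mul (monic_X_pow_sub_C (1 : R) (by omega))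
  have hD : (DD R C).natDegree = ∑ f ∈ Icc 1 C, Nat.totient f + 1 := by
    unfold DD
    have hm3 : ((X - 1 : R[X]) ^ 2).Monic := (monic_X_sub_C (1 : R)).pow 2
    have hm4 : (∏ f ∈ Icc 2 C, cyclotomic f R).Monic :=
      monic_prod_of_monic _ _ (fun f _ => cyclotomic.monic f R)
    rw [hm3.natDegree_mul hm4, natDegree_prod_of_monic _ _ (fun f _ => cyclotomic.monic f R)]
    have e1 : ((X - 1 : R[X]) ^ 2).natDegree = 2 := by
      have h1 : (X - 1 : R[X]).Monic := monic_X_sub_C (1 : R)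
      rw [h1.natDegree_pow]
      have h2 : (X - 1 : R[X]).natDegree = 1 := natDegree_X_sub_C (1 : R)
      rw [h2]
    rw [e1]
    simp only [natDegree_cyclotomic]
    have e2 : Icc 1 C = insert 1 (Icc 2 C) := by
      ext f
      rw [mem_insert, mem_Icc, mem_Icc]
      omega
    rw [e2, sum_insert (by rw [mem_Icc]; omega), Nat.totient_one]
    ring
  have h1 := congrArg natDegree (QQ_mul R C e b he heC hb hbC hc)
  rw [hm.natDegree_mul hm2, hD] at h1
  have e3 : ((X ^ e - 1) * (X ^ b - 1) : R[X]).natDegree = e + b := by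
    have m1 : (X ^ e - 1 : R[X]).Monic := monic_X_pow_sub_C (1 : R) (by omega : e ≠ 0)
    have m2 : (X ^ b - 1 : R[X]).Monic := monic_X_pow_sub_C (1 : R) (by omega : b ≠ 0)
    rw [m1.natDegree_mul m2]
    congr 1
    · exact natDegree_X_pow_sub_C (n := e) (r := (1 : R))
    · exact natDegree_X_pow_sub_C (n := b) (r := (1 : R))
  rw [e3] at h1
  refine natDegree_mul_le.trans ?_
  have e4 : ((X ^ e + 1) * (X ^ b + 1) : R[X]).natDegree ≤ e + b := by
    refine natDegree_mul_le.trans ?_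
    refine Nat.add_le_add ?_ ?_
    · exact (natDegree_X_pow_add_C (n := e) (r := (1 : R))).le
    · exact (natDegree_X_pow_add_C (n := b) (r := (1 : R))).le
  omega

variable {F : Type*} [Field F]

theorem eval_DD_root (C e : ℕ) (he : 2 ≤ e) (heC : e ≤ C) (ζ : F) (hζ : IsPrimitiveRoot ζ e) :
    (DD F C).eval ζ = 0 := by
  unfold DD
  rw [eval_mul, eval_prod]
  rw [prod_eq_zero (i := e) (by rw [mem_Icc]; omega)]
  · rw [mul_zero]
  · have := hζ.isRoot_cyclotomic (by omega)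
    exact this

theorem eval_QQ_lt (C e e' b : ℕ) (he : 2 ≤ e) (heC : e ≤ C) (ζ : F) (hζ : IsPrimitiveRoot ζ e)
    (he' : 1 ≤ e') (hlt : e' < e) (hb : 1 ≤ b) (hb' : b < e) (hc : Nat.Coprime b e') :
    (QQ F C e' b).eval ζ = 0 := by
  have h1 := congrArg (eval ζ) (QQ_mul F C e' b he' (by omega) hb (by omega) hc)
  rw [eval_DD_root C e he heC ζ hζ, eval_mul, eval_mul] at h1
  rcases mul_eq_zero.1 h1 with h | h
  · exact h
  · exfalso
    rw [eval_sub, eval_sub, eval_pow, eval_pow, eval_X, eval_one] at h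
    rcases mul_eq_zero.1 h with h | h
    · exact hζ.pow_ne_one_of_pos_of_lt (by omega) hlt (sub_eq_zero.1 h)
    · exact hζ.pow_ne_one_of_pos_of_lt (by omega) hb' (sub_eq_zero.1 h)

/-- `D / (t^e - 1)` -/
noncomputable def LL (R : Type*) [CommRing R] (C e : ℕ) : R[X] :=
  (X - 1) * ∏ f ∈ (Icc 2 C).filter (fun f => ¬ f ∣ e), cyclotomic f R

theorem QQ_mul_LL (R : Type*) [CommRing R] (C e b : ℕ) (hb : 1 ≤ b)
    (hbC : b ≤ C) (hc : Nat.Coprime b e) :
    QQ R C e b * (X ^ b - 1) = LL R C e := by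
  classical
  rw [← geom_cyc R b C hb hbC]
  unfold QQ LL
  have h1 : ∏ f ∈ (Icc 2 C).filter (fun f => ¬ f ∣ e), cyclotomic f R =
      (∏ f ∈ (Icc 2 C).filter (fun f => f ∣ b), cyclotomic f R) *
      ∏ f ∈ (Icc 2 C).filter (fun f => ¬ f ∣ e ∧ ¬ f ∣ b), cyclotomic f R := by
    rw [← prod_filter_mul_prod_filter_not ((Icc 2 C).filter (fun f => ¬ f ∣ e)) (fun f => f ∣ b),
      filter_filter, filter_filter]
    congr 1
    refine prod_congr ?_ (fun _ _ => rfl)
    ext f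
    rw [mem_filter, mem_filter, mem_Icc]
    constructor
    · rintro ⟨h1, h2, h3⟩
      exact ⟨h1, h3⟩
    · rintro ⟨h1, h3⟩
      refine ⟨h1, ?_, h3⟩
      intro h4
      have h5 := Nat.dvd_gcd h3 h4
      rw [hc] at h5
      have := Nat.le_of_dvd one_pos h5
      omega
  rw [h1]
  ring

theorem eval_LL_ne (p : ℕ) [Fact p.Prime] [CharP F p] (C e : ℕ) (he : 2 ≤ e) (hCp : C < p)
    (ζ : F) (hζ : IsPrimitiveRoot ζ e) : (LL F C e).eval ζ ≠ 0 := by
  unfold LL
  rw [eval_mul, eval_prod]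
  refine mul_ne_zero ?_ ?_
  · rw [eval_sub, eval_X, eval_one, sub_ne_zero]
    exact hζ.ne_one (by omega)
  · rw [prod_ne_zero_iff]
    intro f hf h0
    rw [mem_filter, mem_Icc] at hf
    have h1 : NeZero (f : F) := by
      refine ⟨fun h => ?_⟩
      rw [CharP.cast_eq_zero_iff F p] at h
      have := Nat.le_of_dvd (by omega) h
      omega
    have h2 : IsPrimitiveRoot ζ f := isRoot_cyclotomic_iff.1 h0
    have h3 := h2.unique hζ
    subst h3
    exact hf.2 dvd_rfl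

end Pool.Agent.T9h59.SR
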