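import Mathlib
import Pool.Agent.T9h59.SR.Alg
import Pool.Agent.T9h59.SR.Cyc

set_option autoImplicit false

namespace Pool.Agent.T9h59.SR

open Finset Polynomial Pool.Agent.H332R2 Pool.Agent.H582R5.RP

variable {p : ℕ} [hp : Fact p.Prime]

/-- the numerator of the combination of the functions `coth coth` -/
noncomputable def PP (p : ℕ) [Fact p.Prime] (C e : ℕ) (μ : ℕ → ℕ → ZMod p) : (ZMod p)[X] :=
  ∑ e' ∈ Icc 3 e, ∑ b ∈ B e', Polynomial.C (μ e' b * (((e' : ZMod p) / 2) * ((b : ZMod p) / 2))) *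
    (QQ (ZMod p) C e' b * ((X ^ e' + 1) * (X ^ b + 1)))

theorem B_lt {e b : ℕ} (hb : b ∈ B e) (he : 3 ≤ e) : 1 ≤ b ∧ b < e ∧ Nat.Coprime b e := by
  rw [mem_B] at hb
  exact ⟨hb.1.1, by omega, hb.2⟩

theorem natDegree_PP (C e : ℕ) (heC : e ≤ C) (μ : ℕ → ℕ → ZMod p) :
    (PP p C e μ).natDegree ≤ ∑ f ∈ Icc 1 C, Nat.totient f + 1 := by
  unfold PP
  refine natDegree_sum_le_of_forall_le _ _ (fun e' he' => ?_)
  rw [mem_Icc] at he'
  refine natDegree_sum_le_of_forall_le _ _ (fun b hb => ?_)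
  obtain ⟨h1, h2, h3⟩ := B_lt hb he'.1
  exact (natDegree_C_mul_le _ _).trans
    (degree_QQ (ZMod p) C e' b (by omega) (by omega) h1 (by omega) h3)

theorem PP_rel (h3 : 3 ≤ p) (N C e : ℕ) (hN : N ≤ p) (heC : e ≤ C) (μ : ℕ → ℕ → ZMod p) :
    qm (ZMod p) N (PowerSeries.X ^ 2) * aeval (qm (ZMod p) N (ee 1)) (PP p C e μ) =
    aeval (qm (ZMod p) N (ee 1)) (DD (ZMod p) C) *
      qm (ZMod p) N (∑ e' ∈ Icc 3 e, ∑ b ∈ B e', PowerSeries.C (μ e' b) *
        (YY p (e' : ZMod p) * YY p (b : ZMod p))) := by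
  unfold PP
  rw [map_sum, map_sum, mul_sum, mul_sum]
  refine sum_congr rfl (fun e' he' => ?_)
  rw [mem_Icc] at he'
  rw [map_sum, map_sum, mul_sum, mul_sum]
  refine sum_congr rfl (fun b hb => ?_)
  obtain ⟨h1, h2, h4⟩ := B_lt hb he'.1
  rw [← QQ_mul (ZMod p) C e' b (by omega) (by omega) h1 (by omega) h4]
  have r1 := YY_rel h3 N hN (e' : ZMod p)
  have r2 := YY_rel h3 N hN (b : ZMod p)
  rw [qm_ee_nat N hN] at r1 r2
  simp only [map_mul, map_add, map_sub, map_pow, aeval_X, map_one, aeval_C] at r1 r2 ⊢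
  set τ := qm (ZMod p) N (ee 1)
  set x := qm (ZMod p) N PowerSeries.X
  set Q := aeval τ (QQ (ZMod p) C e' b)
  have halg : ∀ a : ZMod p, algebraMap (ZMod p) (QR (ZMod p) N) a =
      qm (ZMod p) N (PowerSeries.C a) := fun a => rfl
  rw [halg, halg, halg]
  linear_combination (-(qm (ZMod p) N (PowerSeries.C (μ e' b))) * Q) *
    (r1 * (τ ^ b - 1) * (qm (ZMod p) N (YY p (b : ZMod p))) +
     r2 * (qm (ZMod p) N (PowerSeries.C ((e' : ZMod p) / 2)) * x * (τ ^ e' + 1)))

theorem PP_zero_of (K C e : ℕ) (hK : 2 * K + 3 ≤ p) (hC : ∑ f ∈ Icc 1 C, Nat.totient f + 2 ≤ 2 * K)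
    (heC : e ≤ C) (μ : ℕ → ℕ → ZMod p)
    (hvan : ∀ s, s ≤ K → ∑ e' ∈ Icc 3 e, ∑ b ∈ B e', μ e' b * M p s e' b = 0) :
    PP p C e μ = 0 := by
  have h3 : 3 ≤ p := by omega
  set N := 2 * K + 2 with hNdef
  have hN : N ≤ p := by omega
  have h := PP_rel h3 N C e hN heC μ
  have h0 : qm (ZMod p) N (∑ e' ∈ Icc 3 e, ∑ b ∈ B e', PowerSeries.C (μ e' b) *
        (YY p (e' : ZMod p) * YY p (b : ZMod p))) = 0 := by
    rw [← map_zero (qm (ZMod p) N), qm_eq_iff]
    intro n hn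
    rw [map_sum, map_zero]
    simp only [map_sum, PowerSeries.coeff_C_mul, coeff_YY_mul]
    by_cases hev : Even n
    · simp only [if_pos hev]
      exact hvan (n / 2) (by omega)
    · simp only [if_neg hev, mul_zero, sum_const_zero]
  rw [h0, mul_zero] at h
  set P := PP p C e μ with hP
  have hdeg : P.natDegree < 2 * K := by
    have := natDegree_PP C e heC μ
    rw [← hP] at this
    omega
  have h1 : aeval (qm (ZMod p) N (ee 1)) P =
      qm (ZMod p) N (∑ j ∈ range (2 * K), PowerSeries.C (P.coeff j) * ee (j : ZMod p)) := by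
    rw [aeval_eq_sum_range' hdeg, map_sum]
    refine sum_congr rfl (fun j hj => ?_)
    rw [map_mul, qm_ee_nat N hN, Algebra.smul_def]
    rfl
  rw [h1, ← map_mul, ← map_zero (qm (ZMod p) N), qm_eq_iff] at h
  have h2 : ∀ n, n < 2 * K → ∑ j ∈ range (2 * K), P.coeff j * (j : ZMod p) ^ n = 0 := by
    intro n hn
    have h4 := h (n + 2) (by omega)
    rw [PowerSeries.coeff_X_pow_mul, map_sum, map_zero] at h4
    simp only [PowerSeries.coeff_C_mul, ee, PowerSeries.coeff_mk] at h4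
    have h5 : (n.factorial : ZMod p) ≠ 0 := Pool.Agent.H582R5.RP.fact_ne p (by omega)
    have h6 : (∑ j ∈ range (2 * K), P.coeff j * (j : ZMod p) ^ n) * (n.factorial : ZMod p)⁻¹ = 0 := by
      rw [sum_mul, ← h4]
      refine sum_congr rfl (fun j _ => ?_)
      ring
    rcases mul_eq_zero.1 h6 with h7 | h7
    · exact h7
    · exact absurd h7 (inv_ne_zero h5)
  have h4 : (fun j : Fin (2 * K) => P.coeff (j : ℕ)) = 0 := by
    refine Matrix.eq_zero_of_forall_pow_sum_mul_pow_eq_zero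
      (f := fun j : Fin (2 * K) => ((j : ℕ) : ZMod p)) ?_ ?_
    · intro a b hab
      simp only at hab
      rw [ZMod.natCast_eq_natCast_iff'] at hab
      have ha := a.2
      have hb := b.2
      rw [Nat.mod_eq_of_lt (by omega), Nat.mod_eq_of_lt (by omega)] at hab
      exact Fin.ext hab
    · intro i
      have h5 := h2 i i.2
      rw [← Fin.sum_univ_eq_sum_range (fun j => P.coeff j * (j : ZMod p) ^ (i : ℕ))] at h5
      exact h5
  ext j
  rw [coeff_zero]
  rcases Nat.lt_or_ge j (2 * K) with h5 | h5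
  · exact congrFun h4 ⟨j, h5⟩
  · exact coeff_eq_zero_of_natDegree_lt (by omega)

theorem QQ_map {F : Type*} [Field F] [Algebra (ZMod p) F] (C e b : ℕ) :
    (QQ (ZMod p) C e b).map (algebraMap (ZMod p) F) = QQ F C e b := by
  unfold QQ
  rw [Polynomial.map_prod]
  refine prod_congr rfl (fun f _ => ?_)
  exact map_cyclotomic f _

/-- **Algebra modulo `p`**: if the combination of the products of the Bernoulli series vanishes up to
the degree `2 K + 1` then the combination of the residues at the primitive `e`-th roots of unity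
vanishes. -/
theorem core {F : Type*} [Field F] [Algebra (ZMod p) F] (K C e : ℕ) (hK : 2 * K + 3 ≤ p)
    (hC : ∑ f ∈ Icc 1 C, Nat.totient f + 2 ≤ 2 * K) (hCp : C < p) (he : 3 ≤ e)
    (heC : e ≤ C) (μ : ℕ → ℕ → ZMod p)
    (hvan : ∀ s, s ≤ K → ∑ e' ∈ Icc 3 e, ∑ b ∈ B e', μ e' b * M p s e' b = 0)
    (ζ : F) (hζ : IsPrimitiveRoot ζ e) :
    ∑ b ∈ B e, algebraMap (ZMod p) F (μ e b * b) * ct (ζ ^ b) = 0 := by
  have hP := PP_zero_of K C e hK hC heC μ hvan
  have hchar : CharP F p := charP_of_injective_algebraMap (algebraMap (ZMod p) F).injective p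
  have h2 : (2 : F) ≠ 0 := by
    have h := Ring.two_ne_zero (R := F)
    apply h
    intro h4
    have h5 := ringChar.of_eq h4
    have h6 := CharP.eq F h5 hchar
    omega
  have h1 := congrArg (fun P : (ZMod p)[X] => (P.map (algebraMap (ZMod p) F)).eval ζ) hP
  simp only [Polynomial.map_zero, eval_zero] at h1
  unfold PP at h1
  simp only [Polynomial.map_sum, eval_finsetSum, Polynomial.map_mul, Polynomial.map_C, eval_mul,
    eval_C, QQ_map, Polynomial.map_add, Polynomial.map_pow, Polynomial.map_X, Polynomial.map_one,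
    eval_add, eval_pow, eval_X, eval_one] at h1
  have e1 : Icc 3 e = insert e (Ico 3 e) := by
    ext f
    rw [mem_insert, mem_Icc, mem_Ico]
    omega
  rw [e1, sum_insert (by rw [mem_Ico]; omega)] at h1
  have e2 : ∑ e' ∈ Ico 3 e, ∑ b ∈ B e', algebraMap (ZMod p) F
      (μ e' b * (((e' : ZMod p) / 2) * ((b : ZMod p) / 2))) *
      (eval ζ (QQ F C e' b) * ((ζ ^ e' + 1) * (ζ ^ b + 1))) = 0 := by
    apply sum_eq_zero
    intro e' he'
    rw [mem_Ico] at he'
    apply sum_eq_zero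
    intro b hb
    obtain ⟨h4, h5, h6⟩ := B_lt hb he'.1
    rw [eval_QQ_lt C e e' b (by omega) heC ζ hζ (by omega) he'.2 h4 (by omega) h6]
    ring
  rw [e2, add_zero] at h1
  have hL : (LL F C e).eval ζ ≠ 0 := eval_LL_ne p C e (by omega) hCp ζ hζ
  have he0 : (e : F) ≠ 0 := by
    intro h
    rw [CharP.cast_eq_zero_iff F p] at h
    have := Nat.le_of_dvd (by omega) h
    omega
  have e3 : ∀ b ∈ B e, algebraMap (ZMod p) F
      (μ e b * (((e : ZMod p) / 2) * ((b : ZMod p) / 2))) *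
      (eval ζ (QQ F C e b) * ((ζ ^ e + 1) * (ζ ^ b + 1))) =
      ((e : F) * (LL F C e).eval ζ / 2) * (algebraMap (ZMod p) F (μ e b * b) * ct (ζ ^ b)) := by
    intro b hb
    obtain ⟨h4, h5, h6⟩ := B_lt hb he
    have h7 := congrArg (eval ζ) (QQ_mul_LL F C e b h4 (by omega) h6)
    rw [eval_mul, eval_sub, eval_pow, eval_X, eval_one] at h7
    have h8 : ζ ^ b - 1 ≠ 0 := sub_ne_zero.2 (hζ.pow_ne_one_of_pos_of_lt (by omega) h5)
    rw [← h7, hζ.pow_eq_one]
    unfold ct
    rw [map_mul, map_mul, map_div₀, map_div₀, map_mul, map_natCast, map_natCast, map_ofNat]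
    field_simp
    ring
  rw [sum_congr rfl e3, ← mul_sum] at h1
  rcases mul_eq_zero.1 h1 with h4 | h4
  · exfalso
    exact (div_ne_zero (mul_ne_zero he0 hL) h2) h4
  · exact h4

end Pool.Agent.T9h59.SR
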