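import Mathlib
import Pool.Agent.T9h59.SR.Core

set_option autoImplicit false

namespace Pool.Agent.T9h59.SR

open Finset Polynomial Pool.Agent.H332R2

/-- independence modulo `p` of the cotangents at the primitive `e`-th roots of unity, for integral
coefficients less than `H` -/
def Good (p : ℕ) [Fact p.Prime] (e H : ℕ) : Prop :=
  ∀ l : ℕ → ℤ, (∀ b ∈ B e, |l b| < (H : ℤ)) →
    (∀ ζ : AlgebraicClosure (ZMod p), IsPrimitiveRoot ζ e →
      ∑ b ∈ B e, (l b : AlgebraicClosure (ZMod p)) * ct (ζ ^ b) = 0) → ∀ b ∈ B e, l b = 0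

/-- the numbers `s ≤ K` which are sums of two numbers `i` with `p ∤ B_{2 i}` -/
noncomputable def SS (p : ℕ) [Fact p.Prime] (K : ℕ) : Finset ℕ :=
  (range (K + 1)).filter (fun s => ∃ i, i ≤ s ∧ cc p (2 * i) ≠ 0 ∧ cc p (2 * (s - i)) ≠ 0)

theorem M_eq_zero {p : ℕ} [Fact p.Prime] {K s : ℕ} (hs : s ≤ K) (h : s ∉ SS p K) (e b : ℕ) :
    M p s e b = 0 := by
  unfold M
  apply sum_eq_zero
  intro i hi
  rw [mem_range] at hi
  unfold SS at h
  rw [mem_filter, mem_range] at h
  push Not at h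
  by_cases h1 : cc p (2 * i) = 0
  · rw [h1]; ring
  · rw [h (by omega) i (by omega) h1]; ring

theorem count (p : ℕ) [hp : Fact p.Prime] (K C : ℕ) (hK : 2 * K + 3 ≤ p)
    (hC : ∑ f ∈ Icc 1 C, Nat.totient f + 2 ≤ 2 * K) (hCp : C < p) (H : ℕ → ℕ)
    (hG : ∀ e ∈ Icc 3 C, Good p e (H e)) :
    ∏ e ∈ Icc 3 C, H e ^ #(B e) ≤ p ^ #(SS p K) := by
  classical
  set T : Finset (Σ _ : ℕ, ℕ) := (Icc 3 C).sigma (fun e => B e) with hT
  set L : Finset (T → ℕ) := Fintype.piFinset (fun x : T => range (H x.1.1)) with hL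
  have hcard : #L = ∏ e ∈ Icc 3 C, H e ^ #(B e) := by
    rw [hL, Fintype.card_piFinset]
    simp only [card_range]
    rw [Finset.prod_coe_sort T (fun x => H x.1), hT, Finset.prod_sigma]
    refine prod_congr rfl (fun e _ => ?_)
    exact prod_const (H e)
  set Psi : (T → ℕ) → (SS p K → ZMod p) := fun l s =>
    ∑ x : T, (l x : ZMod p) * ((x.1.1 : ZMod p) * (x.1.2 : ZMod p))⁻¹ * M p s.1 x.1.1 x.1.2 with hPsi
  have hinj : Set.InjOn Psi L := by
    intro l hl l' hl' heq
    rw [Finset.mem_coe, hL, Fintype.mem_piFinset] at hl hl'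
    -- the difference
    set d : ℕ → ℕ → ℤ := fun e b => if h : (⟨e, b⟩ : Σ _ : ℕ, ℕ) ∈ T then
      (l ⟨⟨e, b⟩, h⟩ : ℤ) - (l' ⟨⟨e, b⟩, h⟩ : ℤ) else 0 with hd
    have hdv : ∀ x : T, d x.1.1 x.1.2 = (l x : ℤ) - (l' x : ℤ) := by
      intro x
      rw [hd]
      simp only
      rw [dif_pos x.2]
    suffices hz : ∀ e ∈ Icc 3 C, ∀ b ∈ B e, d e b = 0 by
      funext x
      have hx : x.1 ∈ (Icc 3 C).sigma (fun e => B e) := x.2
      rw [mem_sigma] at hx
      have h1 := hz x.1.1 hx.1 x.1.2 hx.2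
      rw [hdv] at h1
      omega
    by_contra hcon
    push Not at hcon
    set W := (Icc 3 C).filter (fun e => ∃ b ∈ B e, d e b ≠ 0) with hW
    have hWne : W.Nonempty := by
      obtain ⟨e, he, b, hb, h⟩ := hcon
      exact ⟨e, by rw [hW, mem_filter]; exact ⟨he, b, hb, h⟩⟩
    set e := W.max' hWne with he
    have heW : e ∈ W := W.max'_mem hWne
    rw [hW, mem_filter, mem_Icc] at heW
    obtain ⟨⟨he3, heC⟩, b0, hb0, hne⟩ := heW
    have hmax : ∀ e' ∈ Icc 3 C, e < e' → ∀ b ∈ B e', d e' b = 0 := by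
      intro e' he' hlt b hb
      by_contra h
      have h1 : e' ∈ W := by rw [hW, mem_filter]; exact ⟨he', b, hb, h⟩
      have h2 := W.le_max' e' h1
      omega
    have hbound : ∀ b ∈ B e, |d e b| < (H e : ℤ) := by
      intro b hb
      have hmem : (⟨e, b⟩ : Σ _ : ℕ, ℕ) ∈ T := by
        rw [hT, mem_sigma, mem_Icc]; exact ⟨⟨he3, heC⟩, hb⟩
      have h1 := hl ⟨_, hmem⟩
      have h2 := hl' ⟨_, hmem⟩
      rw [mem_range] at h1 h2
      have h3 := hdv ⟨_, hmem⟩
      simp only at h1 h2 h3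
      rw [h3, abs_lt]
      constructor <;> omega
    apply hne
    refine hG e (by rw [mem_Icc]; exact ⟨he3, heC⟩) (d e) hbound ?_ b0 hb0
    intro ζ hζ
    have hcore := core (F := AlgebraicClosure (ZMod p)) K C e hK hC hCp he3 heC
      (fun e' b => (d e' b : ZMod p) * ((e' : ZMod p) * (b : ZMod p))⁻¹) ?_ ζ hζ
    · have he0 : (e : ZMod p) ≠ 0 := nat_ne_zero (by omega) (by omega)
      have e1 : ∀ b ∈ B e, algebraMap (ZMod p) (AlgebraicClosure (ZMod p))
          ((d e b : ZMod p) * ((e : ZMod p) * (b : ZMod p))⁻¹ * b) * ct (ζ ^ b) =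
          algebraMap (ZMod p) (AlgebraicClosure (ZMod p)) ((e : ZMod p)⁻¹) *
          ((d e b : AlgebraicClosure (ZMod p)) * ct (ζ ^ b)) := by
        intro b hb
        obtain ⟨h1, h2, h3⟩ := B_lt hb he3
        have hb0 : (b : ZMod p) ≠ 0 := nat_ne_zero (by omega) (by omega)
        have e2 : (d e b : ZMod p) * ((e : ZMod p) * (b : ZMod p))⁻¹ * b =
            (e : ZMod p)⁻¹ * (d e b : ZMod p) := by
          field_simp
        rw [e2, map_mul, map_intCast, mul_assoc]
      rw [sum_congr rfl e1, ← mul_sum] at hcore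
      rcases mul_eq_zero.1 hcore with h | h
      · exfalso
        rw [map_eq_zero_iff _ (algebraMap (ZMod p) (AlgebraicClosure (ZMod p))).injective] at h
        exact inv_ne_zero he0 h
      · exact h
    · intro s hs
      by_cases hsS : s ∈ SS p K
      · have h1 := congrFun heq ⟨s, hsS⟩
        rw [hPsi] at h1
        simp only at h1
        rw [← sub_eq_zero, ← Finset.sum_sub_distrib] at h1
        have e1 : ∀ x : T, (l x : ZMod p) * ((x.1.1 : ZMod p) * (x.1.2 : ZMod p))⁻¹ * M p s x.1.1 x.1.2 -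
            (l' x : ZMod p) * ((x.1.1 : ZMod p) * (x.1.2 : ZMod p))⁻¹ * M p s x.1.1 x.1.2 =
            (d x.1.1 x.1.2 : ZMod p) * ((x.1.1 : ZMod p) * (x.1.2 : ZMod p))⁻¹ * M p s x.1.1 x.1.2 := by
          intro x
          rw [hdv x]
          push_cast
          ring
        rw [Finset.sum_congr rfl (fun x _ => e1 x)] at h1
        rw [Finset.sum_coe_sort T (fun x => (d x.1 x.2 : ZMod p) *
          ((x.1 : ZMod p) * (x.2 : ZMod p))⁻¹ * M p s x.1 x.2), hT, Finset.sum_sigma] at h1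
        rw [← h1]
        refine Finset.sum_subset (Icc_subset_Icc_right heC) ?_
        intro e' he' hne'
        rw [mem_Icc] at he' hne'
        apply sum_eq_zero
        intro b hb
        rw [hmax e' (by rw [mem_Icc]; exact he') (by omega) b hb]
        simp
      · apply sum_eq_zero
        intro e' _
        apply sum_eq_zero
        intro b _
        rw [M_eq_zero hs hsS, mul_zero]
  have h1 := Finset.card_le_card_of_injOn Psi (s := L) (t := Finset.univ)
    (fun _ _ => Finset.mem_coe.2 (Finset.mem_univ _)) hinj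
  rw [hcard, Finset.card_univ, Fintype.card_fun, ZMod.card, Fintype.card_coe] at h1
  exact h1

end Pool.Agent.T9h59.SR
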