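import Mathlib
import Pool.Agent.T9h59.SR.Count
import Pool.Agent.T9h46.SR.Lift
import Pool.Agent.T9h85.SR.CotIndep

set_option autoImplicit false

namespace Pool.Agent.T9h59.SR

open Finset

theorem good_of (p : ℕ) [Fact p.Prime] (e : ℕ) (he : 3 ≤ e) (hep : e < p) (H : ℕ)
    (hH : ((H : ℝ) - 1) * (e * (1 + Real.log e)) < p) : Good p e H := by
  intro l hl h b hb
  have h1 := Pool.Agent.T9h46.SR.lift p e he hep ((H : ℝ) - 1) hH l (fun b hb => by
    have := hl b hb
    have h2 : |l b| ≤ (H : ℤ) - 1 := by omega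
    have h3 : ((|l b| : ℤ) : ℝ) ≤ (((H : ℤ) - 1 : ℤ) : ℝ) := by exact_mod_cast h2
    push_cast at h3
    exact h3) h
  have h2 := Pool.Agent.T9h85.SR.cot_indep e he (fun b => (l b : ℂ)) h1 b hb
  exact_mod_cast h2

/-- the bound for the coefficients -/
noncomputable def Hf (p e : ℕ) : ℕ := ⌈(p : ℝ) / (e * (1 + Real.log e))⌉₊

theorem pos_den (e : ℕ) (he : 1 ≤ e) : (0 : ℝ) < e * (1 + Real.log e) := by
  have h1 : (1 : ℝ) ≤ e := by exact_mod_cast he
  have h2 := Real.log_nonneg h1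
  positivity

theorem Hf_lt (p e : ℕ) (he : 1 ≤ e) : ((Hf p e : ℝ) - 1) * (e * (1 + Real.log e)) < p := by
  have h0 := pos_den e he
  have h1 : (Hf p e : ℝ) < (p : ℝ) / (e * (1 + Real.log e)) + 1 := by
    unfold Hf
    exact Nat.ceil_lt_add_one (by positivity)
  rw [← lt_div_iff₀ h0]
  linarith

theorem log_Hf (p e C : ℕ) (hp : 0 < p) (he : 1 ≤ e) (heC : e ≤ C) :
    Real.log p - Real.log (C * (1 + Real.log C)) ≤ Real.log (Hf p e) := by
  have h0 := pos_den e he
  have hp' : (0 : ℝ) < p := by exact_mod_cast hp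
  have h1 : (p : ℝ) / (e * (1 + Real.log e)) ≤ Hf p e := by
    unfold Hf
    exact Nat.le_ceil _
  have he1 : (1 : ℝ) ≤ e := by exact_mod_cast he
  have heC' : (e : ℝ) ≤ C := by exact_mod_cast heC
  have h2 : Real.log e ≤ Real.log C := Real.log_le_log (by linarith) heC'
  have h3 : (e : ℝ) * (1 + Real.log e) ≤ C * (1 + Real.log C) := by
    have := Real.log_nonneg he1
    apply mul_le_mul heC' (by linarith) (by linarith) (by linarith)
  have h4 := Real.log_le_log (by positivity) h1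
  rw [Real.log_div hp'.ne' h0.ne'] at h4
  have h5 := Real.log_le_log h0 h3
  linarith

theorem log_ineq (p : ℕ) [hp : Fact p.Prime] (K C : ℕ) (hK : 2 * K + 3 ≤ p)
    (hC : ∑ f ∈ Icc 1 C, Nat.totient f + 2 ≤ 2 * K) (hCp : C < p) :
    ((∑ e ∈ Icc 3 C, #(B e) : ℕ) : ℝ) * (Real.log p - Real.log (C * (1 + Real.log C))) ≤
      #(SS p K) * Real.log p := by
  have hp0 : 0 < p := hp.out.pos
  have h := count p K C hK hC hCp (Hf p) (fun e he => by
    rw [mem_Icc] at he
    exact good_of p e he.1 (by omega) _ (Hf_lt p e (by omega)))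
  have hpos : ∀ e ∈ Icc 3 C, 0 < Hf p e := by
    intro e he
    rw [mem_Icc] at he
    unfold Hf
    rw [Nat.ceil_pos]
    have := pos_den e (by omega)
    positivity
  have h1 : ((∏ e ∈ Icc 3 C, Hf p e ^ #(B e) : ℕ) : ℝ) ≤ ((p ^ #(SS p K) : ℕ) : ℝ) := by
    exact_mod_cast h
  push_cast at h1
  have h2 : (0 : ℝ) < ∏ e ∈ Icc 3 C, (Hf p e : ℝ) ^ #(B e) := by
    apply prod_pos
    intro e he
    have : (0 : ℝ) < Hf p e := by exact_mod_cast hpos e he
    positivity
  have h3 := Real.log_le_log h2 h1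
  rw [Real.log_pow, Real.log_prod (fun e he => by
    have : (0 : ℝ) < Hf p e := by exact_mod_cast hpos e he
    positivity)] at h3
  refine le_trans ?_ h3
  push_cast
  rw [sum_mul]
  refine sum_le_sum (fun e he => ?_)
  rw [Real.log_pow]
  rw [mem_Icc] at he
  exact mul_le_mul_of_nonneg_left (log_Hf p e C hp0 (by omega) he.2) (Nat.cast_nonneg _)

end Pool.Agent.T9h59.SR
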