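import Mathlib
import Pool.Agent.T9h59.SR.LogIneq

set_option autoImplicit false

namespace Pool.Agent.T9h59.SR

open Finset Filter

theorem exists_C (K : ℕ) (hK : 3 ≤ K) : ∃ C : ℕ, 3 ≤ C ∧
    ∑ f ∈ Icc 1 C, Nat.totient f + 2 ≤ 2 * K ∧ 2 * K ≤ ∑ f ∈ Icc 1 C, Nat.totient f + C + 1 := by
  classical
  have hex : ∃ C : ℕ, 2 * K < ∑ f ∈ Icc 1 C, Nat.totient f + 2 := by
    refine ⟨2 * K, ?_⟩
    have h1 : ∑ f ∈ Icc 1 (2 * K), 1 ≤ ∑ f ∈ Icc 1 (2 * K), Nat.totient f := by
      refine sum_le_sum (fun f hf => ?_)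
      rw [mem_Icc] at hf
      exact Nat.totient_pos.2 (by omega)
    rw [sum_const, Nat.card_Icc, smul_eq_mul, mul_one, Nat.add_sub_cancel] at h1
    omega
  set C' := Nat.find hex with hC'
  have h1 : 2 * K < ∑ f ∈ Icc 1 C', Nat.totient f + 2 := Nat.find_spec hex
  have h4 : ∀ m, m ≤ 3 → ∑ f ∈ Icc 1 m, Nat.totient f ≤ 4 := by
    intro m hm
    interval_cases m <;> decide
  have h2 : 4 ≤ C' := by
    by_contra h
    have := h4 C' (by omega)
    omega
  obtain ⟨C, hC⟩ : ∃ C, C' = C + 1 := ⟨C' - 1, by omega⟩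
  have h3 : ¬ 2 * K < ∑ f ∈ Icc 1 C, Nat.totient f + 2 := Nat.find_min hex (by omega)
  refine ⟨C, by omega, by omega, ?_⟩
  have e1 : Icc 1 (C + 1) = insert (C + 1) (Icc 1 C) := by
    ext f
    rw [mem_insert, mem_Icc, mem_Icc]
    omega
  rw [hC, e1, sum_insert (by rw [mem_Icc]; omega)] at h1
  have h5 : Nat.totient (C + 1) < C + 1 := Nat.totient_lt _ (by omega)
  omega

theorem growth (ε : ℝ) (hε : 0 < ε) : ∀ᶠ K : ℕ in atTop,
    2 * Real.sqrt K + 3 / 2 ≤ ε * K ∧
    Real.log 4 + Real.log (1 + Real.log 4 + Real.log K / 2) ≤ ε * Real.log K ∧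
    Real.log 4 + Real.log (1 + Real.log 4 + Real.log K / 2) ≤ Real.log K / 2 ∧ 2 ≤ ε * K := by
  have h1 : ∀ᶠ x : ℝ in atTop, 2 * Real.sqrt x + 3 / 2 ≤ ε * x := by
    filter_upwards [eventually_ge_atTop (max ((4 / ε) ^ 2) (3 / ε))] with x hx
    have hx1 := (le_max_left _ _).trans hx
    have hx2 := (le_max_right _ _).trans hx
    have hx0 : 0 ≤ x := le_trans (sq_nonneg _) hx1
    have h2 : 4 / ε ≤ Real.sqrt x := Real.le_sqrt_of_sq_le hx1
    rw [div_le_iff₀ hε] at h2 hx2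
    have h3 := Real.sq_sqrt hx0
    have h4 := Real.sqrt_nonneg x
    nlinarith
  have h2 : ∀ᶠ x : ℝ in atTop, ∀ δ : ℝ, δ = min ε (1 / 2) →
      Real.log 4 + Real.log (1 + Real.log 4 + x / 2) ≤ δ * x := by
    set δ := min ε (1 / 2) with hδ
    have hδ0 : 0 < δ := lt_min hε (by norm_num)
    have h3 := Real.isLittleO_log_id_atTop.def (c := δ) hδ0
    have h4 : Tendsto (fun x : ℝ => 1 + Real.log 4 + x / 2) atTop atTop := by
      apply tendsto_atTop_add_const_left
      exact tendsto_id.atTop_div_const (by norm_num)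
    have h5 := h4.eventually h3
    filter_upwards [h5, eventually_ge_atTop (max 0 (2 * (Real.log 4 + δ * (1 + Real.log 4)) / δ))]
      with x hx5 hx
    intro δ' hδ'
    rw [hδ']
    have hx0 := (le_max_left _ _).trans hx
    have hx1 := (le_max_right _ _).trans hx
    rw [div_le_iff₀ hδ0] at hx1
    have h4p : 0 ≤ Real.log 4 := Real.log_nonneg (by norm_num)
    simp only [id, Real.norm_eq_abs] at hx5
    rw [abs_of_nonneg (by linarith : (0 : ℝ) ≤ 1 + Real.log 4 + x / 2)] at hx5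
    have h6 := (le_abs_self _).trans hx5
    nlinarith
  have hlog : Tendsto (fun K : ℕ => Real.log (K : ℝ)) atTop atTop :=
    Real.tendsto_log_atTop.comp tendsto_natCast_atTop_atTop
  have hnat : Tendsto (fun K : ℕ => (K : ℝ)) atTop atTop := tendsto_natCast_atTop_atTop
  filter_upwards [hnat.eventually h1, hlog.eventually h2, hnat.eventually (eventually_ge_atTop (2 / ε)),
    hlog.eventually (eventually_ge_atTop 0)] with K k1 k2 k3 k4
  have k5 := k2 _ rfl
  refine ⟨k1, k5.trans ?_, k5.trans ?_, ?_⟩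
  · exact mul_le_mul_of_nonneg_right (min_le_left _ _) k4
  · calc min ε (1 / 2) * Real.log K ≤ (1 / 2) * Real.log K :=
        mul_le_mul_of_nonneg_right (min_le_right _ _) k4
      _ = Real.log K / 2 := by ring
  · rw [div_le_iff₀ hε] at k3
    linarith

/-- **Positive proportion**: at least `(1 - log K / (2 log p) - ε) K` elements of `SS`. -/
theorem SS_ge (hB : ∀ e : ℕ, 3 ≤ e → 2 * #(B e) = Nat.totient e)
    (hT : ∀ C : ℕ, C ^ 2 ≤ 8 * ∑ f ∈ Icc 1 C, Nat.totient f) (ε : ℝ) (hε : 0 < ε) :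
    ∃ K₀ : ℕ, ∀ (p : ℕ) [Fact p.Prime] (K : ℕ), K₀ ≤ K → 2 * K + 3 ≤ p →
      (1 - Real.log K / (2 * Real.log p) - ε) * K ≤ #(SS p K) - 2 := by
  obtain ⟨K₁, hK₁⟩ := eventually_atTop.1 (growth (ε / 3) (by positivity))
  refine ⟨max K₁ 3, fun p _ K hK hKp => ?_⟩
  have hK3 : 3 ≤ K := (le_max_right _ _).trans hK
  obtain ⟨g1, g2, g3, g4⟩ := hK₁ K ((le_max_left _ _).trans hK)
  obtain ⟨C, hC3, hC1, hC2⟩ := exists_C K hK3
  set Φ := ∑ f ∈ Icc 1 C, Nat.totient f with hΦ
  have hK0 : (0 : ℝ) < K := by exact_mod_cast (by omega : 0 < K)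
  -- the size of `C`
  have hC4 : (C : ℝ) ≤ 4 * Real.sqrt K := by
    have h1 : C ^ 2 ≤ 16 * K := by
      have := hT C
      rw [← hΦ] at this
      omega
    have h2 : (C : ℝ) ^ 2 ≤ 16 * K := by exact_mod_cast h1
    have h3 : (C : ℝ) ≤ Real.sqrt (16 * K) := Real.le_sqrt_of_sq_le h2
    rw [Real.sqrt_mul (by norm_num)] at h3
    have h4 : Real.sqrt 16 = 4 := by
      rw [show (16 : ℝ) = 4 ^ 2 by norm_num, Real.sqrt_sq (by norm_num)]
    rwa [h4] at h3
  have hsq := Real.sq_sqrt hK0.le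
  have hsq0 := Real.sqrt_nonneg (K : ℝ)
  have hCp : C < p := by
    have h1 : (C : ℝ) ≤ K + 4 := by nlinarith [sq_nonneg (Real.sqrt K - 2)]
    have h2 : C ≤ K + 4 := by exact_mod_cast h1
    omega
  have hlog := log_ineq p K C hKp hC1 hCp
  -- the logarithms
  set L := Real.log p with hL
  set l := Real.log K with hl
  have hlK : 0 ≤ l := Real.log_nonneg (by exact_mod_cast (by omega : 1 ≤ K))
  have hKp' : (K : ℝ) ≤ p := by exact_mod_cast (by omega : K ≤ p)
  have hlL : l ≤ L := Real.log_le_log hK0 hKp'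
  have hl0 : 0 < l := Real.log_pos (by exact_mod_cast (by omega : 1 < K))
  have hL0 : 0 < L := lt_of_lt_of_le hl0 hlL
  have hC0 : (0 : ℝ) < C := by exact_mod_cast (by omega : 0 < C)
  have hCone : (1 : ℝ) ≤ C := by exact_mod_cast (by omega : 1 ≤ C)
  have hlC : Real.log C ≤ Real.log 4 + l / 2 := by
    have h1 := Real.log_le_log hC0 hC4
    rw [Real.log_mul (by norm_num) (Real.sqrt_pos.2 hK0).ne', Real.log_sqrt hK0.le] at h1
    exact h1
  have h4p : 0 ≤ Real.log 4 := Real.log_nonneg (by norm_num)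
  have hlC0 : 0 ≤ Real.log C := Real.log_nonneg hCone
  have hg : Real.log (C * (1 + Real.log C)) ≤ l / 2 +
      (Real.log 4 + Real.log (1 + Real.log 4 + l / 2)) := by
    rw [Real.log_mul hC0.ne' (by positivity)]
    have h1 : Real.log (1 + Real.log C) ≤ Real.log (1 + Real.log 4 + l / 2) :=
      Real.log_le_log (by positivity) (by linarith)
    linarith
  -- the number of the `b`
  have hsum : (2 : ℝ) * ((∑ e ∈ Icc 3 C, #(B e) : ℕ) : ℝ) = (Φ : ℝ) - 2 := by
    have h1 : 2 * ∑ e ∈ Icc 3 C, #(B e) + 2 = Φ := by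
      rw [mul_sum, sum_congr rfl (fun e he => hB e (mem_Icc.1 he).1), hΦ]
      have e1 : Icc 1 C = insert 1 (insert 2 (Icc 3 C)) := by
        ext f
        rw [mem_insert, mem_insert, mem_Icc, mem_Icc]
        omega
      rw [e1, sum_insert (by rw [mem_insert, mem_Icc]; omega), sum_insert (by rw [mem_Icc]; omega)]
      have e2 : Nat.totient 2 = 1 := by decide
      rw [Nat.totient_one, e2]
      ring
    have h2 : ((2 * ∑ e ∈ Icc 3 C, #(B e) + 2 : ℕ) : ℝ) = (Φ : ℝ) := by exact_mod_cast h1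
    push_cast at h2 ⊢
    linarith
  have hΦ2 : (2 : ℝ) * K ≤ Φ + C + 1 := by exact_mod_cast hC2
  set n := ((∑ e ∈ Icc 3 C, #(B e) : ℕ) : ℝ) with hn
  have hn1 : K - 2 * Real.sqrt K - 3 / 2 ≤ n := by linarith
  have hn2 : (1 - ε / 3) * K ≤ n := by linarith
  -- conclusion
  set G := Real.log 4 + Real.log (1 + Real.log 4 + l / 2) with hG
  have hfac : 0 ≤ L - Real.log (C * (1 + Real.log C)) := by linarith
  have h5 : L - l / 2 - ε / 3 * L ≤ L - Real.log (C * (1 + Real.log C)) := by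
    have : ε / 3 * l ≤ ε / 3 * L := mul_le_mul_of_nonneg_left hlL (by positivity)
    linarith
  have h6 : (1 - ε / 3) * K * (L - Real.log (C * (1 + Real.log C))) ≤ #(SS p K) * L :=
    (mul_le_mul_of_nonneg_right hn2 hfac).trans hlog
  have h7 : K * (L - l / 2 - ε / 3 * L - ε / 3 * L) ≤
      (1 - ε / 3) * K * (L - Real.log (C * (1 + Real.log C))) := by
    set v := L - Real.log (C * (1 + Real.log C)) with hv
    have hCl : 0 ≤ Real.log (C * (1 + Real.log C)) := by
      apply Real.log_nonneg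
      nlinarith
    have hvL : v ≤ L := by rw [hv]; linarith
    have e1 : (1 - ε / 3) * K * v = K * (v - ε / 3 * v) := by ring
    rw [e1]
    apply mul_le_mul_of_nonneg_left _ hK0.le
    have : ε / 3 * v ≤ ε / 3 * L := mul_le_mul_of_nonneg_left hvL (by positivity)
    linarith
  have h8 : K * (L - l / 2 - ε / 3 * L - ε / 3 * L) ≤ #(SS p K) * L := h7.trans h6
  have e2 : K * (L - l / 2 - ε / 3 * L - ε / 3 * L) =
      (1 - l / (2 * L) - ε / 3 - ε / 3) * K * L := by
    field_simp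
  rw [e2] at h8
  have h9 := le_of_mul_le_mul_right h8 hL0
  linarith

end Pool.Agent.T9h59.SR
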