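import Mathlib
import Pool.Agent.T9h59.SR.Count

set_option autoImplicit false

namespace Pool.Agent.T9h59.SR

open Finset Polynomial Pool.Agent.H332R2

/-- the relations modulo `p` between the cotangents at the primitive `e`-th roots of unity -/
noncomputable def Ker (p : ℕ) [Fact p.Prime] (e : ℕ) : Submodule (ZMod p) (B e → ZMod p) where
  carrier := {l | ∀ ζ : AlgebraicClosure (ZMod p), IsPrimitiveRoot ζ e →
      ∑ b : B e, algebraMap (ZMod p) (AlgebraicClosure (ZMod p)) (l b) * ct (ζ ^ (b : ℕ)) = 0}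
  add_mem' := by
    intro x y hx hy ζ hζ
    have h1 := hx ζ hζ
    have h2 := hy ζ hζ
    simp only [Pi.add_apply, map_add, add_mul, sum_add_distrib]
    rw [h1, h2, add_zero]
  zero_mem' := by
    intro ζ _
    simp
  smul_mem' := by
    intro c x hx ζ hζ
    have h1 := hx ζ hζ
    simp only [Pi.smul_apply, smul_eq_mul, map_mul, mul_assoc]
    rw [← mul_sum, h1, mul_zero]

/-- the indices -/
def TI (C : ℕ) : Finset (Σ _ : ℕ, ℕ) := (Icc 3 C).sigma (fun e => B e)

theorem mem_TI {C : ℕ} {x : Σ _ : ℕ, ℕ} : x ∈ TI C ↔ (3 ≤ x.1 ∧ x.1 ≤ C) ∧ x.2 ∈ B x.1 := by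
  unfold TI
  rw [mem_sigma, mem_Icc]

/-- the combinations which vanish, with zero coefficients beyond `e` -/
noncomputable def WW (p : ℕ) [Fact p.Prime] (K C e : ℕ) : Submodule (ZMod p) (TI C → ZMod p) where
  carrier := {l | (∀ s : SS p K, ∑ x : TI C, l x * ((x.1.1 : ZMod p) * (x.1.2 : ZMod p))⁻¹ *
    M p s.1 x.1.1 x.1.2 = 0) ∧ ∀ x : TI C, e < x.1.1 → l x = 0}
  add_mem' := by
    intro x y hx hy
    refine ⟨fun s => ?_, fun z hz => ?_⟩
    · simp only [Pi.add_apply, add_mul, sum_add_distrib]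
      rw [hx.1 s, hy.1 s, add_zero]
    · rw [Pi.add_apply, hx.2 z hz, hy.2 z hz, add_zero]
  zero_mem' := by
    refine ⟨fun s => ?_, fun z hz => rfl⟩
    simp
  smul_mem' := by
    intro c x hx
    refine ⟨fun s => ?_, fun z hz => ?_⟩
    · simp only [Pi.smul_apply, smul_eq_mul, mul_assoc]
      rw [← mul_sum]
      have h := hx.1 s
      simp only [mul_assoc] at h
      rw [h, mul_zero]
    · rw [Pi.smul_apply, hx.2 z hz, smul_zero]

theorem mem_TI_of {C e : ℕ} (h3 : 3 ≤ e) (hC : e ≤ C) (b : B e) :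
    (⟨e, (b : ℕ)⟩ : Σ _ : ℕ, ℕ) ∈ TI C := mem_TI.2 ⟨⟨h3, hC⟩, b.2⟩

theorem top_mem {p : ℕ} [hp : Fact p.Prime] {K C e : ℕ} (hK : 2 * K + 3 ≤ p)
    (hC : ∑ f ∈ Icc 1 C, Nat.totient f + 2 ≤ 2 * K) (hCp : C < p) (he3 : 3 ≤ e) (heC : e ≤ C)
    {l : TI C → ZMod p} (hl : l ∈ WW p K C e) :
    (fun b : B e => l ⟨⟨e, b⟩, mem_TI_of he3 heC b⟩) ∈ Ker p e := by
  classical
  intro ζ hζ
  set d : ℕ → ℕ → ZMod p := fun e b => if h : (⟨e, b⟩ : Σ _ : ℕ, ℕ) ∈ TI C then
      l ⟨⟨e, b⟩, h⟩ else 0 with hd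
  have hdv : ∀ x : TI C, d x.1.1 x.1.2 = l x := by
    intro x
    rw [hd]
    simp only
    rw [dif_pos x.2]
  have hcore := core (F := AlgebraicClosure (ZMod p)) K C e hK hC hCp he3 heC
      (fun e' b => (d e' b) * ((e' : ZMod p) * (b : ZMod p))⁻¹) ?_ ζ hζ
  · have he0 : (e : ZMod p) ≠ 0 := nat_ne_zero (by omega) (by omega)
    have e1 : ∀ b ∈ B e, algebraMap (ZMod p) (AlgebraicClosure (ZMod p))
        ((d e b) * ((e : ZMod p) * (b : ZMod p))⁻¹ * b) * ct (ζ ^ b) =
        algebraMap (ZMod p) (AlgebraicClosure (ZMod p)) ((e : ZMod p)⁻¹) *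
        (algebraMap (ZMod p) (AlgebraicClosure (ZMod p)) (d e b) * ct (ζ ^ b)) := by
      intro b hb
      obtain ⟨h1, h2, h3⟩ := B_lt hb he3
      have hb0 : (b : ZMod p) ≠ 0 := nat_ne_zero (by omega) (by omega)
      have e2 : (d e b) * ((e : ZMod p) * (b : ZMod p))⁻¹ * b =
          (e : ZMod p)⁻¹ * (d e b) := by
        field_simp
      rw [e2, map_mul, mul_assoc]
    rw [sum_congr rfl e1, ← mul_sum] at hcore
    rcases mul_eq_zero.1 hcore with h | h
    · exfalso
      rw [map_eq_zero_iff _ (algebraMap (ZMod p) (AlgebraicClosure (ZMod p))).injective] at h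
      exact inv_ne_zero he0 h
    · rw [← h, ← Finset.sum_coe_sort (B e)]
      refine sum_congr rfl (fun b _ => ?_)
      have := hdv ⟨⟨e, b⟩, mem_TI_of he3 heC b⟩
      simp only at this
      rw [this]
  · intro s hs
    by_cases hsS : s ∈ SS p K
    · have h1 := hl.1 ⟨s, hsS⟩
      simp only at h1
      rw [Finset.sum_congr rfl (fun x _ => by rw [← hdv x])] at h1
      rw [Finset.sum_coe_sort (TI C) (fun x => d x.1 x.2 *
        ((x.1 : ZMod p) * (x.2 : ZMod p))⁻¹ * M p s x.1 x.2), TI, Finset.sum_sigma] at h1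
      rw [← h1]
      refine Finset.sum_subset (Icc_subset_Icc_right heC) ?_
      intro e' he' hne'
      rw [mem_Icc] at he' hne'
      apply sum_eq_zero
      intro b hb
      have hmem : (⟨e', b⟩ : Σ _ : ℕ, ℕ) ∈ TI C := mem_TI.2 ⟨he', hb⟩
      have h2 := hdv ⟨_, hmem⟩
      simp only at h2
      rw [h2, hl.2 ⟨_, hmem⟩ (by simp only; omega)]
      simp
    · apply sum_eq_zero
      intro e' _
      apply sum_eq_zero
      intro b _
      rw [M_eq_zero hs hsS, mul_zero]

theorem finrank_WW {p : ℕ} [hp : Fact p.Prime] {K C : ℕ} (hK : 2 * K + 3 ≤ p)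
    (hC : ∑ f ∈ Icc 1 C, Nat.totient f + 2 ≤ 2 * K) (hCp : C < p) (e : ℕ) (he2 : 2 ≤ e) (heC : e ≤ C) :
    Module.finrank (ZMod p) (WW p K C e) ≤ ∑ f ∈ Icc 3 e, Module.finrank (ZMod p) (Ker p f) := by
  induction e, he2 using Nat.le_induction with
  | base =>
    have h : WW p K C 2 = ⊥ := by
      rw [eq_bot_iff]
      intro l hl
      rw [Submodule.mem_bot]
      funext x
      have := (mem_TI.1 x.2).1.1
      exact hl.2 x (by omega)
    rw [h, finrank_bot]
    exact Nat.zero_le _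
  | succ e he2 ih =>
    have ih := ih (by omega)
    have e1 : Icc 3 (e + 1) = insert (e + 1) (Icc 3 e) := by
      ext f
      rw [mem_insert, mem_Icc, mem_Icc]
      omega
    rw [e1, sum_insert (by rw [mem_Icc]; omega)]
    let π : WW p K C (e + 1) →ₗ[ZMod p] Ker p (e + 1) :=
      { toFun := fun l => ⟨fun b : B (e + 1) => l.1 ⟨⟨e + 1, b⟩, mem_TI_of (by omega) heC b⟩,
          top_mem hK hC hCp (by omega) heC l.2⟩
        map_add' := fun x y => rfl
        map_smul' := fun c x => rfl }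
    have h1 := LinearMap.finrank_range_add_finrank_ker π
    have h2 : Module.finrank (ZMod p) (LinearMap.range π) ≤ Module.finrank (ZMod p) (Ker p (e + 1)) :=
      Submodule.finrank_le _
    have h3 : Module.finrank (ZMod p) (LinearMap.ker π) ≤ Module.finrank (ZMod p) (WW p K C e) := by
      let g : LinearMap.ker π →ₗ[ZMod p] WW p K C e :=
        { toFun := fun l => ⟨l.1.1, ⟨l.1.2.1, fun x hx => by
            rcases Nat.lt_or_ge (e + 1) x.1.1 with h | h
            · exact l.1.2.2 x h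
            · have h4 := congrArg Subtype.val (LinearMap.mem_ker.1 l.2)
              have h5 := mem_TI.1 x.2
              obtain ⟨⟨f, b⟩, hx'⟩ := x
              simp only at hx h h5
              have h6 : f = e + 1 := by omega
              subst h6
              exact congrFun h4 ⟨b, h5.2⟩⟩⟩
          map_add' := fun x y => rfl
          map_smul' := fun c x => rfl }
      refine LinearMap.finrank_le_finrank_of_injective (f := g) ?_
      intro x y hxy
      have := congrArg Subtype.val hxy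
      exact Subtype.ext (Subtype.ext this)
    omega

/-- **The count**: `p ^ (∑ #(B e)) ≤ (∏ #(Ker e)) * p ^ #SS` -/
theorem count2 (p : ℕ) [hp : Fact p.Prime] (K C : ℕ) (hK : 2 * K + 3 ≤ p)
    (hC : ∑ f ∈ Icc 1 C, Nat.totient f + 2 ≤ 2 * K) (hCp : C < p) (hC2 : 2 ≤ C) :
    ∑ e ∈ Icc 3 C, #(B e) ≤ ∑ e ∈ Icc 3 C, Module.finrank (ZMod p) (Ker p e) + #(SS p K) := by
  classical
  let Ψ : (TI C → ZMod p) →ₗ[ZMod p] (SS p K → ZMod p) :=
    { toFun := fun l s => ∑ x : TI C, l x * ((x.1.1 : ZMod p) * (x.1.2 : ZMod p))⁻¹ *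
        M p s.1 x.1.1 x.1.2
      map_add' := fun x y => by
        funext s
        simp only [Pi.add_apply, add_mul, sum_add_distrib]
      map_smul' := fun c x => by
        funext s
        simp only [Pi.smul_apply, smul_eq_mul, mul_assoc, RingHom.id_apply, mul_sum] }
  have h1 := LinearMap.finrank_range_add_finrank_ker Ψ
  have h2 : Module.finrank (ZMod p) (LinearMap.range Ψ) ≤ #(SS p K) := by
    refine (Submodule.finrank_le _).trans (le_of_eq ?_)
    rw [Module.finrank_fintype_fun_eq_card, Fintype.card_coe]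
  have h3 : Module.finrank (ZMod p) (LinearMap.ker Ψ) ≤
      ∑ e ∈ Icc 3 C, Module.finrank (ZMod p) (Ker p e) := by
    refine le_trans (le_of_eq ?_) (finrank_WW hK hC hCp C hC2 le_rfl)
    have : LinearMap.ker Ψ = WW p K C C := by
      ext l
      rw [LinearMap.mem_ker]
      constructor
      · intro h
        refine ⟨fun s => congrFun h s, fun x hx => ?_⟩
        have := (mem_TI.1 x.2).1.2
        omega
      · intro h
        funext s
        exact h.1 s
    rw [this]
  rw [Module.finrank_fintype_fun_eq_card, Fintype.card_coe] at h1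
  have h4 : #(TI C) = ∑ e ∈ Icc 3 C, #(B e) := by
    unfold TI
    rw [card_sigma]
  omega

end Pool.Agent.T9h59.SR
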