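import Mathlib
import Pool.Agent.T9h59.SR.Defs

/-!
Definitions for the strong form: integer vectors in `Z[C_e]` whose values at the primitive `e`-th roots
of unity are the cotangents (`e` even) or tangents (`e` odd), and the generators of the ideal of
the vectors which vanish there.
-/

set_option autoImplicit false

namespace Pool.Agent.T9h59.SR

open Finset

/-- `(z - 1) / (z + 1)`; for `z = exp (2 i x)` this is `i tan x` -/
def tn {F : Type*} [Field F] (z : F) : F := (z - 1) / (z + 1)

/-- the function `ct` for even `e`, `tn` for odd `e` -/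
noncomputable def cn {F : Type*} [Field F] (e : ℕ) (z : F) : F := if Even e then ct z else tn z

/-- the coefficients of `ct z` or `tn z`, `z` a primitive `e`-th root of unity, in the powers of `z` -/
def co (e i : ℕ) : ℤ :=
  if Even e then (if 1 ≤ i ∧ i < e / 2 then -1 else 0)
  else (if 1 ≤ i ∧ i < e then (if Even i then -1 else 1) else 0)

/-- the vector of `cn e (z ^ b)` -/
def TT (e b : ℕ) (j : Fin e) : ℤ := ∑ i ∈ range e, if b * i % e = (j : ℕ) then co e i else 0

/-- the indicator function of the class of `x.2` modulo `e / x.1` -/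
def GG (e : ℕ) (x : ℕ × ℕ) (j : Fin e) : ℤ := if (j : ℕ) % (e / x.1) = x.2 then 1 else 0

/-- the indices: primes `x.1` dividing `e` and classes modulo `e / x.1` -/
def GI (e : ℕ) : Finset (ℕ × ℕ) := (e.primeFactors ×ˢ range e).filter (fun x => x.2 < e / x.1)

/-- the value at `z` -/
def ev {F : Type*} [Field F] {e : ℕ} (f : Fin e → F) (z : F) : F := ∑ j : Fin e, f j * z ^ (j : ℕ)

end Pool.Agent.T9h59.SR
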