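import Mathlib
import Pool.Agent.T9h59.SR.Had

set_option autoImplicit false

namespace Pool.Agent.T9h59.SR

open Finset

/-- (P1) kernel modulo `p` of an integer matrix with independent rows -/
def StP1 : Prop := ∀ (p : ℕ) [Fact p.Prime] (ι κ : Type) [Fintype ι] [DecidableEq ι] [Fintype κ] [DecidableEq κ]
    (A : ι → κ → ℤ), LinearIndependent ℚ (fun i : ι => fun j : κ => (A i j : ℚ)) →
    ((Finset.univ.filter (fun x : ι → ZMod p => ∀ j, ∑ i, x i * (A i j : ZMod p) = 0)).card : ℝ) ≤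
      ∏ i, Real.sqrt (∑ j, (A i j : ℝ) ^ 2)

/-- (P2) the rank of the generators of the ideal is at least `e - φ (e)` -/
def StP2 : Prop := ∀ e : ℕ, 1 ≤ e → ∃ s : Finset (ℕ × ℕ), s ⊆ GI e ∧ e ≤ #s + Nat.totient e ∧
    LinearIndependent ℂ (fun x : s => fun j : Fin e => ((GG e x.1 j : ℤ) : ℂ))

/-- (P3a) -/
def StP3a : Prop := ∀ (e b : ℕ) (F : Type) [Field F] (ζ : F), 3 ≤ e → Nat.Coprime b e → (2 : F) ≠ 0 →
    IsPrimitiveRoot ζ e → ev (fun j : Fin e => ((TT e b j : ℤ) : F)) ζ = cn e (ζ ^ b)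

/-- (P3b) -/
def StP3b : Prop := ∀ (e b : ℕ), 1 ≤ e → Nat.Coprime b e → ∑ j : Fin e, ((TT e b j : ℤ) : ℝ) ^ 2 ≤ e

/-- (P3c) -/
def StP3c : Prop := ∀ (e : ℕ) (x : ℕ × ℕ), x ∈ GI e → ∑ j : Fin e, ((GG e x j : ℤ) : ℝ) ^ 2 = x.1

/-- (P3d) -/
def StP3d : Prop := ∀ (e : ℕ) (x : ℕ × ℕ) (F : Type) [Field F] (ζ : F), x ∈ GI e →
    IsPrimitiveRoot ζ e → ev (fun j : Fin e => ((GG e x j : ℤ) : F)) ζ = 0

/-- (P4) for odd `e` the cotangents have at least the rank of the tangents, modulo `p` -/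
def StP4 : Prop := ∀ (p : ℕ) [Fact p.Prime] (e : ℕ), 3 ≤ e → Odd e → 3 ≤ p →
    Nat.card {l : B e → ZMod p // ∀ ζ : AlgebraicClosure (ZMod p), IsPrimitiveRoot ζ e →
      ∑ b : B e, algebraMap (ZMod p) (AlgebraicClosure (ZMod p)) (l b) * ct (ζ ^ (b : ℕ)) = 0} ≤
    Nat.card {l : B e → ZMod p // ∀ ζ : AlgebraicClosure (ZMod p), IsPrimitiveRoot ζ e →
      ∑ b : B e, algebraMap (ZMod p) (AlgebraicClosure (ZMod p)) (l b) * tn (ζ ^ (b : ℕ)) = 0}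

/-- (P5) for odd `e` the tangents are independent over `ℂ` (`cot_indep` of helper85 is the same
for the cotangents, all `e ≥ 3`; use it for `2 e`: `tn (ζ ^ c) = ct ((-ζ) ^ c)` for odd `c`) -/
def StP5 : Prop := ∀ (e : ℕ), 3 ≤ e → Odd e → ∀ l : ℕ → ℂ,
    (∀ ζ : ℂ, IsPrimitiveRoot ζ e → ∑ b ∈ B e, l b * tn (ζ ^ b) = 0) → ∀ b ∈ B e, l b = 0

/-- (P6) -/
def StP6 : Prop := ∀ (p : ℕ) [Fact p.Prime] (e : ℕ), 1 ≤ e → e < p →
    Nat.card {f : Fin e → ZMod p // ∀ ζ : AlgebraicClosure (ZMod p), IsPrimitiveRoot ζ e →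
      ev (fun j => algebraMap (ZMod p) (AlgebraicClosure (ZMod p)) (f j)) ζ = 0} ≤ p ^ (e - Nat.totient e)

/-- (P7) the loss at the level `e`; from all the others -/
def StP7 : Prop := ∀ (p : ℕ) [Fact p.Prime] (e : ℕ), 3 ≤ e → e < p → 
    (Nat.card {l : B e → ZMod p // ∀ ζ : AlgebraicClosure (ZMod p), IsPrimitiveRoot ζ e →
      ∑ b : B e, algebraMap (ZMod p) (AlgebraicClosure (ZMod p)) (l b) * ct (ζ ^ (b : ℕ)) = 0} : ℝ) ≤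
      Real.sqrt e ^ #(B e) * ∏ ℓ ∈ e.primeFactors, Real.sqrt ℓ ^ (e / ℓ)

/-- (P9) a sum over primes and multiples -/
def StP9 : Prop := ∃ A : ℝ, ∀ C : ℕ, ∑ e ∈ Icc 3 C, ∑ ℓ ∈ e.primeFactors,
    ((e / ℓ : ℕ) : ℝ) * Real.log ℓ / 2 ≤ A * (C : ℝ) ^ 2

end Pool.Agent.T9h59.SR
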