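import Mathlib
import Pool.Agent.T9h59.SR.Spec3
import Pool.Agent.T9h59.SR.Count2
import Pool.Agent.T9h85.SR.CotIndep

set_option autoImplicit false

namespace Pool.Agent.T9h59.SR

open Finset

theorem ev_add {F : Type*} [Field F] {e : ℕ} (f g : Fin e → F) (z : F) :
    ev (fun j => f j + g j) z = ev f z + ev g z := by
  unfold ev
  rw [← sum_add_distrib]
  exact sum_congr rfl (fun j _ => by ring)

theorem ev_sum {F : Type*} [Field F] {e : ℕ} {ι : Type*} (s : Finset ι) (c : ι → F)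
    (f : ι → Fin e → F) (z : F) :
    ev (fun j => ∑ i ∈ s, c i * f i j) z = ∑ i ∈ s, c i * ev (f i) z := by
  unfold ev
  simp only [sum_mul, mul_sum]
  rw [sum_comm]
  exact sum_congr rfl (fun i _ => sum_congr rfl (fun j _ => by ring))

/-- the rows -/
def AA (e : ℕ) (s : Finset (ℕ × ℕ)) : (B e ⊕ s) → Fin e → ℤ :=
  Sum.elim (fun b => TT e (b : ℕ)) (fun x => GG e (x : ℕ × ℕ))

theorem cn_indep (h5 : StP5) (e : ℕ) (he : 3 ≤ e) (l : ℕ → ℂ)
    (h : ∀ ζ : ℂ, IsPrimitiveRoot ζ e → ∑ b ∈ B e, l b * cn e (ζ ^ b) = 0) : ∀ b ∈ B e, l b = 0 := by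
  rcases Nat.even_or_odd e with hev | hodd
  · refine Pool.Agent.T9h85.SR.cot_indep e he l (fun ζ hζ => ?_)
    have := h ζ hζ
    simp only [cn, if_pos hev] at this
    exact this
  · refine h5 e he hodd l (fun ζ hζ => ?_)
    have := h ζ hζ
    simp only [cn, if_neg (Nat.not_even_iff_odd.2 hodd)] at this
    exact this

theorem AA_indep (h3a : StP3a) (h3d : StP3d) (h5 : StP5) (e : ℕ) (he : 3 ≤ e) (s : Finset (ℕ × ℕ))
    (hs : s ⊆ GI e) (hind : LinearIndependent ℂ (fun x : s => fun j : Fin e => ((GG e x.1 j : ℤ) : ℂ))) :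
    LinearIndependent ℚ (fun i : B e ⊕ s => fun j : Fin e => (AA e s i j : ℚ)) := by
  classical
  rw [Fintype.linearIndependent_iff]
  intro g hg
  rw [Fintype.linearIndependent_iff] at hind
  -- over the complex numbers
  have h0 : ∀ j : Fin e, ∑ b : B e, (g (Sum.inl b) : ℂ) * ((TT e b j : ℤ) : ℂ) +
      ∑ x : s, (g (Sum.inr x) : ℂ) * ((GG e x.1 j : ℤ) : ℂ) = 0 := by
    intro j
    have h1 := congrFun hg j
    rw [Finset.sum_apply] at h1
    simp only [Pi.smul_apply, smul_eq_mul, Pi.zero_apply] at h1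
    rw [Fintype.sum_sum_type] at h1
    have h2 := congrArg (fun q : ℚ => (q : ℂ)) h1
    simp only [AA, Sum.elim_inl, Sum.elim_inr] at h2
    push_cast at h2
    exact h2
  have h1 : ∀ ζ : ℂ, IsPrimitiveRoot ζ e →
      ∑ b ∈ B e, (if h : b ∈ B e then (g (Sum.inl ⟨b, h⟩) : ℂ) else 0) * cn e (ζ ^ b) = 0 := by
    intro ζ hζ
    have h2 : ev (fun j : Fin e => ∑ b : B e, (g (Sum.inl b) : ℂ) * ((TT e b j : ℤ) : ℂ) +
      ∑ x : s, (g (Sum.inr x) : ℂ) * ((GG e x.1 j : ℤ) : ℂ)) ζ = 0 := by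
      unfold ev
      apply sum_eq_zero
      intro j _
      have h7 := h0 j
      simp only [h7, zero_mul]
    rw [ev_add, ev_sum, ev_sum] at h2
    have h3 : ∑ x : s, (g (Sum.inr x) : ℂ) * ev (fun j : Fin e => ((GG e x.1 j : ℤ) : ℂ)) ζ = 0 := by
      apply sum_eq_zero
      intro x _
      rw [h3d e x.1 ℂ ζ (hs x.2) hζ, mul_zero]
    rw [h3, add_zero] at h2
    rw [← h2, ← Finset.sum_coe_sort (B e)]
    refine sum_congr rfl (fun b _ => ?_)
    rw [dif_pos b.2, h3a e b ℂ ζ he (mem_B.1 b.2).2 two_ne_zero hζ]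
  have h2 := cn_indep h5 e he _ h1
  have h3 : ∀ b : B e, g (Sum.inl b) = 0 := by
    intro b
    have := h2 b b.2
    simp only [dif_pos b.2] at this
    exact_mod_cast this
  have h4 : ∀ x : s, (g (Sum.inr x) : ℂ) = 0 := by
    apply hind
    funext j
    rw [Finset.sum_apply]
    simp only [Pi.smul_apply, smul_eq_mul, Pi.zero_apply]
    have h5 := h0 j
    have h6 : ∑ b : B e, (g (Sum.inl b) : ℂ) * ((TT e b j : ℤ) : ℂ) = 0 := by
      apply sum_eq_zero
      intro b _
      rw [h3 b]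
      simp
    rw [h6, zero_add] at h5
    exact h5
  intro i
  rcases i with b | x
  · exact h3 b
  · exact_mod_cast h4 x

theorem prod_norms (h3b : StP3b) (h3c : StP3c) (e : ℕ) (he : 3 ≤ e) (s : Finset (ℕ × ℕ))
    (hs : s ⊆ GI e) :
    ∏ i : B e ⊕ s, Real.sqrt (∑ j, (AA e s i j : ℝ) ^ 2) ≤
      Real.sqrt e ^ #(B e) * ∏ ℓ ∈ e.primeFactors, Real.sqrt ℓ ^ (e / ℓ) := by
  classical
  rw [Fintype.prod_sum_type]
  have h1 : ∏ b : B e, Real.sqrt (∑ j, (AA e s (Sum.inl b) j : ℝ) ^ 2) ≤ Real.sqrt e ^ #(B e) := by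
    refine (Finset.prod_le_prod (fun b _ => Real.sqrt_nonneg _) (g := fun _ => Real.sqrt e)
      (fun b _ => ?_)).trans (le_of_eq ?_)
    · apply Real.sqrt_le_sqrt
      exact h3b e b (by omega) (mem_B.1 b.2).2
    · rw [Finset.prod_const, Finset.card_univ, Fintype.card_coe]
  have hGI : ∀ x ∈ GI e, (1 : ℝ) ≤ Real.sqrt x.1 := by
    intro x hx
    unfold GI at hx
    rw [mem_filter, mem_product, Nat.mem_primeFactors] at hx
    have := hx.1.1.1.one_lt
    rw [Real.one_le_sqrt]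
    exact_mod_cast this.le
  have h2 : ∏ x : s, Real.sqrt (∑ j, (AA e s (Sum.inr x) j : ℝ) ^ 2) ≤ ∏ x ∈ GI e, Real.sqrt x.1 := by
    have e1 : ∏ x : s, Real.sqrt (∑ j, (AA e s (Sum.inr x) j : ℝ) ^ 2) = ∏ x ∈ s, Real.sqrt x.1 := by
      rw [← Finset.prod_coe_sort s]
      refine prod_congr rfl (fun x _ => ?_)
      congr 1
      exact h3c e x (hs x.2)
    rw [e1]
    rw [← Finset.prod_sdiff hs]
    have e3 : (1 : ℝ) ≤ ∏ x ∈ GI e \ s, Real.sqrt (x.1 : ℝ) := by
      have e4 : ∏ x ∈ GI e \ s, (1 : ℝ) ≤ ∏ x ∈ GI e \ s, Real.sqrt (x.1 : ℝ) :=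
        Finset.prod_le_prod (fun _ _ => zero_le_one) (fun x hx => hGI x (mem_sdiff.1 hx).1)
      rwa [prod_const_one] at e4
    have e5 : (0 : ℝ) ≤ ∏ x ∈ s, Real.sqrt (x.1 : ℝ) := Finset.prod_nonneg (fun _ _ => Real.sqrt_nonneg _)
    nlinarith
  have h3 : ∏ x ∈ GI e, Real.sqrt (x.1 : ℝ) = ∏ ℓ ∈ e.primeFactors, Real.sqrt ℓ ^ (e / ℓ) := by
    unfold GI
    rw [Finset.prod_filter, Finset.prod_product]
    refine prod_congr rfl (fun ℓ hℓ => ?_)
    simp only
    rw [← Finset.prod_filter]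
    have e2 : (range e).filter (fun k => k < e / ℓ) = range (e / ℓ) := by
      ext k
      rw [mem_filter, mem_range, mem_range]
      constructor
      · exact fun h => h.2
      · intro h
        exact ⟨lt_of_lt_of_le h (Nat.div_le_self _ _), h⟩
    rw [e2, prod_const, card_range]
  rw [← h3]
  exact mul_le_mul h1 h2 (Finset.prod_nonneg (fun _ _ => Real.sqrt_nonneg _)) (by positivity)

open Classical in
theorem p7 (h1 : StP1) (h2 : StP2) (h3a : StP3a) (h3b : StP3b) (h3c : StP3c) (h3d : StP3d)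
    (h4 : StP4) (h5 : StP5) (h6 : StP6) : StP7 := by
  intro p hp e he hep
  have hp3 : 3 ≤ p := by omega
  have hchar : CharP (AlgebraicClosure (ZMod p)) p :=
    charP_of_injective_algebraMap (algebraMap (ZMod p) (AlgebraicClosure (ZMod p))).injective p
  have two : (2 : AlgebraicClosure (ZMod p)) ≠ 0 := by
    have h := Ring.two_ne_zero (R := AlgebraicClosure (ZMod p))
    apply h
    intro h4
    have h5 := ringChar.of_eq h4
    have h6 := CharP.eq (AlgebraicClosure (ZMod p)) h5 hchar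
    omega
  -- reduction to `cn`
  have step0 : Nat.card {l : B e → ZMod p // ∀ ζ : AlgebraicClosure (ZMod p), IsPrimitiveRoot ζ e →
      ∑ b : B e, algebraMap (ZMod p) (AlgebraicClosure (ZMod p)) (l b) * ct (ζ ^ (b : ℕ)) = 0} ≤
      Nat.card {l : B e → ZMod p // ∀ ζ : AlgebraicClosure (ZMod p), IsPrimitiveRoot ζ e →
      ∑ b : B e, algebraMap (ZMod p) (AlgebraicClosure (ZMod p)) (l b) * cn e (ζ ^ (b : ℕ)) = 0} := by
    rcases Nat.even_or_odd e with hev | hodd
    · simp only [cn, if_pos hev]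
      exact le_rfl
    · simp only [cn, if_neg (Nat.not_even_iff_odd.2 hodd)]
      exact h4 p e he hodd hp3
  refine le_trans (Nat.cast_le.2 step0) ?_
  obtain ⟨s, hs, hcard, hind⟩ := h2 e (by omega)
  have hA := h1 p (B e ⊕ s) (Fin e) (AA e s) (AA_indep h3a h3d h5 e he s hs hind)
  refine le_trans ?_ (hA.trans (prod_norms h3b h3c e he s hs))
  rw [Nat.cast_le]
  -- the count
  set Kset := (Finset.univ.filter (fun x : B e ⊕ s → ZMod p => ∀ j, ∑ i, x i * (AA e s i j : ZMod p) = 0))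
    with hK
  set S := (Finset.univ.filter (fun x : B e ⊕ s → ZMod p => ∀ ζ : AlgebraicClosure (ZMod p),
    IsPrimitiveRoot ζ e → ∑ b : B e, algebraMap (ZMod p) (AlgebraicClosure (ZMod p)) (x (Sum.inl b)) *
      cn e (ζ ^ (b : ℕ)) = 0)) with hS
  set T := (Finset.univ.filter (fun f : Fin e → ZMod p => ∀ ζ : AlgebraicClosure (ZMod p),
    IsPrimitiveRoot ζ e → ev (fun j => algebraMap (ZMod p) (AlgebraicClosure (ZMod p)) (f j)) ζ = 0))
    with hT
  have hmaps : ∀ x ∈ S, (fun j => ∑ i, x i * (AA e s i j : ZMod p)) ∈ T := by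
    intro x hx
    rw [hS, mem_filter] at hx
    rw [hT, mem_filter]
    refine ⟨mem_univ _, fun ζ hζ => ?_⟩
    have e1 : (fun j => algebraMap (ZMod p) (AlgebraicClosure (ZMod p)) (∑ i, x i * (AA e s i j : ZMod p))) =
        (fun j : Fin e => ∑ b : B e, algebraMap (ZMod p) (AlgebraicClosure (ZMod p)) (x (Sum.inl b)) *
          ((TT e b j : ℤ) : AlgebraicClosure (ZMod p)) +
          ∑ y : s, algebraMap (ZMod p) (AlgebraicClosure (ZMod p)) (x (Sum.inr y)) *
          ((GG e y.1 j : ℤ) : AlgebraicClosure (ZMod p))) := by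
      funext j
      rw [Fintype.sum_sum_type, map_add, map_sum, map_sum]
      simp only [AA, Sum.elim_inl, Sum.elim_inr, map_mul, map_intCast]
    rw [e1, ev_add, ev_sum, ev_sum]
    have e2 : ∑ y : s, algebraMap (ZMod p) (AlgebraicClosure (ZMod p)) (x (Sum.inr y)) *
        ev (fun j : Fin e => ((GG e y.1 j : ℤ) : AlgebraicClosure (ZMod p))) ζ = 0 := by
      apply sum_eq_zero
      intro y _
      rw [h3d e y.1 _ ζ (hs y.2) hζ, mul_zero]
    rw [e2, add_zero, ← hx.2 ζ hζ]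
    refine sum_congr rfl (fun b _ => ?_)
    rw [h3a e b _ ζ he (mem_B.1 b.2).2 two hζ]
  have hfib : ∀ f ∈ T, #(S.filter (fun x => (fun j => ∑ i, x i * (AA e s i j : ZMod p)) = f)) ≤ #Kset := by
    intro f _
    rcases (S.filter (fun x => (fun j => ∑ i, x i * (AA e s i j : ZMod p)) = f)).eq_empty_or_nonempty
      with h | ⟨a0, ha0⟩
    · rw [h]; simp
    · refine card_le_card_of_injOn (fun a => a - a0) ?_ ?_
      · intro a ha
        rw [mem_coe, mem_filter] at ha
        rw [mem_filter] at ha0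
        rw [mem_coe, hK, mem_filter]
        refine ⟨mem_univ _, fun j => ?_⟩
        have e3 := congrFun ha.2 j
        have e4 := congrFun ha0.2 j
        simp only [Pi.sub_apply, sub_mul, sum_sub_distrib]
        rw [e3, e4, sub_self]
      · intro a _ b _ hab
        exact sub_left_injective hab
  have hcount := Finset.card_le_mul_card_image_of_maps_to hmaps #Kset hfib
  have hScard : #S = Nat.card {l : B e → ZMod p // ∀ ζ : AlgebraicClosure (ZMod p),
      IsPrimitiveRoot ζ e →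
      ∑ b : B e, algebraMap (ZMod p) (AlgebraicClosure (ZMod p)) (l b) * cn e (ζ ^ (b : ℕ)) = 0} *
      p ^ #s := by
    have e5 : #S = Nat.card {x : B e ⊕ s → ZMod p // ∀ ζ : AlgebraicClosure (ZMod p),
        IsPrimitiveRoot ζ e → ∑ b : B e, algebraMap (ZMod p) (AlgebraicClosure (ZMod p)) (x (Sum.inl b)) *
      cn e (ζ ^ (b : ℕ)) = 0} := by
      rw [Nat.card_eq_fintype_card, Fintype.card_subtype]
    have e6 : Nat.card (s → ZMod p) = p ^ #s := by
      rw [Nat.card_eq_fintype_card, Fintype.card_fun, ZMod.card, Fintype.card_coe]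
    rw [e5, ← e6, ← Nat.card_prod]
    refine Nat.card_congr ?_
    exact {
      toFun := fun x => (⟨fun b => x.1 (Sum.inl b), x.2⟩, fun y => x.1 (Sum.inr y))
      invFun := fun z => ⟨Sum.elim z.1.1 z.2, z.1.2⟩
      left_inv := fun x => by
        apply Subtype.ext
        funext i
        rcases i with b | y <;> rfl
      right_inv := fun z => rfl }
  have hTcard : #T ≤ p ^ (e - Nat.totient e) := by
    have e7 : #T = Nat.card {f : Fin e → ZMod p // ∀ ζ : AlgebraicClosure (ZMod p),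
        IsPrimitiveRoot ζ e →
        ev (fun j => algebraMap (ZMod p) (AlgebraicClosure (ZMod p)) (f j)) ζ = 0} := by
      rw [Nat.card_eq_fintype_card, Fintype.card_subtype]
    rw [e7]
    exact h6 p e (by omega) hep
  rw [hScard] at hcount
  have hpow : p ^ (e - Nat.totient e) ≤ p ^ #s := Nat.pow_le_pow_right (by omega : 0 < p) (by omega : e - Nat.totient e ≤ #s)
  have h8 := Nat.mul_le_mul_left #Kset (hTcard.trans hpow)
  have h9 := hcount.trans h8
  have h10 := Nat.le_of_mul_le_mul_right h9 (pow_pos (by omega : 0 < p) _)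
  refine h10.trans (le_of_eq ?_)
  rw [hK]
  congr!

end Pool.Agent.T9h59.SR
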