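import Mathlib
import Pool.Agent.T9h59.SR.Defs

set_option autoImplicit false

namespace Pool.Agent.T9h59.SR

open Finset

theorem card_B (e : ℕ) (he : 3 ≤ e) : 2 * #(B e) = Nat.totient e := by
  classical
  unfold Nat.totient
  have h1 : (range e).filter (fun a => Nat.Coprime e a) = B e ∪ (B e).image (fun b => e - b) := by
    ext a
    rw [mem_filter, mem_range, mem_union, mem_image]
    constructor
    · rintro ⟨h1, h2⟩
      have h0 : a ≠ 0 := by
        rintro rfl
        rw [Nat.coprime_zero_right] at h2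
        omega
      have hne : 2 * a ≠ e := by
        intro h
        rw [← h] at h2
        have h3 : Nat.Coprime (2 * a) a := h2
        rw [Nat.coprime_mul_iff_left] at h3
        have h4 := (Nat.coprime_self a).1 h3.2
        omega
      rcases Nat.lt_or_ge (2 * a) e with h3 | h3
      · left
        rw [mem_B]
        exact ⟨⟨by omega, by omega⟩, h2.symm⟩
      · right
        refine ⟨e - a, ?_, by omega⟩
        rw [mem_B]
        refine ⟨⟨by omega, by omega⟩, ?_⟩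
        rw [Nat.coprime_self_sub_left (by omega : a ≤ e)]
        exact h2.symm
    · rintro (h | ⟨b, h, rfl⟩)
      · rw [mem_B] at h
        exact ⟨by omega, h.2.symm⟩
      · rw [mem_B] at h
        refine ⟨by omega, ?_⟩
        rw [Nat.coprime_comm, Nat.coprime_self_sub_left (by omega : b ≤ e)]
        exact h.2
  have h2 : Disjoint (B e) ((B e).image (fun b => e - b)) := by
    rw [disjoint_left]
    intro a ha hb
    rw [mem_image] at hb
    obtain ⟨b, hb, hab⟩ := hb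
    rw [mem_B] at ha hb
    omega
  rw [h1, card_union_of_disjoint h2, card_image_of_injOn]
  · ring
  · intro a ha b hb hab
    rw [mem_coe, mem_B] at ha hb
    simp only at hab
    omega

theorem coprime_pairs (C : ℕ) (hC : 1 ≤ C) :
    #(((Icc 1 C) ×ˢ (Icc 1 C)).filter (fun x => Nat.Coprime x.1 x.2)) ≤
      2 * ∑ f ∈ Icc 1 C, Nat.totient f := by
  classical
  have hrow : ∀ a ∈ Icc 1 C, #((Icc 1 C).filter (fun b => b < a ∧ Nat.Coprime a b)) ≤
      if a = 1 then 0 else Nat.totient a := by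
    intro a ha
    rw [mem_Icc] at ha
    split_ifs with h
    · subst h
      rw [Nat.le_zero, card_eq_zero, filter_eq_empty_iff]
      intro b hb
      rw [mem_Icc] at hb
      omega
    · unfold Nat.totient
      refine card_le_card (fun b hb => ?_)
      rw [mem_filter] at hb ⊢
      rw [mem_range]
      exact ⟨hb.2.1, hb.2.2⟩
  have hsum : ∑ a ∈ Icc 1 C, (if a = 1 then 0 else Nat.totient a) + 1 =
      ∑ f ∈ Icc 1 C, Nat.totient f := by
    have e1 : Icc 1 C = insert 1 (Icc 2 C) := by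
      ext f
      rw [mem_insert, mem_Icc, mem_Icc]
      omega
    have h1 : 1 ∉ Icc 2 C := by rw [mem_Icc]; omega
    rw [e1, sum_insert h1, sum_insert h1, if_pos rfl, Nat.totient_one, zero_add, add_comm]
    congr 1
    refine sum_congr rfl (fun a ha => ?_)
    rw [mem_Icc] at ha
    rw [if_neg (by omega)]
  have hP : ((Icc 1 C) ×ˢ (Icc 1 C)).filter (fun x => Nat.Coprime x.1 x.2) ⊆
      (((Icc 1 C).sigma (fun a => (Icc 1 C).filter (fun b => b < a ∧ Nat.Coprime a b))).image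
        (fun x => (x.1, x.2))) ∪
      ((((Icc 1 C).sigma (fun a => (Icc 1 C).filter (fun b => b < a ∧ Nat.Coprime a b))).image
        (fun x => (x.2, x.1))) ∪ {(1, 1)}) := by
    rintro ⟨a, b⟩ hx
    rw [mem_filter, mem_product] at hx
    obtain ⟨⟨ha, hb⟩, hc⟩ := hx
    simp only at ha hb hc
    rw [mem_union, mem_union, mem_image, mem_image, mem_singleton]
    rcases lt_trichotomy a b with h | h | h
    · right; left
      refine ⟨⟨b, a⟩, ?_, rfl⟩
      rw [mem_sigma, mem_filter]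
      exact ⟨hb, ha, h, hc.symm⟩
    · right; right
      subst h
      have := (Nat.coprime_self a).1 hc
      rw [this]
    · left
      refine ⟨⟨a, b⟩, ?_, rfl⟩
      rw [mem_sigma, mem_filter]
      exact ⟨ha, hb, h, hc⟩
  have h1 := (card_le_card hP).trans (card_union_le _ _)
  have h2 := card_union_le (((Icc 1 C).sigma
    (fun a => (Icc 1 C).filter (fun b => b < a ∧ Nat.Coprime a b))).image
        (fun x => (x.2, x.1))) {((1 : ℕ), (1 : ℕ))}
  have h3 := card_image_le (s := (Icc 1 C).sigma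
    (fun a => (Icc 1 C).filter (fun b => b < a ∧ Nat.Coprime a b)))
    (f := fun x => ((x.1, x.2) : ℕ × ℕ))
  have h4 := card_image_le (s := (Icc 1 C).sigma
    (fun a => (Icc 1 C).filter (fun b => b < a ∧ Nat.Coprime a b)))
    (f := fun x => ((x.2, x.1) : ℕ × ℕ))
  have h5 : #((Icc 1 C).sigma (fun a => (Icc 1 C).filter (fun b => b < a ∧ Nat.Coprime a b))) ≤
      ∑ a ∈ Icc 1 C, (if a = 1 then 0 else Nat.totient a) := by
    rw [card_sigma]
    exact sum_le_sum hrow
  rw [card_singleton] at h2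
  omega

theorem sum_sq (m : ℕ) : (∑ d ∈ Icc 3 m, (1 : ℝ) / (d : ℝ) ^ 2) ≤ 1 / 2 := by
  have h : ∀ m : ℕ, 2 ≤ m → (∑ d ∈ Icc 3 m, (1 : ℝ) / (d : ℝ) ^ 2) ≤ 1 / 2 - 1 / m := by
    intro m hm
    induction m, hm using Nat.le_induction with
    | base => simp
    | succ m hm ih =>
      have e1 : Icc 3 (m + 1) = insert (m + 1) (Icc 3 m) := by
        ext f
        rw [mem_insert, mem_Icc, mem_Icc]
        omega
      rw [e1, sum_insert (by rw [mem_Icc]; omega)]
      have hm0 : (0 : ℝ) < m := by exact_mod_cast (by omega : 0 < m)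
      have h1 : (1 : ℝ) / ((m + 1 : ℕ) : ℝ) ^ 2 ≤ 1 / m - 1 / ((m + 1 : ℕ) : ℝ) := by
        push_cast
        rw [div_sub_div _ _ hm0.ne' (by positivity), div_le_div_iff₀ (by positivity) (by positivity)]
        nlinarith
      linarith
  rcases Nat.lt_or_ge m 2 with h1 | h1
  · have : Icc 3 m = ∅ := by
      rw [Icc_eq_empty_iff]
      omega
    rw [this, sum_empty]
    norm_num
  · have h2 := h m h1
    have : (0 : ℝ) ≤ 1 / m := by positivity
    linarith

theorem noncoprime_pairs (C : ℕ) :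
    (#(((Icc 1 C) ×ˢ (Icc 1 C)).filter (fun x => ¬ Nat.Coprime x.1 x.2)) : ℝ) ≤
      3 / 4 * (C : ℝ) ^ 2 := by
  classical
  have hP : ((Icc 1 C) ×ˢ (Icc 1 C)).filter (fun x => ¬ Nat.Coprime x.1 x.2) ⊆
      (Icc 2 C).biUnion (fun d => ((Ioc 0 C).filter (fun a => d ∣ a)) ×ˢ
        ((Ioc 0 C).filter (fun a => d ∣ a))) := by
    rintro ⟨a, b⟩ hx
    rw [mem_filter, mem_product, mem_Icc, mem_Icc] at hx
    obtain ⟨⟨ha, hb⟩, hc⟩ := hx
    simp only at ha hb hc
    rw [mem_biUnion]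
    have hg1 : Nat.gcd a b ≤ a := Nat.gcd_le_left _ (by omega)
    have hg0 : 0 < Nat.gcd a b := Nat.gcd_pos_of_pos_left _ (by omega)
    have hg2 : Nat.gcd a b ≠ 1 := hc
    refine ⟨Nat.gcd a b, by rw [mem_Icc]; omega, ?_⟩
    rw [mem_product, mem_filter, mem_filter, mem_Ioc, mem_Ioc]
    exact ⟨⟨by omega, Nat.gcd_dvd_left _ _⟩, ⟨by omega, Nat.gcd_dvd_right _ _⟩⟩
  have h1 := (card_le_card hP).trans card_biUnion_le
  have h2 : ((#(((Icc 1 C) ×ˢ (Icc 1 C)).filter (fun x => ¬ Nat.Coprime x.1 x.2)) : ℕ) : ℝ) ≤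
      ∑ d ∈ Icc 2 C, ((C : ℝ) ^ 2 * (1 / (d : ℝ) ^ 2)) := by
    have h1' : ((#(((Icc 1 C) ×ˢ (Icc 1 C)).filter (fun x => ¬ Nat.Coprime x.1 x.2)) : ℕ) : ℝ) ≤
        ((∑ u ∈ Icc 2 C, #(((Ioc 0 C).filter (fun a => u ∣ a)) ×ˢ
          ((Ioc 0 C).filter (fun a => u ∣ a))) : ℕ) : ℝ) := by
      exact_mod_cast h1
    refine le_trans h1' ?_
    rw [Nat.cast_sum]
    refine sum_le_sum (fun d hd => ?_)
    rw [mem_Icc] at hd
    rw [card_product, Nat.Ioc_filter_dvd_card_eq_div]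
    push_cast
    have h3 : ((C / d : ℕ) : ℝ) ≤ C / d := Nat.cast_div_le
    have h4 : (0 : ℝ) ≤ ((C / d : ℕ) : ℝ) := Nat.cast_nonneg _
    calc ((C / d : ℕ) : ℝ) * ((C / d : ℕ) : ℝ) ≤ (C / d) * (C / d) :=
        mul_le_mul h3 h3 h4 (h4.trans h3)
      _ = (C : ℝ) ^ 2 * (1 / (d : ℝ) ^ 2) := by ring
  rw [← mul_sum] at h2
  refine h2.trans ?_
  rcases Nat.lt_or_ge C 2 with h | h
  · have : Icc 2 C = ∅ := by
      rw [Icc_eq_empty_iff]
      omega
    rw [this, sum_empty, mul_zero]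
    positivity
  · have e1 : Icc 2 C = insert 2 (Icc 3 C) := by
      ext f
      rw [mem_insert, mem_Icc, mem_Icc]
      omega
    rw [e1, sum_insert (by rw [mem_Icc]; omega)]
    have h3 := sum_sq C
    have h4 : (0 : ℝ) ≤ (C : ℝ) ^ 2 := by positivity
    push_cast
    nlinarith

theorem totient_sum (C : ℕ) : C ^ 2 ≤ 8 * ∑ f ∈ Icc 1 C, Nat.totient f := by
  rcases Nat.eq_zero_or_pos C with h | h
  · subst h; simp
  have h1 := coprime_pairs C h
  have h2 := noncoprime_pairs C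
  have h3 := Finset.card_filter_add_card_filter_not (s := (Icc 1 C) ×ˢ (Icc 1 C))
    (fun x => Nat.Coprime x.1 x.2)
  rw [card_product, Nat.card_Icc, Nat.add_sub_cancel] at h3
  have h4 : ((#(((Icc 1 C) ×ˢ (Icc 1 C)).filter (fun x => Nat.Coprime x.1 x.2)) : ℕ) : ℝ) ≤
      2 * ((∑ f ∈ Icc 1 C, Nat.totient f : ℕ) : ℝ) := by exact_mod_cast h1
  have h5 : ((#(((Icc 1 C) ×ˢ (Icc 1 C)).filter (fun x => Nat.Coprime x.1 x.2)) : ℕ) : ℝ) +
      ((#(((Icc 1 C) ×ˢ (Icc 1 C)).filter (fun x => ¬ Nat.Coprime x.1 x.2)) : ℕ) : ℝ) =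
      (C : ℝ) * C := by exact_mod_cast h3
  have h6 : (C : ℝ) ^ 2 ≤ 8 * ((∑ f ∈ Icc 1 C, Nat.totient f : ℕ) : ℝ) := by nlinarith
  exact_mod_cast h6

end Pool.Agent.T9h59.SR
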