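import Mathlib
import Pool.Agent.T9h59.SR.P7
import Pool.Agent.T9h59.SR.Asym
import Pool.Agent.T9h59.SR.Tot
import Pool.Agent.T9h69.SR.P1
import Pool.Agent.T9h69.SR.P2
import Pool.Agent.T9h71.SR.P3
import Pool.Agent.T9h71.SR.P4
import Pool.Agent.T9h75.SR.P5
import Pool.Agent.T9h75.SR.P6
import Pool.Agent.T9h46.SR.P9

set_option autoImplicit false

namespace Pool.Agent.T9h59.SR

open Finset Filter

theorem loss : StP7 :=
  p7 Pool.Agent.T9h69.SR.stP1 Pool.Agent.T9h69.SR.stP2 Pool.Agent.T9h71.SR.stP3a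
    Pool.Agent.T9h71.SR.stP3b Pool.Agent.T9h71.SR.stP3c Pool.Agent.T9h71.SR.stP3d
    Pool.Agent.T9h71.SR.stP4 Pool.Agent.T9h75.SR.p5 Pool.Agent.T9h75.SR.p6

theorem finrank_Ker (p : ℕ) [hp : Fact p.Prime] (e : ℕ) (he : 3 ≤ e) (hep : e < p) :
    (Module.finrank (ZMod p) (Ker p e) : ℝ) * Real.log p ≤
      #(B e) * (Real.log e / 2) + ∑ ℓ ∈ e.primeFactors, ((e / ℓ : ℕ) : ℝ) * Real.log ℓ / 2 := by
  have h := loss p e he hep
  have h1 : Nat.card {l : B e → ZMod p // ∀ ζ : AlgebraicClosure (ZMod p), IsPrimitiveRoot ζ e →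
      ∑ b : B e, algebraMap (ZMod p) (AlgebraicClosure (ZMod p)) (l b) * ct (ζ ^ (b : ℕ)) = 0} =
      p ^ Module.finrank (ZMod p) (Ker p e) := by
    have h2 : Nat.card (Ker p e) = p ^ Module.finrank (ZMod p) (Ker p e) := by
      rw [Module.natCard_eq_pow_finrank (K := ZMod p), Nat.card_eq_fintype_card, ZMod.card]
    rw [← h2]
    rfl
  rw [h1] at h
  have hp0 : (0 : ℝ) < p := by exact_mod_cast hp.out.pos
  have he0 : (0 : ℝ) < e := by exact_mod_cast (by omega : 0 < e)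
  have hse : 0 < Real.sqrt e := Real.sqrt_pos.2 he0
  have hl : ∀ ℓ ∈ e.primeFactors, 0 < Real.sqrt (ℓ : ℝ) := by
    intro ℓ hℓ
    exact Real.sqrt_pos.2 (by exact_mod_cast (Nat.prime_of_mem_primeFactors hℓ).pos)
  have h3 := Real.log_le_log (by rw [Nat.cast_pow]; exact pow_pos hp0 _) h
  rw [Nat.cast_pow, Real.log_pow, Real.log_mul (by positivity)
    (Finset.prod_pos (fun ℓ hℓ => pow_pos (hl ℓ hℓ) _)).ne', Real.log_pow,
    Real.log_prod (fun ℓ hℓ => (pow_pos (hl ℓ hℓ) _).ne'), Real.log_sqrt he0.le] at h3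
  refine h3.trans (le_of_eq ?_)
  congr 1
  refine sum_congr rfl (fun ℓ _ => ?_)
  rw [Real.log_pow, Real.log_sqrt (by positivity)]
  ring

/-- **The strong form**: at least `(1 - log K / (4 log p) - ε) K` elements of `SS`. -/
theorem SS_ge2 (ε : ℝ) (hε : 0 < ε) :
    ∃ K₀ : ℕ, ∀ (p : ℕ) [Fact p.Prime] (K : ℕ), K₀ ≤ K → 2 * K + 3 ≤ p →
      (1 - Real.log K / (4 * Real.log p) - ε) * K ≤ #(SS p K) - 2 := by
  obtain ⟨A0, hA0⟩ := Pool.Agent.T9h46.SR.stP9
  set A := max A0 0 with hAdef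
  have hA1 : 0 ≤ A := le_max_right _ _
  have hA : ∀ C : ℕ, ∑ e ∈ Icc 3 C, ∑ ℓ ∈ e.primeFactors,
      ((e / ℓ : ℕ) : ℝ) * Real.log ℓ / 2 ≤ A * (C : ℝ) ^ 2 := fun C =>
    (hA0 C).trans (mul_le_mul_of_nonneg_right (le_max_left _ _) (sq_nonneg _))
  have h4p : 0 ≤ Real.log 4 := Real.log_nonneg (by norm_num)
  have hlogt : Tendsto (fun K : ℕ => Real.log (K : ℝ)) atTop atTop :=
    Real.tendsto_log_atTop.comp tendsto_natCast_atTop_atTop
  obtain ⟨K₁, hK₁⟩ := eventually_atTop.1 (growth (ε / 4) (by positivity))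
  obtain ⟨K₂, hK₂⟩ := eventually_atTop.1 (hlogt.eventually
    (eventually_ge_atTop ((Real.log 4 + 16 * A) * (4 / ε) + Real.log 4)))
  refine ⟨max (max K₁ K₂) 3, fun p hp K hK hKp => ?_⟩
  have hK3 : 3 ≤ K := (le_max_right _ _).trans hK
  obtain ⟨g1, -, -, g4⟩ := hK₁ K ((le_max_left _ _).trans ((le_max_left _ _).trans hK))
  have g5 := hK₂ K ((le_max_right _ _).trans ((le_max_left _ _).trans hK))
  obtain ⟨C, hC3, hC1, hC2⟩ := exists_C K hK3
  set Φ := ∑ f ∈ Icc 1 C, Nat.totient f with hΦ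
  have hK0 : (0 : ℝ) < K := by exact_mod_cast (by omega : 0 < K)
  -- the size of `C`
  have hCsq : (C : ℝ) ^ 2 ≤ 16 * K := by
    have h1 : C ^ 2 ≤ 16 * K := by
      have := totient_sum C
      rw [← hΦ] at this
      omega
    exact_mod_cast h1
  have hC4 : (C : ℝ) ≤ 4 * Real.sqrt K := by
    have h3 : (C : ℝ) ≤ Real.sqrt (16 * K) := Real.le_sqrt_of_sq_le hCsq
    rw [Real.sqrt_mul (by norm_num)] at h3
    have h4 : Real.sqrt 16 = 4 := by
      rw [show (16 : ℝ) = 4 ^ 2 by norm_num, Real.sqrt_sq (by norm_num)]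
    rwa [h4] at h3
  have hsq := Real.sq_sqrt hK0.le
  have hsq0 := Real.sqrt_nonneg (K : ℝ)
  have hCp : C < p := by
    have h1 : (C : ℝ) ≤ K + 4 := by nlinarith [sq_nonneg (Real.sqrt K - 2)]
    have h2 : C ≤ K + 4 := by exact_mod_cast h1
    omega
  -- the logarithms
  set L := Real.log p with hL
  set l := Real.log K with hl
  have hKp' : (K : ℝ) ≤ p := by exact_mod_cast (by omega : K ≤ p)
  have hlL : l ≤ L := Real.log_le_log hK0 hKp'
  have hl0 : 0 < l := Real.log_pos (by exact_mod_cast (by omega : 1 < K))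
  have hL0 : 0 < L := lt_of_lt_of_le hl0 hlL
  have hC0 : (0 : ℝ) < C := by exact_mod_cast (by omega : 0 < C)
  have hlC : Real.log C ≤ Real.log 4 + l / 2 := by
    have h1 := Real.log_le_log hC0 hC4
    rw [Real.log_mul (by norm_num) (Real.sqrt_pos.2 hK0).ne', Real.log_sqrt hK0.le] at h1
    exact h1
  -- the number of the `b`
  have hsum : (2 : ℝ) * ((∑ e ∈ Icc 3 C, #(B e) : ℕ) : ℝ) = (Φ : ℝ) - 2 := by
    have h1 : 2 * ∑ e ∈ Icc 3 C, #(B e) + 2 = Φ := by
      rw [mul_sum, sum_congr rfl (fun e he => card_B e (mem_Icc.1 he).1), hΦ]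
      have e1 : Icc 1 C = insert 1 (insert 2 (Icc 3 C)) := by
        ext f
        rw [mem_insert, mem_insert, mem_Icc, mem_Icc]
        omega
      rw [e1, sum_insert (by rw [mem_insert, mem_Icc]; omega), sum_insert (by rw [mem_Icc]; omega)]
      have e2 : Nat.totient 2 = 1 := by decide
      rw [Nat.totient_one, e2]
      ring
    have h2 : ((2 * ∑ e ∈ Icc 3 C, #(B e) + 2 : ℕ) : ℝ) = (Φ : ℝ) := by exact_mod_cast h1
    push_cast at h2 ⊢
    linarith
  have hΦ2 : (2 : ℝ) * K ≤ Φ + C + 1 := by exact_mod_cast hC2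
  -- the count
  have hcount := count2 p K C hKp hC1 hCp (by omega)
  have hcount' : ((∑ e ∈ Icc 3 C, #(B e) : ℕ) : ℝ) ≤
      ∑ e ∈ Icc 3 C, (Module.finrank (ZMod p) (Ker p e) : ℝ) + #(SS p K) := by
    exact_mod_cast hcount
  have hker : (∑ e ∈ Icc 3 C, (Module.finrank (ZMod p) (Ker p e) : ℝ)) * L ≤
      ((∑ e ∈ Icc 3 C, #(B e) : ℕ) : ℝ) * (Real.log C / 2) + A * (C : ℝ) ^ 2 := by
    rw [sum_mul, Nat.cast_sum, sum_mul]
    refine le_trans (sum_le_sum (fun e he => ?_)) (le_trans (le_of_eq sum_add_distrib)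
      (add_le_add le_rfl (hA C)))
    rw [mem_Icc] at he
    refine (finrank_Ker p e he.1 (by omega)).trans (add_le_add ?_ le_rfl)
    apply mul_le_mul_of_nonneg_left _ (Nat.cast_nonneg _)
    have h1 : Real.log e ≤ Real.log C := Real.log_le_log (by exact_mod_cast (by omega : 0 < e))
      (by exact_mod_cast he.2)
    linarith
  set n := ((∑ e ∈ Icc 3 C, #(B e) : ℕ) : ℝ) with hn
  have hn2 : (1 - ε / 4) * K ≤ n := by linarith
  set D := ∑ e ∈ Icc 3 C, (Module.finrank (ZMod p) (Ker p e) : ℝ) with hD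
  have h5 : n * L ≤ D * L + #(SS p K) * L := by
    have := mul_le_mul_of_nonneg_right hcount' hL0.le
    linarith
  have h6 : n * (L - Real.log C / 2) - A * (C : ℝ) ^ 2 ≤ #(SS p K) * L := by linarith
  -- conclusion
  have hAC : A * (C : ℝ) ^ 2 ≤ 16 * A * K := by
    have := mul_le_mul_of_nonneg_left hCsq hA1
    linarith
  have hg5 : (Real.log 4 + 16 * A) * (4 / ε) + Real.log 4 ≤ L := g5.trans hlL
  have hprod0 : 0 ≤ (Real.log 4 + 16 * A) * (4 / ε) := by positivity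
  have hfac : 0 ≤ L - Real.log C / 2 := by linarith
  have h7 : (1 - ε / 4) * K * (L - Real.log C / 2) ≤ n * (L - Real.log C / 2) :=
    mul_le_mul_of_nonneg_right hn2 hfac
  have h8 : (1 - ε / 4) * K * (L - Real.log C / 2) - 16 * A * K ≤ #(SS p K) * L := by linarith
  have hsmall : Real.log 4 + 16 * A ≤ ε / 4 * L := by
    have h9 : (Real.log 4 + 16 * A) * (4 / ε) ≤ L := by linarith
    have h10 := mul_le_mul_of_nonneg_left h9 (by positivity : (0 : ℝ) ≤ ε / 4)
    have e1 : ε / 4 * ((Real.log 4 + 16 * A) * (4 / ε)) = Real.log 4 + 16 * A := by field_simp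
    rwa [e1] at h10
  have h11 : (1 - l / (4 * L) - ε / 2) * K * L ≤
      (1 - ε / 4) * K * (L - Real.log C / 2) - 16 * A * K := by
    have e1 : (1 - l / (4 * L) - ε / 2) * K * L = K * (L - l / 4 - ε / 2 * L) := by
      field_simp
    have e2 : (1 - ε / 4) * K * (L - Real.log C / 2) - 16 * A * K =
        K * (L - Real.log C / 2 - ε / 4 * (L - Real.log C / 2) - 16 * A) := by ring
    rw [e1, e2]
    apply mul_le_mul_of_nonneg_left _ hK0.le
    have hlC0 : 0 ≤ Real.log C := Real.log_nonneg (by exact_mod_cast (by omega : 1 ≤ C))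
    have h12 : 0 ≤ ε / 4 * Real.log C := by positivity
    have h13 : ε / 4 * (L - Real.log C / 2) ≤ ε / 4 * L := by
      apply mul_le_mul_of_nonneg_left _ (by positivity)
      linarith
    linarith
  have h12 := le_of_mul_le_mul_right (h11.trans h8) hL0
  linarith

end Pool.Agent.T9h59.SR
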