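import Mathlib
import Pool.Agent.T9h59.SR.Asym2
import Pool.Agent.T9h80.SR.Q3
import Pool.Agent.T9h80.SR.Q4
import Pool.Agent.H332R2.BernSize

set_option autoImplicit false

namespace Pool.Agent.T9h59.SR

open Finset Filter Pool.Agent.T9h80.SR Pool.Agent.T9h29.NR

/-- at least `(1 - log K / (4 log p) - ε) K` numbers `k ≤ K` are sums of two regular indices -/
theorem sums_ge2 (ε : ℝ) (hε : 0 < ε) :
    ∃ K₀ : ℕ, ∀ (p : ℕ) [Fact p.Prime] (K : ℕ), K₀ ≤ K → 2 * K + 3 ≤ p →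
      (1 - Real.log K / (4 * Real.log p) - ε) * K ≤ #(Sums p K) := by
  obtain ⟨K₀, h⟩ := SS_ge2 ε hε
  refine ⟨K₀, fun p _ K hK hKp => ?_⟩
  have h1 := h p K hK hKp
  have h2 : (#(SS p K) : ℝ) ≤ #(Sums p K) + 2 := by
    exact_mod_cast SS_le p K hKp
  linarith

theorem sums_ge34 (ε : ℝ) (hε : 0 < ε) :
    ∃ K₀ : ℕ, ∀ (p : ℕ) [Fact p.Prime] (K : ℕ), K₀ ≤ K → 2 * K + 3 ≤ p →
      (3 / 4 - ε) * K ≤ #(Sums p K) := by
  obtain ⟨K₀, h⟩ := sums_ge2 ε hε
  refine ⟨max K₀ 2, fun p _ K hK hKp => ?_⟩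
  have h1 := h p K ((le_max_left _ _).trans hK) hKp
  have hK2 : 2 ≤ K := (le_max_right _ _).trans hK
  have hK0 : (0 : ℝ) < K := by exact_mod_cast (by omega : 0 < K)
  have hl : Real.log K / (4 * Real.log p) ≤ 1 / 4 := by
    have hlK : Real.log K ≤ Real.log p :=
      Real.log_le_log hK0 (by exact_mod_cast (by omega : K ≤ p))
    have hl0 : 0 < Real.log K := Real.log_pos (by exact_mod_cast (by omega : 1 < K))
    rw [div_le_iff₀ (by linarith)]
    linarith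
  have : (3 / 4 - ε) * K ≤ (1 - Real.log K / (4 * Real.log p) - ε) * K :=
    mul_le_mul_of_nonneg_right (by linarith) hK0.le
  linarith

/-- the number of the regular indices -/
theorem reg_ge2 :
    ∃ K₀ : ℕ, ∀ (p : ℕ) [Fact p.Prime] (K : ℕ), K₀ ≤ K → 2 * K + 3 ≤ p →
      (K : ℝ) ^ (3 / 4 : ℝ) ≤ 2 * #(Reg p K) := by
  obtain ⟨K₀, h⟩ := sums_ge34 (11 / 400) (by norm_num)
  refine ⟨max K₀ 10000, fun p _ K hK hKp => ?_⟩
  have h1 := h p K ((le_max_left _ _).trans hK) hKp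
  have hK1 : 10000 ≤ K := (le_max_right _ _).trans hK
  have hK1' : (10000 : ℝ) ≤ K := by exact_mod_cast hK1
  have hK0 : (0 : ℝ) < K := by linarith
  have h2 := count_sq p K hKp
  set S := (#(Sums p K) : ℝ) with hS
  set N := (#(Reg p K) : ℝ) with hN
  have hS1 : ((17 / 20 : ℝ) ^ 2) * K ≤ S := by
    norm_num at h1 ⊢
    exact h1
  have hSK : S ≤ K := by
    have : #(Sums p K) ≤ K := by
      have h3 : Sums p K ⊆ Icc 1 K := by
        intro k hk
        rw [mem_Sums] at hk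
        rw [mem_Icc]
        exact hk.1
      have h4 := card_le_card h3
      rw [Nat.card_Icc, Nat.add_sub_cancel] at h4
      exact h4
    rw [hS]
    exact_mod_cast this
  -- powers
  set x := Real.sqrt K with hx
  have hx0 : 0 ≤ x := Real.sqrt_nonneg _
  have hx2 : x ^ 2 = K := Real.sq_sqrt hK0.le
  have hx100 : 100 ≤ x := by
    apply Real.le_sqrt_of_sq_le
    norm_num
    exact hK1
  have h32 : (K : ℝ) ^ (3 / 2 : ℝ) = K * x := by
    rw [hx, Real.sqrt_eq_rpow, ← Real.rpow_one_add' hK0.le (by norm_num)]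
    norm_num
  have hS32 : ((17 / 20 : ℝ) ^ 3) * (K * x) ≤ S ^ (3 / 2 : ℝ) := by
    have h3 : (((17 / 20 : ℝ) ^ 2) * K) ^ (3 / 2 : ℝ) ≤ S ^ (3 / 2 : ℝ) :=
      Real.rpow_le_rpow (by positivity) hS1 (by norm_num)
    rw [Real.mul_rpow (by norm_num) hK0.le, h32] at h3
    have h4 : ((17 / 20 : ℝ) ^ 2) ^ (3 / 2 : ℝ) = (17 / 20) ^ 3 := by
      rw [← Real.rpow_natCast (17 / 20 : ℝ) 2, ← Real.rpow_mul (by norm_num),
        ← Real.rpow_natCast (17 / 20 : ℝ) 3]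
      norm_num
    rw [h4] at h3
    exact h3
  have hN2 : (K : ℝ) * x / 4 ≤ N ^ 2 := by
    have h6 : (K : ℝ) * 100 ≤ K * x := mul_le_mul_of_nonneg_left hx100 hK0.le
    norm_num at hS32
    nlinarith
  have h34 : ((K : ℝ) ^ (3 / 4 : ℝ)) ^ 2 = K * x := by
    rw [← Real.rpow_natCast, ← Real.rpow_mul hK0.le, ← h32]
    norm_num
  have hN0 : 0 ≤ N := by rw [hN]; positivity
  have h7 : ((K : ℝ) ^ (3 / 4 : ℝ)) ^ 2 ≤ (2 * N) ^ 2 := by
    rw [h34]
    nlinarith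
  exact le_of_sq_le_sq h7 (by positivity)

/-! ### Four regular indices -/

open Classical in
/-- the representations of `k` by four regular indices -/
noncomputable def Quad (p k : ℕ) : Finset (Fin 4 → ℕ) :=
  (Fintype.piFinset (fun _ : Fin 4 => Icc 1 k)).filter (fun x =>
    (∀ i, ¬ ((p : ℤ) ∣ (_root_.bernoulli (2 * x i)).num)) ∧ ∑ i, x i = k)

theorem mem_Quad {p k : ℕ} {x : Fin 4 → ℕ} : x ∈ Quad p k ↔
    (∀ i, 1 ≤ x i ∧ ¬ ((p : ℤ) ∣ (_root_.bernoulli (2 * x i)).num)) ∧ ∑ i, x i = k := by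
  unfold Quad
  rw [mem_filter, Fintype.mem_piFinset]
  simp only [mem_Icc]
  constructor
  · rintro ⟨h1, h2, h3⟩
    exact ⟨fun i => ⟨(h1 i).1, h2 i⟩, h3⟩
  · rintro ⟨h1, h2⟩
    refine ⟨fun i => ⟨(h1 i).1, ?_⟩, fun i => (h1 i).2, h2⟩
    rw [← h2]
    exact Finset.single_le_sum (f := x) (fun _ _ => Nat.zero_le _) (mem_univ i)

/-- the `s` for which `s` and `k - s` are sums of two regular indices, not too small -/
noncomputable def XX (p k : ℕ) : Finset ℕ :=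
  ((Icc 1 k).filter (fun s => k ≤ 10 * s ∧ k ≤ 10 * (k - s))) ∩
    (Sums p k ∩ (Sums p k).image (fun s => k - s))

theorem card_XX (p k : ℕ) (hk : 2 ≤ k) :
    2 * (#(Sums p k) : ℝ) - 2 * k + (4 / 5 * k - 9 / 5) - 1 ≤ #(XX p k) := by
  classical
  set A := Sums p k with hA
  set J := (Icc 1 k).filter (fun s => k ≤ 10 * s ∧ k ≤ 10 * (k - s)) with hJ
  have hAk : A ⊆ Icc 1 k := by
    intro s hs
    rw [hA, mem_Sums] at hs
    rw [mem_Icc]
    exact hs.1
  have hJcard : 4 / 5 * (k : ℝ) - 9 / 5 ≤ #J := by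
    have h1 : Icc ((k + 9) / 10) (k - (k + 9) / 10) ⊆ J := by
      intro s hs
      rw [mem_Icc] at hs
      rw [hJ, mem_filter, mem_Icc]
      omega
    have h2 := card_le_card h1
    rw [Nat.card_Icc] at h2
    have h3 : 4 * k ≤ 5 * (k - (k + 9) / 10 + 1 - (k + 9) / 10) + 9 := by omega
    have h4 : 4 * k ≤ 5 * #J + 9 := by omega
    have h5 : (4 : ℝ) * k ≤ 5 * #J + 9 := by exact_mod_cast h4
    linarith
  -- the images
  have hA' : #(A.image (fun s => k - s)) = #A := by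
    apply card_image_of_injOn
    intro s hs t ht hst
    have h1 := mem_Icc.1 (hAk hs)
    have h2 := mem_Icc.1 (hAk ht)
    simp only at hst
    omega
  -- `J ∩ A` and `J ∩ A'`
  have hU1 : J ∪ A ⊆ Icc 1 k := union_subset (filter_subset _ _) hAk
  have hU2 : J ∪ A.image (fun s => k - s) ⊆ Icc 0 k := by
    apply union_subset
    · intro s hs
      rw [hJ, mem_filter, mem_Icc] at hs
      rw [mem_Icc]
      omega
    · intro s hs
      rw [mem_image] at hs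
      obtain ⟨t, -, rfl⟩ := hs
      rw [mem_Icc]
      omega
  have c1 := card_union_add_card_inter J A
  have c2 := card_union_add_card_inter J (A.image (fun s => k - s))
  have c3 := card_le_card hU1
  have c4 := card_le_card hU2
  rw [Nat.card_Icc] at c3 c4
  have c5 := card_union_add_card_inter (J ∩ A) (J ∩ A.image (fun s => k - s))
  have c6 : #((J ∩ A) ∪ (J ∩ A.image (fun s => k - s))) ≤ #J :=
    card_le_card (union_subset inter_subset_left inter_subset_left)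
  have c7 : (J ∩ A) ∩ (J ∩ A.image (fun s => k - s)) = XX p k := by
    unfold XX
    rw [← hJ, ← hA]
    ext s
    simp only [mem_inter]
    tauto
  rw [c7] at c5
  rw [hA'] at c2
  have h8 : 2 * #A + #J ≤ #(XX p k) + 2 * k + 1 := by omega
  have h9 : 2 * (#A : ℝ) + #J ≤ #(XX p k) + 2 * k + 1 := by exact_mod_cast h8
  linarith

theorem mem_XX {p k s : ℕ} (hs : s ∈ XX p k) : 1 ≤ s ∧ s < k ∧ k ≤ 10 * s ∧ k ≤ 10 * (k - s) ∧
    s ∈ Sums p k ∧ k - s ∈ Sums p k := by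
  unfold XX at hs
  rw [mem_inter, mem_inter, mem_filter, mem_Icc, mem_image] at hs
  obtain ⟨⟨h1, h2, h3⟩, h4, t, h5, h6⟩ := hs
  have h7 := (mem_Sums.1 h5).1
  have e : k - s = t := by omega
  refine ⟨h1.1, by omega, h2, h3, h4, ?_⟩
  rw [e]
  exact h5

theorem rk_ge {p : ℕ} [hp : Fact p.Prime] {K k : ℕ} (hK : 2 * K + 3 ≤ p) (hk : k ∈ Sums p K) :
    (2 / 3 : ℝ) * Real.sqrt k - 1 / 2 ≤ #(Rk p k) := by
  rw [mem_Sums] at hk
  obtain ⟨⟨h1, h2⟩, i, j, hi, hj, hij, h3, h4⟩ := hk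
  apply rep_bound
  apply pairs k (by omega) (by omega)
  refine ⟨i, ?_⟩
  rw [Rk, mem_filter, mem_Ioo]
  refine ⟨⟨by omega, by omega⟩, h3, ?_⟩
  have : k - i = j := by omega
  rw [this]
  exact h4

theorem sum_XX (p k : ℕ) : ∑ s ∈ XX p k, #(Rk p s) * #(Rk p (k - s)) ≤ #(Quad p k) := by
  classical
  have e1 : ∑ s ∈ XX p k, #(Rk p s) * #(Rk p (k - s)) =
      #((XX p k).sigma (fun s => Rk p s ×ˢ Rk p (k - s))) := by
    rw [card_sigma]
    exact sum_congr rfl (fun s _ => (card_product _ _).symm)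
  rw [e1]
  refine card_le_card_of_injOn (fun q => ![q.2.1, q.1 - q.2.1, q.2.2, k - q.1 - q.2.2]) ?_ ?_
  · rintro ⟨s, i, j⟩ hq
    rw [mem_coe, mem_sigma, mem_product] at hq
    simp only at hq
    obtain ⟨hs, hi, hj⟩ := hq
    obtain ⟨h1, h2, -, -, -, -⟩ := mem_XX hs
    rw [Rk, mem_filter, mem_Ioo] at hi hj
    rw [mem_coe, mem_Quad]
    refine ⟨?_, ?_⟩
    · intro t
      fin_cases t
      · exact ⟨hi.1.1, hi.2.1⟩
      · refine ⟨?_, hi.2.2⟩
        show 1 ≤ s - i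
        omega
      · exact ⟨hj.1.1, hj.2.1⟩
      · refine ⟨?_, hj.2.2⟩
        show 1 ≤ k - s - j
        omega
    · simp only [Fin.sum_univ_four, Matrix.cons_val]
      omega
  · rintro ⟨s, i, j⟩ hq ⟨s', i', j'⟩ hq' h
    rw [mem_coe, mem_sigma, mem_product] at hq hq'
    simp only at hq hq'
    obtain ⟨hs, hi, hj⟩ := hq
    obtain ⟨hs', hi', hj'⟩ := hq'
    rw [Rk, mem_filter, mem_Ioo] at hi hi'
    have h0 := congrFun h 0
    have h1 := congrFun h 1
    have h2 := congrFun h 2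
    simp only [Matrix.cons_val] at h0 h1 h2
    have e2 : i = i' := h0
    have e3 : j = j' := h2
    have e4 : s = s' := by omega
    subst e2
    subst e3
    subst e4
    rfl

theorem quad_large : ∃ k₀ : ℕ, ∀ (p : ℕ) [Fact p.Prime] (k : ℕ), k₀ ≤ k → 2 * k + 3 ≤ p →
    (k : ℝ) ^ 2 / 30 ≤ #(Quad p k) := by
  obtain ⟨K₀, h⟩ := sums_ge34 (1 / 100) (by norm_num)
  refine ⟨max K₀ 40000, fun p hp k hk hkp => ?_⟩
  have h1 := h p k ((le_max_left _ _).trans hk) hkp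
  have hk1 : 40000 ≤ k := (le_max_right _ _).trans hk
  have hk1' : (40000 : ℝ) ≤ k := by exact_mod_cast hk1
  have hX := card_XX p k (by omega)
  have hX1 : (28 / 100 : ℝ) * k - 14 / 5 ≤ #(XX p k) := by linarith
  set x := Real.sqrt k with hx
  have hx0 : 0 ≤ x := Real.sqrt_nonneg _
  have hx2 : x ^ 2 = k := Real.sq_sqrt (by positivity)
  have hx200 : 200 ≤ x := by
    apply Real.le_sqrt_of_sq_le
    norm_num
    exact hk1
  have hterm : ∀ s ∈ XX p k, (2 / 15 : ℝ) * k - 2 / 3 * x ≤ ((#(Rk p s) * #(Rk p (k - s)) : ℕ) : ℝ) := by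
    intro s hs
    obtain ⟨h2, h3, h4, h5, h6, h7⟩ := mem_XX hs
    have r1 := rk_ge hkp h6
    have r2 := rk_ge hkp h7
    have hks : ((k - s : ℕ) : ℝ) = (k : ℝ) - s := by
      rw [Nat.cast_sub h3.le]
    rw [hks] at r2
    have h4' : (k : ℝ) ≤ 10 * s := by exact_mod_cast h4
    have h5' : (k : ℝ) ≤ 10 * ((k : ℝ) - s) := by
      rw [← hks]
      exact_mod_cast h5
    have hs0 : (0 : ℝ) < s := by linarith
    have hks0 : (0 : ℝ) < (k : ℝ) - s := by linarith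
    set a := Real.sqrt s with ha
    set b := Real.sqrt ((k : ℝ) - s) with hb
    have ha2 : a ^ 2 = s := Real.sq_sqrt hs0.le
    have hb2 : b ^ 2 = (k : ℝ) - s := Real.sq_sqrt hks0.le
    have ha0 : 0 ≤ a := Real.sqrt_nonneg _
    have hb0 : 0 ≤ b := Real.sqrt_nonneg _
    have hax : a ≤ x := Real.sqrt_le_sqrt (by linarith)
    have hbx : b ≤ x := Real.sqrt_le_sqrt (by linarith)
    have ha10 : 1 ≤ a := by
      by_contra hcon
      push Not at hcon
      nlinarith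
    have hb10 : 1 ≤ b := by
      by_contra hcon
      push Not at hcon
      nlinarith
    have hab : (3 / 10 : ℝ) * k ≤ a * b := by
      have h8 : ((3 / 10 : ℝ) * k) ^ 2 ≤ (a * b) ^ 2 := by
        rw [mul_pow a b, ha2, hb2]
        nlinarith
      exact le_of_sq_le_sq h8 (by positivity)
    have hmul : ((2 / 3 : ℝ) * a - 1 / 2) * ((2 / 3 : ℝ) * b - 1 / 2) ≤
        (#(Rk p s) : ℝ) * (#(Rk p (k - s)) : ℝ) :=
      mul_le_mul r1 r2 (by linarith) (Nat.cast_nonneg _)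
    push_cast
    nlinarith
  have hsum : (#(XX p k) : ℝ) * ((2 / 15 : ℝ) * k - 2 / 3 * x) ≤ #(Quad p k) := by
    have h2 : ((∑ s ∈ XX p k, #(Rk p s) * #(Rk p (k - s)) : ℕ) : ℝ) ≤ #(Quad p k) := by
      exact_mod_cast sum_XX p k
    refine le_trans ?_ h2
    rw [Nat.cast_sum, ← nsmul_eq_mul, ← sum_const]
    exact sum_le_sum hterm
  have hxk : x * 200 ≤ k := by nlinarith
  have h9 : (13 / 100 : ℝ) * k ≤ (2 / 15 : ℝ) * k - 2 / 3 * x := by linarith
  have h10 : (27 / 100 : ℝ) * k ≤ #(XX p k) := by linarith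
  have h11 : ((27 / 100 : ℝ) * k) * ((13 / 100 : ℝ) * k) ≤
      (#(XX p k) : ℝ) * ((2 / 15 : ℝ) * k - 2 / 3 * x) :=
    mul_le_mul h10 h9 (by positivity) (Nat.cast_nonneg _)
  nlinarith

theorem quad_small (p k : ℕ) (hk : 4 ≤ k)
    (hreg : ∀ i, 1 ≤ i → i < k → ¬ ((p : ℤ) ∣ (_root_.bernoulli (2 * i)).num)) :
    (k : ℝ) ^ 2 / 30 ≤ #(Quad p k) := by
  classical
  set m := (k - 2) / 2 with hm
  have h1 : #((Icc 1 m) ×ˢ (Icc 1 m)) ≤ #(Quad p k) := by
    refine card_le_card_of_injOn (fun q => ![q.1, q.2, 1, k - 1 - q.1 - q.2]) ?_ ?_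
    · rintro ⟨a, b⟩ hq
      rw [mem_coe, mem_product, mem_Icc, mem_Icc] at hq
      simp only at hq
      rw [mem_coe, mem_Quad]
      refine ⟨?_, ?_⟩
      · intro t
        fin_cases t
        · exact ⟨hq.1.1, hreg a hq.1.1 (by omega)⟩
        · exact ⟨hq.2.1, hreg b hq.2.1 (by omega)⟩
        · exact ⟨le_rfl, hreg 1 le_rfl (by omega)⟩
        · refine ⟨?_, hreg _ ?_ ?_⟩
          · show 1 ≤ k - 1 - a - b
            omega
          · show 1 ≤ k - 1 - a - b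
            omega
          · show k - 1 - a - b < k
            omega
      · simp only [Fin.sum_univ_four, Matrix.cons_val]
        omega
    · rintro ⟨a, b⟩ hq ⟨a', b'⟩ hq' h
      have h0 := congrFun h 0
      have h1 := congrFun h 1
      simp only [Matrix.cons_val] at h0 h1
      rw [Prod.mk.injEq]
      exact ⟨h0, h1⟩
  rw [card_product, Nat.card_Icc, Nat.add_sub_cancel] at h1
  have h2 : ((m * m : ℕ) : ℝ) ≤ #(Quad p k) := by exact_mod_cast h1
  refine le_trans ?_ h2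
  have h3 : k ≤ 2 * m + 3 := by omega
  have h4 : 1 ≤ m := by omega
  have h3' : (k : ℝ) ≤ 2 * m + 3 := by exact_mod_cast h3
  have h4' : (1 : ℝ) ≤ m := by exact_mod_cast h4
  have h5 : (k : ℝ) ≤ 5 * m := by linarith
  push_cast
  have hk0 : (0 : ℝ) ≤ k := Nat.cast_nonneg _
  nlinarith

theorem small_regular (k₀ : ℕ) : ∃ P : ℕ, ∀ p : ℕ, P ≤ p → ∀ i, 1 ≤ i → i < k₀ →
    ¬ ((p : ℤ) ∣ (_root_.bernoulli (2 * i)).num) := by
  refine ⟨∑ i ∈ range k₀, (_root_.bernoulli (2 * i)).num.natAbs + 1, fun p hp i h1 h2 hdvd => ?_⟩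
  have h3 : (_root_.bernoulli (2 * i)).num.natAbs ≤
      ∑ i ∈ range k₀, (_root_.bernoulli (2 * i)).num.natAbs :=
    Finset.single_le_sum (f := fun i => (_root_.bernoulli (2 * i)).num.natAbs)
      (fun _ _ => Nat.zero_le _) (mem_range.2 h2)
  have h4 : (_root_.bernoulli (2 * i)).num ≠ 0 := by
    rw [Rat.num_ne_zero]
    exact Pool.Agent.H332R2.bern_ne_zero i
  have h5 : p ∣ (_root_.bernoulli (2 * i)).num.natAbs := Int.natCast_dvd.1 hdvd
  have h6 := Nat.le_of_dvd (Int.natAbs_pos.2 h4) h5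
  omega

end Pool.Agent.T9h59.SR
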