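import Mathlib
import Pool.Agent.T9h59.SR.Count2

/-!
Definitions for sums of three regular indices.
-/

set_option autoImplicit false

namespace Pool.Agent.T9h59.SR

open Finset Pool.Agent.H332R2

/-- pairs of multiples with a small common divisor -/
def PB (G e : ℕ) : Finset (ℕ × ℕ) :=
  ((B e) ×ˢ (Finset.Ico 1 e)).filter (fun x => Nat.Coprime x.2 e ∧ Nat.gcd x.1 x.2 ≤ G)

theorem mem_PB {G e : ℕ} {x : ℕ × ℕ} : x ∈ PB G e ↔
    (x.1 ∈ B e ∧ 1 ≤ x.2 ∧ x.2 < e) ∧ Nat.Coprime x.2 e ∧ Nat.gcd x.1 x.2 ≤ G := by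
  unfold PB
  rw [mem_filter, mem_product, mem_Ico]

/-- the relations modulo `p` between the products of two cotangents at the primitive `e`-th roots of
unity -/
noncomputable def Ker3 (p : ℕ) [Fact p.Prime] (G e : ℕ) : Submodule (ZMod p) (PB G e → ZMod p) where
  carrier := {l | ∀ ζ : AlgebraicClosure (ZMod p), IsPrimitiveRoot ζ e →
      ∑ x : PB G e, algebraMap (ZMod p) (AlgebraicClosure (ZMod p)) (l x) *
        (ct (ζ ^ x.1.1) * ct (ζ ^ x.1.2)) = 0}
  add_mem' := by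
    intro x y hx hy ζ hζ
    have h1 := hx ζ hζ
    have h2 := hy ζ hζ
    simp only [Pi.add_apply, map_add, add_mul, sum_add_distrib]
    rw [h1, h2, add_zero]
  zero_mem' := by
    intro ζ _
    simp
  smul_mem' := by
    intro c x hx ζ hζ
    have h1 := hx ζ hζ
    simp only [Pi.smul_apply, smul_eq_mul, map_mul, mul_assoc] at h1 ⊢
    rw [← mul_sum, h1, mul_zero]

/-- (D1) Frobenius descent: the rank over the algebraic closure is the rank over `F_p`
(if `∑ c_b ct (ζ^b) = 0` is a shortest relation with `c_{b0} = 1` then so is its `p`-th power, so the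
`c_b` are in `F_p`) -/
def StD1 : Prop := ∀ (p : ℕ) [Fact p.Prime] (e : ℕ), 3 ≤ e → e < p →
    #(B e) ≤ Module.finrank (ZMod p) (Ker p e) +
      Module.finrank (AlgebraicClosure (ZMod p)) (Submodule.span (AlgebraicClosure (ZMod p))
        (Set.range (fun b : B e => fun ζ : {ζ : AlgebraicClosure (ZMod p) // IsPrimitiveRoot ζ e} =>
          ct ((ζ : AlgebraicClosure (ZMod p)) ^ (b : ℕ)))))

/-- (D2) products of translates of an odd function -/
def StD2 : Prop := ∀ (G : Type) [CommGroup G] [Fintype G] (m : G) (F : Type) [Field F] [IsAlgClosed F]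
    (κ : G → F), m ≠ 1 → m * m = 1 → (Fintype.card G : F) ≠ 0 → (∀ a, κ (m * a) = - κ a) →
    Fintype.card G < 4 * Module.finrank F (Submodule.span F (Set.range (fun b : G => fun s : G => κ (s * b)))) →
    Fintype.card G ≤ 2 * Module.finrank F (Submodule.span F
      (Set.range (fun x : G × G => fun s : G => κ (s * x.1) * κ (s * x.2))))

/-- (D3) from `StD1`, `StD2`: the products of two cotangents have full rank. (`G ^ 2 ≥ e / 2`: for
`b`, `b'` prime to `e` the numbers `gcd (b, b')` and `gcd (b, e - b')` are coprime divisors of `b`, so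
one of them is at most `√b`, and `ct (ζ^(e - b')) = - ct (ζ^b')`) -/
def StD3 : Prop := ∀ (p : ℕ) [Fact p.Prime] (G e : ℕ), 3 ≤ e → e < p → e ≤ 2 * G ^ 2 →
    2 * Module.finrank (ZMod p) (Ker p e) < #(B e) →
    Module.finrank (ZMod p) (Ker3 p G e) + #(B e) ≤ #(PB G e)

/-- (T1) -/
def StT1 : Prop := ∀ δ : ℝ, 0 < δ → ∃ A : ℝ, ∀ e : ℕ, 1 ≤ e →
    ∑ ℓ ∈ e.primeFactors, ((e / ℓ : ℕ) : ℝ) * Real.log ℓ ≤ Nat.totient e * (δ * Real.log e + A)

/-- the coefficient of `x ^ (2 s)` in `F(e x) F(b x) F(b' x)` modulo `p` -/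
noncomputable def M3 (p : ℕ) [Fact p.Prime] (s e b b' : ℕ) : ZMod p :=
  ∑ i ∈ range (s + 1), (cc p (2 * i) * (e : ZMod p) ^ (2 * i)) * M p (s - i) b b'

open Classical in
/-- the numbers `s ≤ K` which are sums of three numbers `i` with `p ∤ B_{2 i}` -/
noncomputable def SS3 (p : ℕ) [Fact p.Prime] (K : ℕ) : Finset ℕ :=
  (range (K + 1)).filter (fun s => ∃ i j l, i + j + l = s ∧ cc p (2 * i) ≠ 0 ∧ cc p (2 * j) ≠ 0 ∧
    cc p (2 * l) ≠ 0)

/-- (T6) `SS3` and sums of three regular indices (see `T9h80/SR/Q3.lean`) -/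
def StT6 : Prop := ∀ (p : ℕ) [Fact p.Prime] (K : ℕ), 2 * K + 3 ≤ p → ∀ s ∈ SS3 p K, 3 ≤ s →
    ∃ i j l : ℕ, 1 ≤ i ∧ 1 ≤ j ∧ 1 ≤ l ∧ i + j + l = s ∧
      ¬ ((p : ℤ) ∣ (_root_.bernoulli (2 * i)).num) ∧ ¬ ((p : ℤ) ∣ (_root_.bernoulli (2 * j)).num) ∧
      ¬ ((p : ℤ) ∣ (_root_.bernoulli (2 * l)).num)

end Pool.Agent.T9h59.SR
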