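import Mathlib
import Pool.Agent.T9h59.SR.Cyc
import Pool.Agent.T9h59.SR.Alg
import Pool.Agent.T9h59.SR.Tri

set_option autoImplicit false

namespace Pool.Agent.T9h59.SR

open Finset Polynomial Pool.Agent.H332R2 Pool.Agent.H582R5.RP

/-- the common denominator `(t - 1)^3 ∏_{2 ≤ f ≤ C} Φ_f ∏_{2 ≤ f ≤ G} Φ_f` -/
noncomputable def DD3 (R : Type*) [CommRing R] (C G : ℕ) : R[X] :=
  (X - 1) * DD R C * ∏ f ∈ Icc 2 G, cyclotomic f R

/-- `D / ((t^e - 1) (t^b - 1) (t^b' - 1))` -/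
noncomputable def QQ3 (R : Type*) [CommRing R] (C G e b b' : ℕ) : R[X] :=
  (∏ f ∈ (Icc 2 C).filter (fun f => (¬ f ∣ e ∧ ¬ f ∣ b) ∧ ¬ f ∣ b'), cyclotomic f R) *
  ∏ f ∈ (Icc 2 G).filter (fun f => ¬ (f ∣ b ∧ f ∣ b')), cyclotomic f R

theorem QQ3_step (R : Type*) [CommRing R] (C G e b b' : ℕ) (hGC : G ≤ C)
    (hb : 1 ≤ b) (hb' : 1 ≤ b') (hbC' : b' ≤ C) (hc' : Nat.Coprime b' e)
    (hg : Nat.gcd b b' ≤ G) :
    (X - 1) * QQ R C e b * ∏ f ∈ Icc 2 G, cyclotomic f R = QQ3 R C G e b b' * (X ^ b' - 1) := by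
  classical
  rw [← geom_cyc R b' C hb' hbC']
  unfold QQ3 QQ
  rw [← prod_filter_mul_prod_filter_not ((Icc 2 C).filter (fun f => ¬ f ∣ e ∧ ¬ f ∣ b)) (fun f => f ∣ b'),
    filter_filter, filter_filter,
    ← prod_filter_mul_prod_filter_not (Icc 2 G) (fun f => f ∣ b ∧ f ∣ b'),
    ← prod_filter_mul_prod_filter_not ((Icc 2 C).filter (fun f => f ∣ b')) (fun f => f ∣ b),
    filter_filter, filter_filter]
  have e1 : (Icc 2 C).filter (fun f => (¬ f ∣ e ∧ ¬ f ∣ b) ∧ f ∣ b') =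
      (Icc 2 C).filter (fun f => f ∣ b' ∧ ¬ f ∣ b) := by
    ext f
    rw [mem_filter, mem_filter, mem_Icc]
    constructor
    · rintro ⟨h1, ⟨h2, h3⟩, h4⟩
      exact ⟨h1, h4, h3⟩
    · rintro ⟨h1, h4, h3⟩
      refine ⟨h1, ⟨?_, h3⟩, h4⟩
      intro h5
      have h6 := Nat.dvd_gcd h4 h5
      rw [hc'] at h6
      have := Nat.le_of_dvd one_pos h6
      omega
  have e2 : (Icc 2 G).filter (fun f => f ∣ b ∧ f ∣ b') = (Icc 2 C).filter (fun f => f ∣ b' ∧ f ∣ b) := by
    ext f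
    rw [mem_filter, mem_filter, mem_Icc, mem_Icc]
    constructor
    · rintro ⟨h1, h2, h3⟩
      exact ⟨⟨h1.1, by omega⟩, h3, h2⟩
    · rintro ⟨h1, h2, h3⟩
      have h4 := Nat.le_of_dvd (Nat.gcd_pos_of_pos_left _ (by omega)) (Nat.dvd_gcd h3 h2)
      exact ⟨⟨h1.1, by omega⟩, h3, h2⟩
  rw [e1, e2]
  ring

theorem QQ3_mul (R : Type*) [CommRing R] (C G e b b' : ℕ) (hGC : G ≤ C) (he : 1 ≤ e) (heC : e ≤ C)
    (hb : 1 ≤ b) (hbC : b ≤ C) (hc : Nat.Coprime b e) (hb' : 1 ≤ b') (hbC' : b' ≤ C)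
    (hc' : Nat.Coprime b' e) (hg : Nat.gcd b b' ≤ G) :
    QQ3 R C G e b b' * ((X ^ e - 1) * (X ^ b - 1) * (X ^ b' - 1)) = DD3 R C G := by
  have h1 := QQ3_step R C G e b b' hGC hb hb' hbC' hc' hg
  have h2 := QQ_mul R C e b he heC hb hbC hc
  unfold DD3
  rw [← h2]
  linear_combination (-(X ^ e - 1) * (X ^ b - 1)) * h1

theorem QQ3_mul_LL (R : Type*) [CommRing R] (C G e b b' : ℕ) (hGC : G ≤ C)
    (hb : 1 ≤ b) (hbC : b ≤ C) (hc : Nat.Coprime b e) (hb' : 1 ≤ b') (hbC' : b' ≤ C)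
    (hc' : Nat.Coprime b' e) (hg : Nat.gcd b b' ≤ G) :
    QQ3 R C G e b b' * ((X ^ b - 1) * (X ^ b' - 1)) =
      (X - 1) * LL R C e * ∏ f ∈ Icc 2 G, cyclotomic f R := by
  have h1 := QQ3_step R C G e b b' hGC hb hb' hbC' hc' hg
  have h2 := QQ_mul_LL R C e b hb hbC hc
  rw [← h2]
  linear_combination (-(X ^ b - 1)) * h1

theorem degree_QQ3 (R : Type*) [CommRing R] [Nontrivial R] (C G e b b' : ℕ) (hG : 1 ≤ G) (hGC : G ≤ C)
    (he : 1 ≤ e) (heC : e ≤ C) (hb : 1 ≤ b) (hbC : b ≤ C) (hc : Nat.Coprime b e) (hb' : 1 ≤ b')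
    (hbC' : b' ≤ C) (hc' : Nat.Coprime b' e) (hg : Nat.gcd b b' ≤ G) :
    (QQ3 R C G e b b' * ((X ^ e + 1) * (X ^ b + 1) * (X ^ b' + 1))).natDegree ≤
      ∑ f ∈ Icc 1 C, Nat.totient f + ∑ f ∈ Icc 1 G, Nat.totient f + 1 := by
  have hm : (QQ3 R C G e b b').Monic := by
    unfold QQ3
    exact (monic_prod_of_monic _ _ (fun f _ => cyclotomic.monic f R)).mul
      (monic_prod_of_monic _ _ (fun f _ => cyclotomic.monic f R))
  have m1 : (X ^ e - 1 : R[X]).Monic := monic_X_pow_sub_C (1 : R) (by omega : e ≠ 0)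
  have m2 : (X ^ b - 1 : R[X]).Monic := monic_X_pow_sub_C (1 : R) (by omega : b ≠ 0)
  have m3 : (X ^ b' - 1 : R[X]).Monic := monic_X_pow_sub_C (1 : R) (by omega : b' ≠ 0)
  have hD : (DD3 R C G).natDegree ≤ ∑ f ∈ Icc 1 C, Nat.totient f + ∑ f ∈ Icc 1 G, Nat.totient f + 1 := by
    have hDD : (DD R C).natDegree ≤ ∑ f ∈ Icc 1 C, Nat.totient f + 1 := by
      unfold DD
      refine natDegree_mul_le.trans ?_
      have e1 : ((X - 1 : R[X]) ^ 2).natDegree ≤ 2 := by
        refine natDegree_pow_le.trans ?_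
        have h2 : (X - 1 : R[X]).natDegree = 1 := natDegree_X_sub_C (1 : R)
        rw [h2]
      have e3 : (∏ f ∈ Icc 2 C, cyclotomic f R).natDegree ≤ ∑ f ∈ Icc 2 C, Nat.totient f := by
        refine (natDegree_prod_le _ _).trans (le_of_eq ?_)
        exact sum_congr rfl (fun f _ => natDegree_cyclotomic f R)
      have e2 : Icc 1 C = insert 1 (Icc 2 C) := by
        ext f
        rw [mem_insert, mem_Icc, mem_Icc]
        omega
      rw [e2, sum_insert (by rw [mem_Icc]; omega), Nat.totient_one]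
      omega
    unfold DD3
    refine natDegree_mul_le.trans ?_
    have e1 : ((X - 1 : R[X]) * DD R C).natDegree ≤ 1 + (∑ f ∈ Icc 1 C, Nat.totient f + 1) := by
      refine natDegree_mul_le.trans ?_
      have h2 : (X - 1 : R[X]).natDegree = 1 := natDegree_X_sub_C (1 : R)
      rw [h2]
      omega
    have e3 : (∏ f ∈ Icc 2 G, cyclotomic f R).natDegree ≤ ∑ f ∈ Icc 2 G, Nat.totient f := by
      refine (natDegree_prod_le _ _).trans (le_of_eq ?_)
      exact sum_congr rfl (fun f _ => natDegree_cyclotomic f R)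
    have e2 : Icc 1 G = insert 1 (Icc 2 G) := by
      ext f
      rw [mem_insert, mem_Icc, mem_Icc]
      omega
    have e4 : ∑ f ∈ Icc 1 G, Nat.totient f = 1 + ∑ f ∈ Icc 2 G, Nat.totient f := by
      rw [e2, sum_insert (by rw [mem_Icc]; omega), Nat.totient_one]
    omega
  have h1 := congrArg natDegree (QQ3_mul R C G e b b' hGC he heC hb hbC hc hb' hbC' hc' hg)
  have hprod : ((X ^ e - 1) * (X ^ b - 1) * (X ^ b' - 1) : R[X]).natDegree = e + b + b' := by
    rw [(m1.mul m2).natDegree_mul m3, m1.natDegree_mul m2]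
    congr 1
    · congr 1
      · exact natDegree_X_pow_sub_C (n := e) (r := (1 : R))
      · exact natDegree_X_pow_sub_C (n := b) (r := (1 : R))
    · exact natDegree_X_pow_sub_C (n := b') (r := (1 : R))
  rw [hm.natDegree_mul ((m1.mul m2).mul m3), hprod] at h1
  refine natDegree_mul_le.trans ?_
  have e4 : ((X ^ e + 1) * (X ^ b + 1) * (X ^ b' + 1) : R[X]).natDegree ≤ e + b + b' := by
    refine natDegree_mul_le.trans (Nat.add_le_add (natDegree_mul_le.trans (Nat.add_le_add ?_ ?_)) ?_)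
    · exact (natDegree_X_pow_add_C (n := e) (r := (1 : R))).le
    · exact (natDegree_X_pow_add_C (n := b) (r := (1 : R))).le
    · exact (natDegree_X_pow_add_C (n := b') (r := (1 : R))).le
  omega

variable {F : Type*} [Field F]

theorem eval_QQ3_lt (C G e e' b b' : ℕ) (hGC : G ≤ C) (he : 2 ≤ e) (heC : e ≤ C) (ζ : F)
    (hζ : IsPrimitiveRoot ζ e)
    (he' : 1 ≤ e') (hlt : e' < e) (hb : 1 ≤ b) (hbe : b < e) (hc : Nat.Coprime b e')
    (hb' : 1 ≤ b') (hbe' : b' < e) (hc' : Nat.Coprime b' e') (hg : Nat.gcd b b' ≤ G) :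
    (QQ3 F C G e' b b').eval ζ = 0 := by
  have h1 := congrArg (eval ζ) (QQ3_mul F C G e' b b' hGC he' (by omega) hb (by omega) hc
    hb' (by omega) hc' hg)
  have h0 : (DD3 F C G).eval ζ = 0 := by
    unfold DD3
    rw [eval_mul, eval_mul, eval_DD_root C e he heC ζ hζ, mul_zero, zero_mul]
  rw [h0, eval_mul, eval_mul, eval_mul] at h1
  rcases mul_eq_zero.1 h1 with h | h
  · exact h
  · exfalso
    rw [eval_sub, eval_sub, eval_sub, eval_pow, eval_pow, eval_pow, eval_X, eval_one] at h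
    rcases mul_eq_zero.1 h with h | h
    · rcases mul_eq_zero.1 h with h | h
      · exact hζ.pow_ne_one_of_pos_of_lt (by omega) hlt (sub_eq_zero.1 h)
      · exact hζ.pow_ne_one_of_pos_of_lt (by omega) hbe (sub_eq_zero.1 h)
    · exact hζ.pow_ne_one_of_pos_of_lt (by omega) hbe' (sub_eq_zero.1 h)

theorem eval_LL3_ne (p : ℕ) [Fact p.Prime] [CharP F p] (C G e : ℕ) (he : 2 ≤ e) (hGe : G < e)
    (heC : e ≤ C) (hCp : C < p) (ζ : F) (hζ : IsPrimitiveRoot ζ e) :
    ((X - 1) * LL F C e * ∏ f ∈ Icc 2 G, cyclotomic f F).eval ζ ≠ 0 := by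
  rw [eval_mul, eval_mul, eval_prod]
  refine mul_ne_zero (mul_ne_zero ?_ (eval_LL_ne p C e he hCp ζ hζ)) ?_
  · rw [eval_sub, eval_X, eval_one, sub_ne_zero]
    exact hζ.ne_one (by omega)
  · rw [prod_ne_zero_iff]
    intro f hf h0
    rw [mem_Icc] at hf
    have h1 : NeZero (f : F) := by
      refine ⟨fun h => ?_⟩
      rw [CharP.cast_eq_zero_iff F p] at h
      have := Nat.le_of_dvd (by omega) h
      omega
    have h2 : IsPrimitiveRoot ζ f := isRoot_cyclotomic_iff.1 h0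
    have h3 := h2.unique hζ
    omega

theorem QQ3_map {p : ℕ} [Fact p.Prime] [Algebra (ZMod p) F] (C G e b b' : ℕ) :
    (QQ3 (ZMod p) C G e b b').map (algebraMap (ZMod p) F) = QQ3 F C G e b b' := by
  unfold QQ3
  rw [Polynomial.map_mul, Polynomial.map_prod, Polynomial.map_prod]
  congr 1
  · refine prod_congr rfl (fun f _ => ?_)
    exact map_cyclotomic f _
  · refine prod_congr rfl (fun f _ => ?_)
    exact map_cyclotomic f _

theorem coeff_YY_mul3 {p : ℕ} [Fact p.Prime] (e b b' n : ℕ) :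
    PowerSeries.coeff n (YY p (e : ZMod p) * (YY p (b : ZMod p) * YY p (b' : ZMod p))) =
      if Even n then M3 p (n / 2) e b b' else 0 := by
  rw [PowerSeries.coeff_mul, Finset.Nat.sum_antidiagonal_eq_sum_range_succ_mk]
  simp only [coeff_YY_mul]
  simp only [YY, PowerSeries.coeff_mk]
  split_ifs with hn
  · obtain ⟨s, rfl⟩ := hn
    have e0 : (s + s) / 2 = s := by omega
    rw [e0]
    unfold M3
    have e1 : ∀ i ∈ range (s + 1), (cc p (2 * i) * (e : ZMod p) ^ (2 * i)) * M p (s - i) b b' =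
        (fun k => (if Even k then cc p k * (e : ZMod p) ^ k else 0) *
          (if Even (s + s - k) then M p ((s + s - k) / 2) b b' else 0)) (2 * i) := by
      intro i hi
      rw [mem_range] at hi
      have e2 : s + s - 2 * i = 2 * (s - i) := by omega
      have e3 : 2 * (s - i) / 2 = s - i := by omega
      simp only [e2, e3, even_two_mul, if_true]
    rw [Finset.sum_congr rfl e1]
    symm
    rw [← Finset.sum_image (f := fun k => (if Even k then cc p k * (e : ZMod p) ^ k else 0) *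
          (if Even (s + s - k) then M p ((s + s - k) / 2) b b' else 0))
          (s := range (s + 1)) (g := fun i => 2 * i) (by
            intro x _ y _ hxy
            simp only at hxy
            omega)]
    refine Finset.sum_subset ?_ ?_
    · intro k hk
      rw [mem_image] at hk
      obtain ⟨i, hi, rfl⟩ := hk
      rw [mem_range] at hi ⊢
      omega
    · intro k hk hk2
      rw [if_neg, zero_mul]
      rintro ⟨i, rfl⟩
      apply hk2
      rw [mem_image]
      rw [mem_range] at hk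
      exact ⟨i, by rw [mem_range]; omega, by omega⟩
  · apply Finset.sum_eq_zero
    intro k hk
    rw [mem_range] at hk
    by_cases h1 : Even k
    · rw [if_neg (c := Even (n - k)), mul_zero]
      intro h2
      apply hn
      have := h1.add h2
      rwa [Nat.add_sub_cancel' (by omega)] at this
    · rw [if_neg h1, zero_mul]

end Pool.Agent.T9h59.SR
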