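import Mathlib
import Pool.Agent.T9h59.SR.Cyc3

set_option autoImplicit false

namespace Pool.Agent.T9h59.SR

open Finset Polynomial Pool.Agent.H332R2 Pool.Agent.H582R5.RP

variable {p : ℕ} [hp : Fact p.Prime]

/-- the numerator of the combination of the products of three functions `coth` -/
noncomputable def PP3 (p : ℕ) [Fact p.Prime] (C G e : ℕ) (μ : ℕ → ℕ × ℕ → ZMod p) : (ZMod p)[X] :=
  ∑ e' ∈ Ioc G e, ∑ x ∈ PB G e', Polynomial.C (μ e' x * (((e' : ZMod p) / 2) *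
    ((x.1 : ZMod p) / 2) * ((x.2 : ZMod p) / 2))) *
    (QQ3 (ZMod p) C G e' x.1 x.2 * ((X ^ e' + 1) * (X ^ x.1 + 1) * (X ^ x.2 + 1)))

theorem PB_lt {G e : ℕ} {x : ℕ × ℕ} (hx : x ∈ PB G e) (he : 3 ≤ e) : 1 ≤ x.1 ∧ x.1 < e ∧
    Nat.Coprime x.1 e ∧ 1 ≤ x.2 ∧ x.2 < e ∧ Nat.Coprime x.2 e ∧ Nat.gcd x.1 x.2 ≤ G := by
  rw [mem_PB] at hx
  obtain ⟨h1, h2, h3⟩ := B_lt hx.1.1 he
  exact ⟨h1, h2, h3, hx.1.2.1, hx.1.2.2, hx.2.1, hx.2.2⟩

theorem natDegree_PP3 (C G e : ℕ) (hG : 2 ≤ G) (hGC : G ≤ C) (heC : e ≤ C)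
    (μ : ℕ → ℕ × ℕ → ZMod p) :
    (PP3 p C G e μ).natDegree ≤ ∑ f ∈ Icc 1 C, Nat.totient f + ∑ f ∈ Icc 1 G, Nat.totient f + 1 := by
  unfold PP3
  refine natDegree_sum_le_of_forall_le _ _ (fun e' he' => ?_)
  rw [mem_Ioc] at he'
  refine natDegree_sum_le_of_forall_le _ _ (fun x hx => ?_)
  obtain ⟨h1, h2, h3, h4, h5, h6, h7⟩ := PB_lt hx (by omega)
  exact (natDegree_C_mul_le _ _).trans
    (degree_QQ3 (ZMod p) C G e' x.1 x.2 (by omega) hGC (by omega) (by omega) h1 (by omega) h3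
      h4 (by omega) h6 h7)

theorem PP3_rel (h3 : 3 ≤ p) (N C G e : ℕ) (hG : 2 ≤ G) (hGC : G ≤ C) (hN : N ≤ p) (heC : e ≤ C)
    (μ : ℕ → ℕ × ℕ → ZMod p) :
    qm (ZMod p) N (PowerSeries.X ^ 3) * aeval (qm (ZMod p) N (ee 1)) (PP3 p C G e μ) =
    aeval (qm (ZMod p) N (ee 1)) (DD3 (ZMod p) C G) *
      qm (ZMod p) N (∑ e' ∈ Ioc G e, ∑ x ∈ PB G e', PowerSeries.C (μ e' x) *
        (YY p (e' : ZMod p) * (YY p (x.1 : ZMod p) * YY p (x.2 : ZMod p)))) := by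
  unfold PP3
  rw [map_sum, map_sum, mul_sum, mul_sum]
  refine sum_congr rfl (fun e' he' => ?_)
  rw [mem_Ioc] at he'
  rw [map_sum, map_sum, mul_sum, mul_sum]
  refine sum_congr rfl (fun x hx => ?_)
  obtain ⟨h1, h2, h4, h5, h6, h7, h8⟩ := PB_lt hx (by omega)
  rw [← QQ3_mul (ZMod p) C G e' x.1 x.2 hGC (by omega) (by omega) h1 (by omega) h4 h5 (by omega) h7 h8]
  have r1 := YY_rel h3 N hN (e' : ZMod p)
  have r2 := YY_rel h3 N hN (x.1 : ZMod p)
  have r3 := YY_rel h3 N hN (x.2 : ZMod p)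
  rw [qm_ee_nat N hN] at r1 r2 r3
  simp only [map_mul, map_add, map_sub, map_pow, aeval_X, map_one, aeval_C] at r1 r2 r3 ⊢
  set τ := qm (ZMod p) N (ee 1)
  set y := qm (ZMod p) N PowerSeries.X
  set Q := aeval τ (QQ3 (ZMod p) C G e' x.1 x.2)
  have halg : ∀ a : ZMod p, algebraMap (ZMod p) (QR (ZMod p) N) a =
      qm (ZMod p) N (PowerSeries.C a) := fun a => rfl
  rw [halg, halg, halg, halg]
  have key : ((τ ^ e' - 1) * qm (ZMod p) N (YY p (e' : ZMod p))) *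
      ((τ ^ x.1 - 1) * qm (ZMod p) N (YY p (x.1 : ZMod p))) *
      ((τ ^ x.2 - 1) * qm (ZMod p) N (YY p (x.2 : ZMod p))) =
      (qm (ZMod p) N (PowerSeries.C ((e' : ZMod p) / 2)) * y * (τ ^ e' + 1)) *
      (qm (ZMod p) N (PowerSeries.C ((x.1 : ZMod p) / 2)) * y * (τ ^ x.1 + 1)) *
      (qm (ZMod p) N (PowerSeries.C ((x.2 : ZMod p) / 2)) * y * (τ ^ x.2 + 1)) := by
    rw [r1, r2, r3]
  linear_combination (-(qm (ZMod p) N (PowerSeries.C (μ e' x))) * Q) * key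

theorem PP3_zero_of (K C G e : ℕ) (hK : 2 * K + 3 ≤ p) (hG : 2 ≤ G) (hGC : G ≤ C)
    (hC : ∑ f ∈ Icc 1 C, Nat.totient f + ∑ f ∈ Icc 1 G, Nat.totient f + 3 ≤ 2 * K)
    (heC : e ≤ C) (μ : ℕ → ℕ × ℕ → ZMod p)
    (hvan : ∀ s, s ≤ K → ∑ e' ∈ Ioc G e, ∑ x ∈ PB G e', μ e' x * M3 p s e' x.1 x.2 = 0) :
    PP3 p C G e μ = 0 := by
  have h3 : 3 ≤ p := by omega
  set N := 2 * K + 2 with hNdef
  have hN : N ≤ p := by omega
  have h := PP3_rel h3 N C G e hG hGC hN heC μ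
  have h0 : qm (ZMod p) N (∑ e' ∈ Ioc G e, ∑ x ∈ PB G e', PowerSeries.C (μ e' x) *
        (YY p (e' : ZMod p) * (YY p (x.1 : ZMod p) * YY p (x.2 : ZMod p)))) = 0 := by
    rw [← map_zero (qm (ZMod p) N), qm_eq_iff]
    intro n hn
    rw [map_sum, map_zero]
    simp only [map_sum, PowerSeries.coeff_C_mul, coeff_YY_mul3]
    by_cases hev : Even n
    · simp only [if_pos hev]
      exact hvan (n / 2) (by omega)
    · simp only [if_neg hev, mul_zero, sum_const_zero]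
  rw [h0, mul_zero] at h
  set P := PP3 p C G e μ with hP
  have hdeg : P.natDegree < 2 * K - 1 := by
    have := natDegree_PP3 C G e hG hGC heC μ
    rw [← hP] at this
    omega
  have h1 : aeval (qm (ZMod p) N (ee 1)) P =
      qm (ZMod p) N (∑ j ∈ range (2 * K - 1), PowerSeries.C (P.coeff j) * ee (j : ZMod p)) := by
    rw [aeval_eq_sum_range' hdeg, map_sum]
    refine sum_congr rfl (fun j hj => ?_)
    rw [map_mul, qm_ee_nat N hN, Algebra.smul_def]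
    rfl
  rw [h1, ← map_mul, ← map_zero (qm (ZMod p) N), qm_eq_iff] at h
  have h2 : ∀ n, n < 2 * K - 1 → ∑ j ∈ range (2 * K - 1), P.coeff j * (j : ZMod p) ^ n = 0 := by
    intro n hn
    have h4 := h (n + 3) (by omega)
    rw [PowerSeries.coeff_X_pow_mul, map_sum, map_zero] at h4
    simp only [PowerSeries.coeff_C_mul, ee, PowerSeries.coeff_mk] at h4
    have h5 : (n.factorial : ZMod p) ≠ 0 := Pool.Agent.H582R5.RP.fact_ne p (by omega)
    have h6 : (∑ j ∈ range (2 * K - 1), P.coeff j * (j : ZMod p) ^ n) * (n.factorial : ZMod p)⁻¹ = 0 := by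
      rw [sum_mul, ← h4]
      refine sum_congr rfl (fun j _ => ?_)
      ring
    rcases mul_eq_zero.1 h6 with h7 | h7
    · exact h7
    · exact absurd h7 (inv_ne_zero h5)
  have h4 : (fun j : Fin (2 * K - 1) => P.coeff (j : ℕ)) = 0 := by
    refine Matrix.eq_zero_of_forall_pow_sum_mul_pow_eq_zero
      (f := fun j : Fin (2 * K - 1) => ((j : ℕ) : ZMod p)) ?_ ?_
    · intro a b hab
      simp only at hab
      rw [ZMod.natCast_eq_natCast_iff'] at hab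
      have ha := a.2
      have hb := b.2
      rw [Nat.mod_eq_of_lt (by omega), Nat.mod_eq_of_lt (by omega)] at hab
      exact Fin.ext hab
    · intro i
      have h5 := h2 i i.2
      rw [← Fin.sum_univ_eq_sum_range (fun j => P.coeff j * (j : ZMod p) ^ (i : ℕ))] at h5
      exact h5
  ext j
  rw [coeff_zero]
  rcases Nat.lt_or_ge j (2 * K - 1) with h5 | h5
  · exact congrFun h4 ⟨j, h5⟩
  · exact coeff_eq_zero_of_natDegree_lt (by omega)

/-- **Algebra modulo `p`** for products of three functions -/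
theorem core3 {F : Type*} [Field F] [Algebra (ZMod p) F] (K C G e : ℕ) (hK : 2 * K + 3 ≤ p)
    (hG : 2 ≤ G)
    (hC : ∑ f ∈ Icc 1 C, Nat.totient f + ∑ f ∈ Icc 1 G, Nat.totient f + 3 ≤ 2 * K) (hCp : C < p)
    (hGe : G < e) (heC : e ≤ C) (μ : ℕ → ℕ × ℕ → ZMod p)
    (hvan : ∀ s, s ≤ K → ∑ e' ∈ Ioc G e, ∑ x ∈ PB G e', μ e' x * M3 p s e' x.1 x.2 = 0)
    (ζ : F) (hζ : IsPrimitiveRoot ζ e) :
    ∑ x ∈ PB G e, algebraMap (ZMod p) F (μ e x * (x.1 * x.2)) * (ct (ζ ^ x.1) * ct (ζ ^ x.2)) = 0 := by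
  have hGC : G ≤ C := by omega
  have he : 3 ≤ e := by omega
  have hP := PP3_zero_of K C G e hK hG hGC hC heC μ hvan
  have hchar : CharP F p := charP_of_injective_algebraMap (algebraMap (ZMod p) F).injective p
  have h2 : (2 : F) ≠ 0 := by
    have h := Ring.two_ne_zero (R := F)
    apply h
    intro h4
    have h5 := ringChar.of_eq h4
    have h6 := CharP.eq F h5 hchar
    omega
  have h1 := congrArg (fun P : (ZMod p)[X] => (P.map (algebraMap (ZMod p) F)).eval ζ) hP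
  simp only [Polynomial.map_zero, eval_zero] at h1
  unfold PP3 at h1
  simp only [Polynomial.map_sum, eval_finsetSum, Polynomial.map_mul, Polynomial.map_C, eval_mul,
    eval_C, QQ3_map, Polynomial.map_add, Polynomial.map_pow, Polynomial.map_X, Polynomial.map_one,
    eval_add, eval_pow, eval_X, eval_one] at h1
  have e1 : Ioc G e = insert e (Ioo G e) := by
    ext f
    rw [mem_insert, mem_Ioc, mem_Ioo]
    omega
  rw [e1, sum_insert (by rw [mem_Ioo]; omega)] at h1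
  have e2 : ∑ e' ∈ Ioo G e, ∑ x ∈ PB G e', algebraMap (ZMod p) F
      (μ e' x * (((e' : ZMod p) / 2) * ((x.1 : ZMod p) / 2) * ((x.2 : ZMod p) / 2))) *
      (eval ζ (QQ3 F C G e' x.1 x.2) * ((ζ ^ e' + 1) * (ζ ^ x.1 + 1) * (ζ ^ x.2 + 1))) = 0 := by
    apply sum_eq_zero
    intro e' he'
    rw [mem_Ioo] at he'
    apply sum_eq_zero
    intro x hx
    obtain ⟨g1, g2, g3, g4, g5, g6, g7⟩ := PB_lt hx (by omega)
    rw [eval_QQ3_lt C G e e' x.1 x.2 hGC (by omega) heC ζ hζ (by omega) he'.2 g1 (by omega) g3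
      g4 (by omega) g6 g7]
    ring
  rw [e2, add_zero] at h1
  have hL := eval_LL3_ne p C G e (by omega) hGe heC hCp ζ hζ
  set LV := ((X - 1) * LL F C e * ∏ f ∈ Icc 2 G, cyclotomic f F).eval ζ with hLV
  have he0 : (e : F) ≠ 0 := by
    intro h
    rw [CharP.cast_eq_zero_iff F p] at h
    have := Nat.le_of_dvd (by omega) h
    omega
  have e3 : ∀ x ∈ PB G e, algebraMap (ZMod p) F
      (μ e x * (((e : ZMod p) / 2) * ((x.1 : ZMod p) / 2) * ((x.2 : ZMod p) / 2))) *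
      (eval ζ (QQ3 F C G e x.1 x.2) * ((ζ ^ e + 1) * (ζ ^ x.1 + 1) * (ζ ^ x.2 + 1))) =
      ((e : F) * LV / 4) * (algebraMap (ZMod p) F (μ e x * (x.1 * x.2)) *
        (ct (ζ ^ x.1) * ct (ζ ^ x.2))) := by
    intro x hx
    obtain ⟨g1, g2, g3, g4, g5, g6, g7⟩ := PB_lt hx he
    have h7 := congrArg (eval ζ) (QQ3_mul_LL F C G e x.1 x.2 hGC g1 (by omega) g3 g4 (by omega) g6 g7)
    rw [← hLV, eval_mul, eval_mul, eval_sub, eval_sub, eval_pow, eval_pow, eval_X, eval_one] at h7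
    have h8 : ζ ^ x.1 - 1 ≠ 0 := sub_ne_zero.2 (hζ.pow_ne_one_of_pos_of_lt (by omega) g2)
    have h9 : ζ ^ x.2 - 1 ≠ 0 := sub_ne_zero.2 (hζ.pow_ne_one_of_pos_of_lt (by omega) g5)
    rw [← h7, hζ.pow_eq_one]
    unfold ct
    simp only [map_mul, map_div₀, map_natCast, map_ofNat]
    have h4 : (4 : F) ≠ 0 := by
      rw [show (4 : F) = 2 * 2 by norm_num]
      exact mul_ne_zero h2 h2
    field_simp
    ring
  rw [sum_congr rfl e3, ← mul_sum] at h1
  have h4 : (4 : F) ≠ 0 := by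
    rw [show (4 : F) = 2 * 2 by norm_num]
    exact mul_ne_zero h2 h2
  rcases mul_eq_zero.1 h1 with h5 | h5
  · exfalso
    exact (div_ne_zero (mul_ne_zero he0 hL) h4) h5
  · exact h5

end Pool.Agent.T9h59.SR
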