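import Mathlib
import Pool.Agent.T9h59.SR.Core3

set_option autoImplicit false

namespace Pool.Agent.T9h59.SR

open Finset Polynomial Pool.Agent.H332R2

theorem M3_eq_zero {p : ℕ} [Fact p.Prime] {K s : ℕ} (hs : s ≤ K) (h : s ∉ SS3 p K) (e b b' : ℕ) :
    M3 p s e b b' = 0 := by
  classical
  unfold M3
  apply sum_eq_zero
  intro i hi
  rw [mem_range] at hi
  unfold SS3 at h
  rw [mem_filter, mem_range] at h
  push Not at h
  have h' := h (by omega)
  unfold M
  rw [mul_sum]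
  apply sum_eq_zero
  intro j hj
  rw [mem_range] at hj
  by_cases h1 : cc p (2 * i) = 0
  · rw [h1]; ring
  · by_cases h2 : cc p (2 * j) = 0
    · rw [h2]; ring
    · rw [h' i j (s - i - j) (by omega) h1 h2]; ring

/-- the indices -/
def TI3 (G C : ℕ) : Finset (Σ _ : ℕ, ℕ × ℕ) := (Ioc G C).sigma (fun e => PB G e)

theorem mem_TI3 {G C : ℕ} {x : Σ _ : ℕ, ℕ × ℕ} :
    x ∈ TI3 G C ↔ (G < x.1 ∧ x.1 ≤ C) ∧ x.2 ∈ PB G x.1 := by
  unfold TI3
  rw [mem_sigma, mem_Ioc]

/-- the combinations which vanish, with zero coefficients beyond `e` -/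
noncomputable def WW3 (p : ℕ) [Fact p.Prime] (K G C e : ℕ) : Submodule (ZMod p) (TI3 G C → ZMod p) where
  carrier := {l | (∀ s : SS3 p K, ∑ x : TI3 G C,
    l x * ((x.1.2.1 : ZMod p) * (x.1.2.2 : ZMod p))⁻¹ *
    M3 p s.1 x.1.1 x.1.2.1 x.1.2.2 = 0) ∧ ∀ x : TI3 G C, e < x.1.1 → l x = 0}
  add_mem' := by
    intro x y hx hy
    refine ⟨fun s => ?_, fun z hz => ?_⟩
    · simp only [Pi.add_apply, add_mul, sum_add_distrib]
      rw [hx.1 s, hy.1 s, add_zero]
    · rw [Pi.add_apply, hx.2 z hz, hy.2 z hz, add_zero]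
  zero_mem' := by
    refine ⟨fun s => ?_, fun z hz => rfl⟩
    simp
  smul_mem' := by
    intro c x hx
    refine ⟨fun s => ?_, fun z hz => ?_⟩
    · simp only [Pi.smul_apply, smul_eq_mul, mul_assoc]
      rw [← mul_sum]
      have h := hx.1 s
      simp only [mul_assoc] at h
      rw [h, mul_zero]
    · rw [Pi.smul_apply, hx.2 z hz, smul_zero]

theorem mem_TI3_of {G C e : ℕ} (h3 : G < e) (hC : e ≤ C) (x : PB G e) :
    (⟨e, (x : ℕ × ℕ)⟩ : Σ _ : ℕ, ℕ × ℕ) ∈ TI3 G C := mem_TI3.2 ⟨⟨h3, hC⟩, x.2⟩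

theorem top_mem3 {p : ℕ} [hp : Fact p.Prime] {K G C e : ℕ} (hK : 2 * K + 3 ≤ p) (hG : 2 ≤ G)
    (hC : ∑ f ∈ Icc 1 C, Nat.totient f + ∑ f ∈ Icc 1 G, Nat.totient f + 3 ≤ 2 * K) (hCp : C < p)
    (hGe : G < e) (heC : e ≤ C)
    {l : TI3 G C → ZMod p} (hl : l ∈ WW3 p K G C e) :
    (fun x : PB G e => l ⟨⟨e, x⟩, mem_TI3_of hGe heC x⟩) ∈ Ker3 p G e := by
  classical
  intro ζ hζ
  set d : ℕ → ℕ × ℕ → ZMod p := fun e b => if h : (⟨e, b⟩ : Σ _ : ℕ, ℕ × ℕ) ∈ TI3 G C then
      l ⟨⟨e, b⟩, h⟩ else 0 with hd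
  have hdv : ∀ x : TI3 G C, d x.1.1 x.1.2 = l x := by
    intro x
    rw [hd]
    simp only
    rw [dif_pos x.2]
  have hcore := core3 (F := AlgebraicClosure (ZMod p)) K C G e hK hG hC hCp hGe heC
      (fun e' x => (d e' x) * ((x.1 : ZMod p) * (x.2 : ZMod p))⁻¹) ?_ ζ hζ
  · have e1 : ∀ x ∈ PB G e, algebraMap (ZMod p) (AlgebraicClosure (ZMod p))
        ((d e x) * ((x.1 : ZMod p) * (x.2 : ZMod p))⁻¹ * (x.1 * x.2)) * (ct (ζ ^ x.1) * ct (ζ ^ x.2)) =
        (algebraMap (ZMod p) (AlgebraicClosure (ZMod p)) (d e x) * (ct (ζ ^ x.1) * ct (ζ ^ x.2))) := by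
      intro x hx
      obtain ⟨g1, g2, g3, g4, g5, g6, g7⟩ := PB_lt hx (by omega)
      have hb0 : (x.1 : ZMod p) ≠ 0 := nat_ne_zero (by omega) (by omega)
      have hb1 : (x.2 : ZMod p) ≠ 0 := nat_ne_zero (by omega) (by omega)
      have e2 : (d e x) * ((x.1 : ZMod p) * (x.2 : ZMod p))⁻¹ * (x.1 * x.2) = d e x := by
        field_simp
      rw [e2]
    rw [sum_congr rfl e1] at hcore
    rw [← hcore, ← Finset.sum_coe_sort (PB G e)]
    refine sum_congr rfl (fun x _ => ?_)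
    have := hdv ⟨⟨e, x⟩, mem_TI3_of hGe heC x⟩
    simp only at this
    rw [this]
  · intro s hs
    by_cases hsS : s ∈ SS3 p K
    · have h1 := hl.1 ⟨s, hsS⟩
      simp only at h1
      rw [Finset.sum_congr rfl (fun x _ => by rw [← hdv x])] at h1
      rw [Finset.sum_coe_sort (TI3 G C) (fun x => d x.1 x.2 *
        ((x.2.1 : ZMod p) * (x.2.2 : ZMod p))⁻¹ * M3 p s x.1 x.2.1 x.2.2), TI3, Finset.sum_sigma] at h1
      rw [← h1]
      refine Finset.sum_subset (Ioc_subset_Ioc_right heC) ?_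
      intro e' he' hne'
      rw [mem_Ioc] at he' hne'
      apply sum_eq_zero
      intro b hb
      have hmem : (⟨e', b⟩ : Σ _ : ℕ, ℕ × ℕ) ∈ TI3 G C := mem_TI3.2 ⟨he', hb⟩
      have h2 := hdv ⟨_, hmem⟩
      simp only at h2
      rw [h2, hl.2 ⟨_, hmem⟩ (by simp only; omega)]
      simp
    · apply sum_eq_zero
      intro e' _
      apply sum_eq_zero
      intro b _
      rw [M3_eq_zero hs hsS, mul_zero]

theorem finrank_WW3 {p : ℕ} [hp : Fact p.Prime] {K G C : ℕ} (hK : 2 * K + 3 ≤ p) (hG : 2 ≤ G)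
    (hC : ∑ f ∈ Icc 1 C, Nat.totient f + ∑ f ∈ Icc 1 G, Nat.totient f + 3 ≤ 2 * K) (hCp : C < p)
    (e : ℕ) (he2 : G ≤ e) (heC : e ≤ C) :
    Module.finrank (ZMod p) (WW3 p K G C e) ≤
      ∑ f ∈ Ioc G e, Module.finrank (ZMod p) (Ker3 p G f) := by
  induction e, he2 using Nat.le_induction with
  | base =>
    have h : WW3 p K G C G = ⊥ := by
      rw [eq_bot_iff]
      intro l hl
      rw [Submodule.mem_bot]
      funext x
      have := (mem_TI3.1 x.2).1.1
      exact hl.2 x (by omega)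
    rw [h, finrank_bot]
    exact Nat.zero_le _
  | succ e he2 ih =>
    have ih := ih (by omega)
    have e1 : Ioc G (e + 1) = insert (e + 1) (Ioc G e) := by
      ext f
      rw [mem_insert, mem_Ioc, mem_Ioc]
      omega
    rw [e1, sum_insert (by rw [mem_Ioc]; omega)]
    let π : WW3 p K G C (e + 1) →ₗ[ZMod p] Ker3 p G (e + 1) :=
      { toFun := fun l => ⟨fun b : PB G (e + 1) => l.1 ⟨⟨e + 1, b⟩, mem_TI3_of (by omega) heC b⟩,
          top_mem3 hK hG hC hCp (by omega) heC l.2⟩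
        map_add' := fun x y => rfl
        map_smul' := fun c x => rfl }
    have h1 := LinearMap.finrank_range_add_finrank_ker π
    have h2 : Module.finrank (ZMod p) (LinearMap.range π) ≤
        Module.finrank (ZMod p) (Ker3 p G (e + 1)) := Submodule.finrank_le _
    have h3 : Module.finrank (ZMod p) (LinearMap.ker π) ≤
        Module.finrank (ZMod p) (WW3 p K G C e) := by
      let g : LinearMap.ker π →ₗ[ZMod p] WW3 p K G C e :=
        { toFun := fun l => ⟨l.1.1, ⟨l.1.2.1, fun x hx => by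
            rcases Nat.lt_or_ge (e + 1) x.1.1 with h | h
            · exact l.1.2.2 x h
            · have h4 := congrArg Subtype.val (LinearMap.mem_ker.1 l.2)
              have h5 := mem_TI3.1 x.2
              obtain ⟨⟨f, b⟩, hx'⟩ := x
              simp only at hx h h5
              have h6 : f = e + 1 := by omega
              subst h6
              exact congrFun h4 ⟨b, h5.2⟩⟩⟩
          map_add' := fun x y => rfl
          map_smul' := fun c x => rfl }
      refine LinearMap.finrank_le_finrank_of_injective (f := g) ?_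
      intro x y hxy
      have := congrArg Subtype.val hxy
      exact Subtype.ext (Subtype.ext this)
    omega

/-- **The count** for three indices -/
theorem count3 (p : ℕ) [hp : Fact p.Prime] (K G C : ℕ) (hK : 2 * K + 3 ≤ p) (hG : 2 ≤ G)
    (hC : ∑ f ∈ Icc 1 C, Nat.totient f + ∑ f ∈ Icc 1 G, Nat.totient f + 3 ≤ 2 * K) (hCp : C < p)
    (hGC : G ≤ C) :
    ∑ e ∈ Ioc G C, #(PB G e) ≤ ∑ e ∈ Ioc G C, Module.finrank (ZMod p) (Ker3 p G e) + #(SS3 p K) := by
  classical
  let Ψ : (TI3 G C → ZMod p) →ₗ[ZMod p] (SS3 p K → ZMod p) :=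
    { toFun := fun l s => ∑ x : TI3 G C, l x * ((x.1.2.1 : ZMod p) * (x.1.2.2 : ZMod p))⁻¹ *
        M3 p s.1 x.1.1 x.1.2.1 x.1.2.2
      map_add' := fun x y => by
        funext s
        simp only [Pi.add_apply, add_mul, sum_add_distrib]
      map_smul' := fun c x => by
        funext s
        simp only [Pi.smul_apply, smul_eq_mul, mul_assoc, RingHom.id_apply, mul_sum] }
  have h1 := LinearMap.finrank_range_add_finrank_ker Ψ
  have h2 : Module.finrank (ZMod p) (LinearMap.range Ψ) ≤ #(SS3 p K) := by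
    refine (Submodule.finrank_le _).trans (le_of_eq ?_)
    rw [Module.finrank_fintype_fun_eq_card, Fintype.card_coe]
  have h3 : Module.finrank (ZMod p) (LinearMap.ker Ψ) ≤
      ∑ e ∈ Ioc G C, Module.finrank (ZMod p) (Ker3 p G e) := by
    refine le_trans (le_of_eq ?_) (finrank_WW3 hK hG hC hCp C hGC le_rfl)
    have : LinearMap.ker Ψ = WW3 p K G C C := by
      ext l
      rw [LinearMap.mem_ker]
      constructor
      · intro h
        refine ⟨fun s => congrFun h s, fun x hx => ?_⟩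
        have := (mem_TI3.1 x.2).1.2
        omega
      · intro h
        funext s
        exact h.1 s
    rw [this]
  rw [Module.finrank_fintype_fun_eq_card, Fintype.card_coe] at h1
  have h4 : #(TI3 G C) = ∑ e ∈ Ioc G C, #(PB G e) := by
    unfold TI3
    rw [card_sigma]
  omega

end Pool.Agent.T9h59.SR
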