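import Mathlib
import Pool.Agent.T9h59.SR.Count3
import Pool.Agent.T9h59.SR.Asym2

set_option autoImplicit false

namespace Pool.Agent.T9h59.SR

open Finset Filter

/-- for large `p` at least half of the rank is left at all levels -/
theorem half_rank (hT1 : StT1) : ∃ P : ℕ, ∀ (p : ℕ) [Fact p.Prime], P ≤ p → ∀ e : ℕ, 3 ≤ e → e < p →
    e ^ 2 ≤ 8 * p → 2 * Module.finrank (ZMod p) (Ker p e) < #(B e) := by
  obtain ⟨A, hA⟩ := hT1 (1 / 4) (by norm_num)
  have hlogt : Tendsto (fun P : ℕ => Real.log (P : ℝ)) atTop atTop :=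
    Real.tendsto_log_atTop.comp tendsto_natCast_atTop_atTop
  obtain ⟨P, hP⟩ := eventually_atTop.1 (hlogt.eventually
    (eventually_gt_atTop (4 * (3 / 4 * Real.log 8 + 2 * A))))
  refine ⟨P, fun p hp hPp e he hep hsq => ?_⟩
  have hL := hP p hPp
  have hp0 : (0 : ℝ) < p := by exact_mod_cast hp.out.pos
  have hp1 : (1 : ℝ) < p := by exact_mod_cast hp.out.one_lt
  have hL0 : 0 < Real.log p := Real.log_pos hp1
  have he0 : (0 : ℝ) < e := by exact_mod_cast (by omega : 0 < e)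
  have hle0 : 0 ≤ Real.log e := Real.log_nonneg (by exact_mod_cast (by omega : 1 ≤ e))
  have hle : Real.log e ≤ Real.log p / 2 + Real.log 8 / 2 := by
    have h1 : ((e : ℝ)) ^ 2 ≤ 8 * p := by exact_mod_cast hsq
    have h2 := Real.log_le_log (by positivity) h1
    rw [Real.log_pow, Real.log_mul (by norm_num) hp0.ne'] at h2
    push_cast at h2
    linarith
  have h1 := finrank_Ker p e he hep
  have h2 := hA e (by omega)
  have h3 : (Nat.totient e : ℝ) = 2 * #(B e) := by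
    have := card_B e he
    exact_mod_cast this.symm
  rw [← sum_div] at h1
  rw [h3] at h2
  have hB0 : 0 < #(B e) := by
    have h4 := card_B e he
    have h5 : 0 < Nat.totient e := Nat.totient_pos.2 (by omega)
    omega
  have hB0' : (0 : ℝ) < #(B e) := by exact_mod_cast hB0
  set S := ∑ ℓ ∈ e.primeFactors, ((e / ℓ : ℕ) : ℝ) * Real.log ℓ with hS
  set k := (Module.finrank (ZMod p) (Ker p e) : ℝ) with hk
  have h6 : 2 * k * Real.log p < #(B e) * Real.log p := by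
    have h7 : 2 * k * Real.log p ≤ #(B e) * (3 / 2 * Real.log e + 2 * A) := by
      have e1 : (#(B e) : ℝ) * (3 / 2 * Real.log e + 2 * A) =
          2 * (#(B e) * (Real.log e / 2) + (2 * #(B e) * (1 / 4 * Real.log e + A)) / 2) := by ring
      rw [e1]
      linarith
    refine lt_of_le_of_lt h7 (mul_lt_mul_of_pos_left ?_ hB0')
    linarith
  have h8 : 2 * k < #(B e) := lt_of_mul_lt_mul_right h6 hL0.le
  rw [hk] at h8
  exact_mod_cast h8

theorem sum_le_tri (G : ℕ) : 2 * ∑ f ∈ Icc 1 G, Nat.totient f ≤ G * (G + 1) := by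
  induction G with
  | zero => simp
  | succ G ih =>
    have e1 : Icc 1 (G + 1) = insert (G + 1) (Icc 1 G) := by
      ext f
      rw [mem_insert, mem_Icc, mem_Icc]
      omega
    rw [e1, sum_insert (by rw [mem_Icc]; omega)]
    have h := Nat.totient_le (G + 1)
    nlinarith

theorem exists_C3 (K : ℕ) (hK : 10 ≤ K) : ∃ C : ℕ, 1 ≤ C ∧
    ∑ f ∈ Icc 1 C, Nat.totient f + 4 * C + 3 ≤ 2 * K ∧
    2 * K ≤ ∑ f ∈ Icc 1 C, Nat.totient f + 5 * C + 8 := by
  classical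
  have hex : ∃ C : ℕ, 2 * K < ∑ f ∈ Icc 1 C, Nat.totient f + 4 * C + 3 := ⟨2 * K, by omega⟩
  set C' := Nat.find hex with hC'
  have h1 : 2 * K < ∑ f ∈ Icc 1 C', Nat.totient f + 4 * C' + 3 := Nat.find_spec hex
  have h2 : 2 ≤ C' := by
    by_contra h
    have h3 := sum_le_tri C'
    have h4 : C' ≤ 1 := by omega
    have h5 : C' * (C' + 1) ≤ 1 * (1 + 1) := Nat.mul_le_mul h4 (by omega)
    omega
  obtain ⟨C, hC⟩ : ∃ C, C' = C + 1 := ⟨C' - 1, by omega⟩
  have h3 : ¬ 2 * K < ∑ f ∈ Icc 1 C, Nat.totient f + 4 * C + 3 := Nat.find_min hex (by omega)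
  refine ⟨C, by omega, by omega, ?_⟩
  have e1 : Icc 1 (C + 1) = insert (C + 1) (Icc 1 C) := by
    ext f
    rw [mem_insert, mem_Icc, mem_Icc]
    omega
  rw [hC, e1, sum_insert (by rw [mem_Icc]; omega)] at h1
  have h5 : Nat.totient (C + 1) ≤ C + 1 := Nat.totient_le _
  omega

/-- all but `A √K` of the `s ≤ K` are sums of three numbers with `p ∤ B_{2 i}` -/
theorem SS3_ge (hD3 : StD3) (hT1 : StT1) : ∃ A : ℝ, 0 ≤ A ∧ ∀ (p : ℕ) [Fact p.Prime] (K : ℕ),
    2 * K + 3 ≤ p → (K : ℝ) ≤ #(SS3 p K) + A * Real.sqrt K := by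
  classical
  obtain ⟨P, hP⟩ := half_rank hT1
  refine ⟨max 22 (Real.sqrt P), by positivity, fun p hp K hKp => ?_⟩
  have hK0 : (0 : ℝ) ≤ K := Nat.cast_nonneg K
  have hs0 := Real.sqrt_nonneg (K : ℝ)
  have hsq := Real.sq_sqrt hK0
  have hA22 : 22 * Real.sqrt K ≤ max 22 (Real.sqrt P) * Real.sqrt K :=
    mul_le_mul_of_nonneg_right (le_max_left _ _) hs0
  have hAP : Real.sqrt P * Real.sqrt K ≤ max 22 (Real.sqrt P) * Real.sqrt K :=
    mul_le_mul_of_nonneg_right (le_max_right _ _) hs0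
  have hSS0 : (0 : ℝ) ≤ #(SS3 p K) := Nat.cast_nonneg _
  rcases Nat.lt_or_ge p P with hpP | hPp
  · have h1 : Real.sqrt K ≤ Real.sqrt P := Real.sqrt_le_sqrt (by exact_mod_cast (by omega : K ≤ P))
    nlinarith
  rcases Nat.lt_or_ge K 10 with hK | hK
  · have h1 : Real.sqrt K ≤ 22 := by
      rw [Real.sqrt_le_left (by norm_num)]
      have : (K : ℝ) < 10 := by exact_mod_cast hK
      linarith
    nlinarith
  obtain ⟨C, hC1, hC2, hC3⟩ := exists_C3 K hK
  set Φ := ∑ f ∈ Icc 1 C, Nat.totient f with hΦ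
  -- the size of `C`
  have hCsqN : C ^ 2 ≤ 16 * K := by
    have := totient_sum C
    rw [← hΦ] at this
    omega
  have hCsq : (C : ℝ) ^ 2 ≤ 16 * K := by exact_mod_cast hCsqN
  have hC4 : (C : ℝ) ≤ 4 * Real.sqrt K := by
    have h3 : (C : ℝ) ≤ Real.sqrt (16 * K) := Real.le_sqrt_of_sq_le hCsq
    rw [Real.sqrt_mul (by norm_num)] at h3
    have h4 : Real.sqrt 16 = 4 := by
      rw [show (16 : ℝ) = 4 ^ 2 by norm_num, Real.sqrt_sq (by norm_num)]
    rwa [h4] at h3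
  have hCp : C < p := by omega
  -- the choice of `G`
  set G := Nat.sqrt C + 1 with hG
  have hG1 : Nat.sqrt C * Nat.sqrt C ≤ C := Nat.sqrt_le C
  have hG2 : C < G * G := Nat.lt_succ_sqrt C
  have hs1 : 1 ≤ Nat.sqrt C := Nat.sqrt_pos.2 (by omega)
  have hsC : Nat.sqrt C ≤ C := Nat.sqrt_le_self C
  have hGge : 2 ≤ G := by omega
  have hΦG : ∑ f ∈ Icc 1 G, Nat.totient f ≤ 4 * C := by
    have h1 := sum_le_tri G
    have h2 : G * (G + 1) = Nat.sqrt C * Nat.sqrt C + 3 * Nat.sqrt C + 2 := by rw [hG]; ring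
    omega
  set ΦG := ∑ f ∈ Icc 1 G, Nat.totient f with hΦGdef
  rcases Nat.lt_or_ge C G with hCG | hGC
  · -- `C` is very small
    have h1 : C ≤ 1 := by
      by_contra h
      have h2 : 2 ≤ C := by omega
      have h3 : Nat.sqrt C < C := Nat.sqrt_lt_self (by omega)
      omega
    have h4 := sum_le_tri C
    rw [← hΦ] at h4
    have h5 : C * (C + 1) ≤ 1 * 2 := Nat.mul_le_mul h1 (by omega)
    have h6 : K ≤ 12 := by omega
    have h7 : Real.sqrt K ≤ 22 := by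
      rw [Real.sqrt_le_left (by norm_num)]
      have : (K : ℝ) ≤ 12 := by exact_mod_cast h6
      linarith
    nlinarith
  have hcount := count3 p K G C hKp hGge (by omega) hCp hGC
  have hlevel : ∀ e ∈ Ioc G C, Module.finrank (ZMod p) (Ker3 p G e) + #(B e) ≤ #(PB G e) := by
    intro e he
    rw [mem_Ioc] at he
    refine hD3 p G e (by omega) (by omega) ?_ (hP p hPp e (by omega) (by omega) ?_)
    · have : G ^ 2 = G * G := sq G
      omega
    · have h1 : e ^ 2 ≤ C ^ 2 := Nat.pow_le_pow_left he.2 2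
      omega
  have hsum := sum_le_sum hlevel
  rw [sum_add_distrib] at hsum
  have hB : 2 * ∑ e ∈ Ioc G C, #(B e) + ΦG = Φ := by
    have e1 : Icc 1 C = Icc 1 G ∪ Ioc G C := by
      ext f
      rw [mem_union, mem_Icc, mem_Icc, mem_Ioc]
      omega
    rw [hΦ, e1, sum_union (by
      rw [disjoint_left]
      intro f hf hf'
      rw [mem_Icc] at hf
      rw [mem_Ioc] at hf'
      omega), ← hΦGdef, mul_sum, sum_congr rfl (fun e he => card_B e (by
        rw [mem_Ioc] at he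
        omega))]
    ring
  have hfin : 2 * K ≤ 2 * #(SS3 p K) + 9 * C + 8 := by omega
  have hfin' : (2 : ℝ) * K ≤ 2 * #(SS3 p K) + 9 * C + 8 := by exact_mod_cast hfin
  have hs1' : 1 ≤ Real.sqrt K := by
    rw [Real.one_le_sqrt]
    exact_mod_cast (by omega : 1 ≤ K)
  linarith

/-- **Sums of three regular indices** -/
theorem three (hD3 : StD3) (hT1 : StT1) (hT6 : StT6) : ∃ A : ℝ, ∀ p : ℕ, p.Prime → ∀ K : ℕ,
    2 * K + 3 ≤ p →
    ({k : ℕ | 1 ≤ k ∧ k ≤ K ∧ ¬ ∃ i j l : ℕ, 1 ≤ i ∧ 1 ≤ j ∧ 1 ≤ l ∧ i + j + l = k ∧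
      ¬ ((p : ℤ) ∣ (_root_.bernoulli (2 * i)).num) ∧ ¬ ((p : ℤ) ∣ (_root_.bernoulli (2 * j)).num) ∧
      ¬ ((p : ℤ) ∣ (_root_.bernoulli (2 * l)).num)}.ncard : ℝ) ≤ A * Real.sqrt K := by
  classical
  obtain ⟨A, hA0, hA⟩ := SS3_ge hD3 hT1
  refine ⟨A + 3, fun p hp K hKp => ?_⟩
  have : Fact p.Prime := ⟨hp⟩
  set X := {k : ℕ | 1 ≤ k ∧ k ≤ K ∧ ¬ ∃ i j l : ℕ, 1 ≤ i ∧ 1 ≤ j ∧ 1 ≤ l ∧ i + j + l = k ∧
      ¬ ((p : ℤ) ∣ (_root_.bernoulli (2 * i)).num) ∧ ¬ ((p : ℤ) ∣ (_root_.bernoulli (2 * j)).num) ∧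
      ¬ ((p : ℤ) ∣ (_root_.bernoulli (2 * l)).num)} with hX
  rcases Nat.eq_zero_or_pos K with hK0 | hK0
  · have hXe : X = ∅ := by
      ext k
      simp only [hX, Set.mem_ofPred_eq, Set.mem_empty_iff_false, iff_false]
      rintro ⟨h1, h2, -⟩
      omega
    rw [hXe, Set.ncard_empty, Nat.cast_zero]
    positivity
  have hsub : X ⊆ (((range (K + 1)) \ (SS3 p K)) ∪ {1, 2} : Finset ℕ) := by
    intro k hk
    obtain ⟨h1, h2, h3⟩ := hk
    rw [Finset.mem_coe, Finset.mem_union, Finset.mem_sdiff, Finset.mem_range, Finset.mem_insert,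
      Finset.mem_singleton]
    rcases Nat.lt_or_ge k 3 with h | h
    · right; omega
    · left
      refine ⟨by omega, fun hs => h3 (hT6 p K hKp k hs h)⟩
  have h1 : X.ncard ≤ #(((range (K + 1)) \ (SS3 p K)) ∪ {1, 2} : Finset ℕ) := by
    rw [← Set.ncard_coe_finset]
    exact Set.ncard_le_ncard hsub (Finset.finite_toSet _)
  have h2 : SS3 p K ⊆ range (K + 1) := by
    unfold SS3
    exact filter_subset _ _
  have h3 : #((range (K + 1)) \ (SS3 p K)) + #(SS3 p K) = K + 1 := by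
    have h3 := card_sdiff_add_card_eq_card h2
    rw [card_range] at h3
    exact h3
  have h4 : #(((range (K + 1)) \ (SS3 p K)) ∪ {1, 2} : Finset ℕ) ≤
      #((range (K + 1)) \ (SS3 p K)) + 2 := (card_union_le _ _).trans (Nat.add_le_add_left card_le_two _)
  have h5 : X.ncard + #(SS3 p K) ≤ K + 3 := by omega
  have h6 : (X.ncard : ℝ) + #(SS3 p K) ≤ K + 3 := by exact_mod_cast h5
  have h7 := hA p K hKp
  have h8 : 1 ≤ Real.sqrt K := by
    rw [Real.one_le_sqrt]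
    exact_mod_cast hK0
  rw [add_mul]
  linarith

end Pool.Agent.T9h59.SR
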