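import Mathlib
import Pool.Agent.T9h59.SR.Asym
import Pool.Agent.T9h80.SR.Q3
import Pool.Agent.T9h80.SR.Q4

set_option autoImplicit false

namespace Pool.Agent.T9h59.SR

open Finset Filter

/-- at least `(1 - log K / (2 log p) - ε) K` numbers `k ≤ K` are sums of two regular indices -/
theorem sums_ge (hB : ∀ e : ℕ, 3 ≤ e → 2 * #(B e) = Nat.totient e)
    (hT : ∀ C : ℕ, C ^ 2 ≤ 8 * ∑ f ∈ Icc 1 C, Nat.totient f) (ε : ℝ) (hε : 0 < ε) :
    ∃ K₀ : ℕ, ∀ (p : ℕ) [Fact p.Prime] (K : ℕ), K₀ ≤ K → 2 * K + 3 ≤ p →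
      (1 - Real.log K / (2 * Real.log p) - ε) * K ≤ #(Pool.Agent.T9h80.SR.Sums p K) := by
  obtain ⟨K₀, h⟩ := SS_ge hB hT ε hε
  refine ⟨K₀, fun p _ K hK hKp => ?_⟩
  have h1 := h p K hK hKp
  have h2 : (#(SS p K) : ℝ) ≤ #(Pool.Agent.T9h80.SR.Sums p K) + 2 := by
    exact_mod_cast Pool.Agent.T9h80.SR.SS_le p K hKp
  linarith

/-- the number of the regular indices -/
theorem reg_ge (hB : ∀ e : ℕ, 3 ≤ e → 2 * #(B e) = Nat.totient e)
    (hT : ∀ C : ℕ, C ^ 2 ≤ 8 * ∑ f ∈ Icc 1 C, Nat.totient f) :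
    ∃ K₀ : ℕ, ∀ (p : ℕ) [Fact p.Prime] (K : ℕ), K₀ ≤ K → 2 * K + 3 ≤ p →
      (K : ℝ) ^ (3 / 4 : ℝ) ≤ 3 * #(Pool.Agent.T9h29.NR.Reg p K) := by
  obtain ⟨K₀, h⟩ := sums_ge hB hT (1 / 18) (by norm_num)
  refine ⟨max K₀ 10000, fun p _ K hK hKp => ?_⟩
  have h1 := h p K ((le_max_left _ _).trans hK) hKp
  have hK1 : 10000 ≤ K := (le_max_right _ _).trans hK
  have hK1' : (10000 : ℝ) ≤ K := by exact_mod_cast hK1
  have hK0 : (0 : ℝ) < K := by linarith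
  have h2 := Pool.Agent.T9h80.SR.count_sq p K hKp
  set S := (#(Pool.Agent.T9h80.SR.Sums p K) : ℝ) with hS
  set N := (#(Pool.Agent.T9h29.NR.Reg p K) : ℝ) with hN
  have hl : Real.log K / (2 * Real.log p) ≤ 1 / 2 := by
    have hlK : Real.log K ≤ Real.log p :=
      Real.log_le_log hK0 (by exact_mod_cast (by omega : K ≤ p))
    have hl0 : 0 < Real.log K := Real.log_pos (by linarith)
    rw [div_le_iff₀ (by linarith)]
    linarith
  have hS1 : (4 / 9 : ℝ) * K ≤ S := by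
    have : (1 - 1 / 2 - 1 / 18 : ℝ) * K ≤ (1 - Real.log K / (2 * Real.log p) - 1 / 18) * K :=
      mul_le_mul_of_nonneg_right (by linarith) hK0.le
    linarith
  have hSK : S ≤ K := by
    have : #(Pool.Agent.T9h80.SR.Sums p K) ≤ K := by
      have h3 : Pool.Agent.T9h80.SR.Sums p K ⊆ Icc 1 K := by
        intro k hk
        rw [Pool.Agent.T9h80.SR.mem_Sums] at hk
        rw [mem_Icc]
        exact hk.1
      have h4 := card_le_card h3
      rw [Nat.card_Icc, Nat.add_sub_cancel] at h4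
      exact h4
    rw [hS]
    exact_mod_cast this
  -- powers
  set x := Real.sqrt K with hx
  have hx0 : 0 ≤ x := Real.sqrt_nonneg _
  have hx2 : x ^ 2 = K := Real.sq_sqrt hK0.le
  have hx100 : 100 ≤ x := by
    apply Real.le_sqrt_of_sq_le
    norm_num
    exact hK1
  have h32 : (K : ℝ) ^ (3 / 2 : ℝ) = K * x := by
    rw [hx, Real.sqrt_eq_rpow, ← Real.rpow_one_add' hK0.le (by norm_num)]
    norm_num
  have hS32 : (8 / 27 : ℝ) * (K * x) ≤ S ^ (3 / 2 : ℝ) := by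
    have h3 : ((4 / 9 : ℝ) * K) ^ (3 / 2 : ℝ) ≤ S ^ (3 / 2 : ℝ) :=
      Real.rpow_le_rpow (by positivity) hS1 (by norm_num)
    rw [Real.mul_rpow (by norm_num) hK0.le, h32] at h3
    have h4 : (4 / 9 : ℝ) ^ (3 / 2 : ℝ) = 8 / 27 := by
      rw [show (4 / 9 : ℝ) = (2 / 3) ^ (2 : ℝ) by norm_num, ← Real.rpow_mul (by norm_num)]
      norm_num
    rw [h4] at h3
    exact h3
  have hN2 : (K : ℝ) * x / 9 ≤ N ^ 2 := by
    have h5 : (32 / 243 : ℝ) * (K * x) - K / 2 ≤ N ^ 2 := by linarith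
    have h6 : (K : ℝ) * 100 ≤ K * x := mul_le_mul_of_nonneg_left hx100 hK0.le
    nlinarith
  have h34 : ((K : ℝ) ^ (3 / 4 : ℝ)) ^ 2 = K * x := by
    rw [← Real.rpow_natCast, ← Real.rpow_mul hK0.le, ← h32]
    norm_num
  have hN0 : 0 ≤ N := by rw [hN]; positivity
  have h7 : ((K : ℝ) ^ (3 / 4 : ℝ)) ^ 2 ≤ (3 * N) ^ 2 := by
    rw [h34]
    nlinarith
  exact le_of_sq_le_sq h7 (by positivity)

end Pool.Agent.T9h59.SR
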